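import Mathlib

/-!
# Bernstein mixtures and the elementary steps
-/

namespace Pool.Agent.Helper73.KS

open Finset intervalIntegral

/-- Beta integral with natural exponents. -/
lemma beta_int (q : ℕ) : ∀ p : ℕ, ∫ t in (0:ℝ)..1, t ^ p * (1 - t) ^ q =
    (p.factorial * q.factorial : ℝ) / (p + q + 1).factorial := by
  induction q with
  | zero =>
    intro p
    simp only [pow_zero, mul_one, integral_pow, one_pow, add_zero, Nat.factorial_zero,
      Nat.cast_one]
    rw [Nat.factorial_succ, zero_pow (by omega)]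
    have h1 : (p.factorial : ℝ) ≠ 0 := by exact_mod_cast p.factorial_ne_zero
    have h2 : (p : ℝ) + 1 ≠ 0 := by positivity
    push_cast
    field_simp
    ring
  | succ q ih =>
    intro p
    have h0 : (fun t : ℝ => t ^ p * (1 - t) ^ (q + 1)) =
        fun t => t ^ p * (1 - t) ^ q - t ^ (p + 1) * (1 - t) ^ q := by
      funext t; ring
    rw [h0, intervalIntegral.integral_sub (Continuous.intervalIntegrable (by fun_prop) _ _)
      (Continuous.intervalIntegrable (by fun_prop) _ _), ih, ih]
    have h1 : p + (q + 1) + 1 = (p + q + 1) + 1 := by ring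
    have h2 : p + 1 + q + 1 = (p + q + 1) + 1 := by ring
    rw [h1, h2, Nat.factorial_succ (p + q + 1), Nat.factorial_succ p, Nat.factorial_succ q]
    have h3 : ((p + q + 1).factorial : ℝ) ≠ 0 := by exact_mod_cast Nat.factorial_ne_zero _
    push_cast
    field_simp
    ring

/-- density of the `(i+1)`-st order statistic of `n+1` uniform points -/
noncomputable def bet (n i : ℕ) (t : ℝ) : ℝ := (n + 1) * (n.choose i) * t ^ i * (1 - t) ^ (n - i)

/-- mixture of the densities `bet n i` with weights `h i` -/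
noncomputable def dens (n : ℕ) (h : ℕ → ℝ) (t : ℝ) : ℝ := ∑ i ∈ range (n + 1), h i * bet n i t

@[fun_prop]
lemma bet_cont (n i : ℕ) : Continuous (bet n i) := by unfold bet; fun_prop

@[fun_prop]
lemma dens_cont (n : ℕ) (h : ℕ → ℝ) : Continuous (dens n h) := by unfold dens; fun_prop

lemma bet_nonneg {n i : ℕ} {t : ℝ} (h0 : 0 ≤ t) (h1 : t ≤ 1) : 0 ≤ bet n i t := by
  unfold bet
  have : 0 ≤ 1 - t := by linarith
  positivity

lemma bet_moment {n i : ℕ} (hi : i ≤ n) (k : ℕ) : ∫ t in (0:ℝ)..1, t ^ k * bet n i t =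
    ((i + k).factorial * (n + 1).factorial : ℝ) / (i.factorial * (n + k + 1).factorial) := by
  have h0 : (fun t : ℝ => t ^ k * bet n i t) =
      fun t => ((n + 1) * (n.choose i) : ℝ) * (t ^ (i + k) * (1 - t) ^ (n - i)) := by
    funext t; unfold bet; rw [pow_add]; ring
  rw [h0, intervalIntegral.integral_const_mul, beta_int]
  have h1 : i + k + (n - i) + 1 = n + k + 1 := by omega
  rw [h1]
  have h2 : (n.choose i : ℝ) = n.factorial / (i.factorial * (n - i).factorial) :=
    Nat.cast_choose ℝ hi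
  rw [h2, Nat.factorial_succ n]
  have h3 : (i.factorial : ℝ) ≠ 0 := by exact_mod_cast Nat.factorial_ne_zero _
  have h4 : ((n - i).factorial : ℝ) ≠ 0 := by exact_mod_cast Nat.factorial_ne_zero _
  have h5 : ((n + k + 1).factorial : ℝ) ≠ 0 := by exact_mod_cast Nat.factorial_ne_zero _
  push_cast
  field_simp

lemma bet_int {n i : ℕ} (hi : i ≤ n) : ∫ t in (0:ℝ)..1, bet n i t = 1 := by
  have h := bet_moment hi 0
  simp only [pow_zero, one_mul, add_zero] at h
  rw [h]
  have h3 : (i.factorial : ℝ) ≠ 0 := by exact_mod_cast Nat.factorial_ne_zero _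
  have h5 : ((n + 1).factorial : ℝ) ≠ 0 := by exact_mod_cast Nat.factorial_ne_zero _
  rw [div_self (mul_ne_zero h3 h5)]

lemma bet_reflect {n i : ℕ} (hi : i ≤ n) (t : ℝ) : bet n i (1 - t) = bet n (n - i) t := by
  unfold bet
  have h1 : n - (n - i) = i := by omega
  rw [h1, Nat.choose_symm hi]
  ring

lemma bet_split {n i : ℕ} (hi : i ≤ n) (t : ℝ) : bet n i t =
    ((n + 1 - i : ℝ) / (n + 2)) * bet (n + 1) i t + ((i + 1 : ℝ) / (n + 2)) * bet (n + 1) (i + 1) t := by
  unfold bet
  have h1 : n + 1 - i = (n - i) + 1 := by omega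
  have h2 : n + 1 - (i + 1) = n - i := by omega
  rw [h1, h2]
  have h3 : ((n + 1).choose i : ℝ) * (n + 1 - i) = (n + 1) * (n.choose i) := by
    have h := Nat.add_one_mul_choose_eq n i
    have h' := Nat.choose_mul_succ_eq n i
    have h4 : ((n.choose i * (n + 1) : ℕ) : ℝ) = (((n + 1).choose i * (n + 1 - i) : ℕ) : ℝ) := by
      exact_mod_cast h'
    rw [Nat.cast_mul, Nat.cast_mul, Nat.cast_sub (by omega)] at h4
    push_cast at h4
    linarith
  have h4 : ((n + 1).choose (i + 1) : ℝ) * (i + 1) = (n + 1) * (n.choose i) := by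
    have h := Nat.add_one_mul_choose_eq n i
    have : (((n + 1) * n.choose i : ℕ) : ℝ) = (((n + 1).choose (i + 1) * (i + 1) : ℕ) : ℝ) := by
      exact_mod_cast h
    push_cast at this
    linarith
  have h5 : ((n : ℝ) + 2) ≠ 0 := by positivity
  have e1 : ((n + 1 - i : ℝ) / (n + 2)) * ((((n + 1 : ℕ) : ℝ) + 1) * ((n + 1).choose i) * t ^ i *
      (1 - t) ^ (n - i + 1)) = (((n + 1).choose i : ℝ) * (n + 1 - i)) * t ^ i * (1 - t) ^ (n - i + 1) := by
    push_cast; field_simp; ring
  have e2 : ((i + 1 : ℝ) / (n + 2)) * ((((n + 1 : ℕ) : ℝ) + 1) * ((n + 1).choose (i + 1)) *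
      t ^ (i + 1) * (1 - t) ^ (n - i)) =
      (((n + 1).choose (i + 1) : ℝ) * (i + 1)) * t ^ (i + 1) * (1 - t) ^ (n - i) := by
    push_cast; field_simp; ring
  rw [e1, e2, h3, h4]
  ring

lemma sum_bet (n : ℕ) (t : ℝ) : ∑ i ∈ range (n + 1), bet n i t = n + 1 := by
  have h := add_pow t (1 - t) n
  rw [add_sub_cancel, one_pow] at h
  have h1 : ∀ i ∈ range (n + 1), bet n i t = (n + 1) * (t ^ i * (1 - t) ^ (n - i) * (n.choose i)) := by
    intro i _; unfold bet; ring
  rw [Finset.sum_congr rfl h1, ← Finset.mul_sum, ← h, mul_one]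

/-- the operator of adding a top element -/
noncomputable def opT (n : ℕ) (F : ℝ → ℝ) (w : ℝ) : ℝ :=
  ∫ τ in (0:ℝ)..1, ((n : ℝ) + 2) * τ ^ (n + 1) * F (τ * w)

/-- the operator of adding a bottom element -/
noncomputable def opB (n : ℕ) (F : ℝ → ℝ) (w : ℝ) : ℝ :=
  ∫ τ in (0:ℝ)..1, ((n : ℝ) + 2) * τ ^ (n + 1) * F (1 - τ * (1 - w))

lemma opT_cont (n : ℕ) {F : ℝ → ℝ} (hF : Continuous F) : Continuous (opT n F) := by
  unfold opT
  refine intervalIntegral.continuous_parametric_intervalIntegral_of_continuous' ?_ _ _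
  fun_prop

lemma opB_eq (n : ℕ) (F : ℝ → ℝ) (w : ℝ) : opB n F w = opT n (fun t => F (1 - t)) (1 - w) := rfl

lemma opB_cont (n : ℕ) {F : ℝ → ℝ} (hF : Continuous F) : Continuous (opB n F) := by
  unfold opB
  refine intervalIntegral.continuous_parametric_intervalIntegral_of_continuous' ?_ _ _
  fun_prop

lemma opT_int (n : ℕ) : ∫ τ in (0:ℝ)..1, ((n : ℝ) + 2) * τ ^ (n + 1) = 1 := by
  rw [intervalIntegral.integral_const_mul, integral_pow, one_pow, zero_pow (by omega)]
  push_cast
  have : (n : ℝ) + 2 ≠ 0 := by positivity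
  field_simp
  ring

lemma opT_pow (n k : ℕ) (w : ℝ) : opT n (fun t => t ^ k) w = ((n + 2 : ℝ) / (n + k + 2)) * w ^ k := by
  unfold opT
  have h0 : (fun τ : ℝ => ((n : ℝ) + 2) * τ ^ (n + 1) * (τ * w) ^ k) =
      fun τ => (((n : ℝ) + 2) * w ^ k) * τ ^ (n + 1 + k) := by
    funext τ; rw [mul_pow, pow_add]; ring
  rw [h0, intervalIntegral.integral_const_mul, integral_pow, one_pow, zero_pow (by omega)]
  push_cast
  have : (n : ℝ) + k + 2 ≠ 0 := by positivity
  have : (n : ℝ) + 1 + k + 1 ≠ 0 := by positivity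
  field_simp
  ring

lemma opT_add (n : ℕ) {F G : ℝ → ℝ} (hF : Continuous F) (hG : Continuous G) (w : ℝ) :
    opT n (fun t => F t + G t) w = opT n F w + opT n G w := by
  unfold opT
  rw [← intervalIntegral.integral_add (Continuous.intervalIntegrable (by fun_prop) _ _)
    (Continuous.intervalIntegrable (by fun_prop) _ _)]
  congr 1
  funext τ; ring

lemma opT_const_mul (n : ℕ) (c : ℝ) (F : ℝ → ℝ) (w : ℝ) :
    opT n (fun t => c * F t) w = c * opT n F w := by
  unfold opT
  rw [← intervalIntegral.integral_const_mul]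
  congr 1
  funext τ; ring

lemma opT_mono (n : ℕ) {F G : ℝ → ℝ} (hF : Continuous F) (hG : Continuous G)
    (h : ∀ t, 0 ≤ t → t ≤ 1 → F t ≤ G t) {w : ℝ} (h0 : 0 ≤ w) (h1 : w ≤ 1) :
    opT n F w ≤ opT n G w := by
  unfold opT
  refine intervalIntegral.integral_mono_on zero_le_one
    (Continuous.intervalIntegrable (by fun_prop) _ _)
    (Continuous.intervalIntegrable (by fun_prop) _ _) fun τ hτ => ?_
  have h2 : 0 ≤ τ * w := mul_nonneg hτ.1 h0
  have h3 : τ * w ≤ 1 := mul_le_one₀ hτ.2 h0 h1
  exact mul_le_mul_of_nonneg_left (h _ h2 h3) (mul_nonneg (by positivity) (pow_nonneg hτ.1 _))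

lemma opT_const (n : ℕ) (c w : ℝ) : opT n (fun _ => c) w = c := by
  unfold opT
  rw [intervalIntegral.integral_mul_const, opT_int, one_mul]

lemma E_lin (g F G : ℝ → ℝ) (hg : Continuous g) (hF : Continuous F) (hG : Continuous G) :
    ∫ t in (0:ℝ)..1, (F t + G t) * g t =
      (∫ t in (0:ℝ)..1, F t * g t) + ∫ t in (0:ℝ)..1, G t * g t := by
  rw [← intervalIntegral.integral_add (Continuous.intervalIntegrable (by fun_prop) _ _)
    (Continuous.intervalIntegrable (by fun_prop) _ _)]
  congr 1
  funext t; ring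

lemma E_sub (g F G : ℝ → ℝ) (hg : Continuous g) (hF : Continuous F) (hG : Continuous G) :
    ∫ t in (0:ℝ)..1, (F t - G t) * g t =
      (∫ t in (0:ℝ)..1, F t * g t) - ∫ t in (0:ℝ)..1, G t * g t := by
  rw [← intervalIntegral.integral_sub (Continuous.intervalIntegrable (by fun_prop) _ _)
    (Continuous.intervalIntegrable (by fun_prop) _ _)]
  congr 1
  funext t; ring

lemma E_close {g F G : ℝ → ℝ} (hg : Continuous g) (hF : Continuous F) (hG : Continuous G)
    (hg0 : ∀ t, 0 ≤ t → t ≤ 1 → 0 ≤ g t) (hg1 : ∫ t in (0:ℝ)..1, g t = 1) {δ : ℝ}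
    (h : ∀ t, 0 ≤ t → t ≤ 1 → |F t - G t| ≤ δ) :
    |(∫ t in (0:ℝ)..1, F t * g t) - ∫ t in (0:ℝ)..1, G t * g t| ≤ δ := by
  rw [← E_sub g F G hg hF hG]
  refine (intervalIntegral.abs_integral_le_integral_abs zero_le_one).trans ?_
  calc ∫ t in (0:ℝ)..1, |(F t - G t) * g t| ≤ ∫ t in (0:ℝ)..1, δ * g t := by
        refine intervalIntegral.integral_mono_on zero_le_one
          (Continuous.intervalIntegrable (((hF.sub hG).mul hg).abs) _ _)
          (Continuous.intervalIntegrable (by fun_prop) _ _) fun t ht => ?_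
        rw [abs_mul, abs_of_nonneg (hg0 t ht.1 ht.2)]
        exact mul_le_mul_of_nonneg_right (h t ht.1 ht.2) (hg0 t ht.1 ht.2)
    _ = δ := by rw [intervalIntegral.integral_const_mul, hg1, mul_one]

/-- **The top step** for a single order statistic. -/
theorem bet_succ {n i : ℕ} (hi : i ≤ n) {F : ℝ → ℝ} (hF : Continuous F) :
    ∫ t in (0:ℝ)..1, F t * bet (n + 1) i t = ∫ t in (0:ℝ)..1, opT n F t * bet n i t := by
  -- polynomials
  have hpoly : ∀ P : Polynomial ℝ, ∫ t in (0:ℝ)..1, P.eval t * bet (n + 1) i t =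
      ∫ t in (0:ℝ)..1, opT n (fun t => P.eval t) t * bet n i t := by
    intro P
    induction P using Polynomial.induction_on' with
    | add P Q hP hQ =>
      have h1 : ∀ t, opT n (fun t => (P + Q).eval t) t =
          opT n (fun t => P.eval t) t + opT n (fun t => Q.eval t) t := by
        intro t
        simp only [Polynomial.eval_add]
        exact opT_add n P.continuous Q.continuous t
      simp only [h1]
      simp only [Polynomial.eval_add]
      rw [E_lin _ _ _ (bet_cont _ _) P.continuous Q.continuous, hP, hQ,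
        E_lin _ _ _ (bet_cont _ _) (opT_cont n P.continuous) (opT_cont n Q.continuous)]
    | monomial k c =>
      simp only [Polynomial.eval_monomial]
      have h1 : ∀ t, opT n (fun t => c * t ^ k) t * bet n i t =
          (c * ((n + 2 : ℝ) / (n + k + 2))) * (t ^ k * bet n i t) := by
        intro t
        rw [opT_const_mul, opT_pow]; ring
      have h2 : ∀ t : ℝ, c * t ^ k * bet (n + 1) i t = c * (t ^ k * bet (n + 1) i t) := by
        intro t; ring
      simp only [h1, h2]
      rw [intervalIntegral.integral_const_mul, intervalIntegral.integral_const_mul,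
        bet_moment (by omega), bet_moment hi]
      have e1 : n + 1 + k + 1 = (n + k + 1) + 1 := by ring
      rw [e1, Nat.factorial_succ (n + k + 1), Nat.factorial_succ (n + 1)]
      have h3 : (i.factorial : ℝ) ≠ 0 := by exact_mod_cast Nat.factorial_ne_zero _
      have h4 : ((n + k + 1).factorial : ℝ) ≠ 0 := by exact_mod_cast Nat.factorial_ne_zero _
      have h5 : (n : ℝ) + k + 2 ≠ 0 := by positivity
      have h6 : (n : ℝ) + k + 1 + 1 ≠ 0 := by positivity
      push_cast
      field_simp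
      ring
  -- approximation
  refine eq_of_forall_dist_le fun δ hδ => ?_
  obtain ⟨P, hP⟩ := exists_polynomial_near_of_continuousOn 0 1 F hF.continuousOn (δ / 2) (by linarith)
  have b1 : |(∫ t in (0:ℝ)..1, F t * bet (n + 1) i t) -
      ∫ t in (0:ℝ)..1, P.eval t * bet (n + 1) i t| ≤ δ / 2 := by
    refine E_close (bet_cont _ _) hF P.continuous (fun t => bet_nonneg) (bet_int (by omega))
      fun t h0 h1 => ?_
    rw [abs_sub_comm]
    exact (hP t ⟨h0, h1⟩).le
  have b2 : |(∫ t in (0:ℝ)..1, opT n F t * bet n i t) -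
      ∫ t in (0:ℝ)..1, opT n (fun t => P.eval t) t * bet n i t| ≤ δ / 2 := by
    refine E_close (bet_cont _ _) (opT_cont n hF) (opT_cont n P.continuous)
      (fun t => bet_nonneg) (bet_int hi) fun t h0 h1 => ?_
    have u1 : opT n F t ≤ opT n (fun t => P.eval t) t + δ / 2 := by
      rw [← opT_const n (δ / 2) t, ← opT_add n P.continuous continuous_const]
      refine opT_mono n hF (P.continuous.add continuous_const) (fun s hs0 hs1 => ?_) h0 h1
      have := abs_lt.1 (hP s ⟨hs0, hs1⟩)
      change F s ≤ P.eval s + δ / 2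
      linarith
    have u2 : opT n (fun t => P.eval t) t ≤ opT n F t + δ / 2 := by
      rw [← opT_const n (δ / 2) t, ← opT_add n hF continuous_const]
      refine opT_mono n P.continuous (hF.add continuous_const) (fun s hs0 hs1 => ?_) h0 h1
      have := abs_lt.1 (hP s ⟨hs0, hs1⟩)
      change P.eval s ≤ F s + δ / 2
      linarith
    rw [abs_le]
    constructor <;> linarith
  rw [Real.dist_eq]
  have h := hpoly P
  rw [abs_le] at *
  constructor <;> linarith [b1.1, b1.2, b2.1, b2.2]

/-- **The bottom step** for a single order statistic. -/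
theorem bet_succ' {n i : ℕ} (hi : i ≤ n) {F : ℝ → ℝ} (hF : Continuous F) :
    ∫ t in (0:ℝ)..1, F t * bet (n + 1) (i + 1) t = ∫ t in (0:ℝ)..1, opB n F t * bet n i t := by
  have r1 : ∫ t in (0:ℝ)..1, F t * bet (n + 1) (i + 1) t =
      ∫ t in (0:ℝ)..1, F (1 - t) * bet (n + 1) (n - i) t := by
    have h := intervalIntegral.integral_comp_sub_left
      (fun t => F t * bet (n + 1) (i + 1) t) (a := 0) (b := 1) 1
    rw [sub_self, sub_zero] at h
    rw [← h]
    congr 1
    funext t
    rw [bet_reflect (by omega)]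
    congr 2
    omega
  have r2 : ∫ t in (0:ℝ)..1, opB n F t * bet n i t =
      ∫ t in (0:ℝ)..1, opT n (fun s => F (1 - s)) t * bet n (n - i) t := by
    have h := intervalIntegral.integral_comp_sub_left
      (fun t => opB n F t * bet n i t) (a := 0) (b := 1) 1
    rw [sub_self, sub_zero] at h
    rw [← h]
    congr 1
    funext t
    rw [bet_reflect hi, opB_eq, sub_sub_cancel]
  rw [r1, r2]
  exact bet_succ (by omega) (hF.comp (continuous_const.sub continuous_id))

end Pool.Agent.Helper73.KS
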