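import Mathlib
import Pool.Agent.Helper73.KS.Bern

/-!
# Log-concave weights: closure and the bound of the maximum by the variance
-/

namespace Pool.Agent.Helper73.KS

open Finset

/-- log-concave without internal zeros -/
def LC (h : ℕ → ℝ) : Prop := ∀ i j, i < j → h i * h (j + 1) ≤ h (i + 1) * h j

/-- weights of a position in a set of `n+1` elements -/
structure Pr (n : ℕ) (h : ℕ → ℝ) : Prop where
  nonneg : ∀ i, 0 ≤ h i
  supp : ∀ i, n < i → h i = 0
  sum : ∑ i ∈ range (n + 1), h i = 1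

/-- effect of an additional incomparable element -/
noncomputable def elev (n : ℕ) (h : ℕ → ℝ) (k : ℕ) : ℝ :=
  ((n + 1 - k : ℝ) / (n + 2)) * h k + ((k : ℝ) / (n + 2)) * h (k - 1)

/-- effect of an additional bottom element -/
def shift (h : ℕ → ℝ) (k : ℕ) : ℝ := if k = 0 then 0 else h (k - 1)

lemma shift_succ (h : ℕ → ℝ) (k : ℕ) : shift h (k + 1) = h k := by simp [shift]

lemma shift_zero (h : ℕ → ℝ) : shift h 0 = 0 := by simp [shift]

lemma LC.gen {h : ℕ → ℝ} (hLC : LC h) (h0 : ∀ i, 0 ≤ h i) :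
    ∀ k i j, i ≤ j → h i * h (j + k) ≤ h (i + k) * h j := by
  intro k
  induction k with
  | zero => intro i j _; simp
  | succ k ih =>
    intro i j hij
    rcases (h0 (i + k)).lt_or_eq with h1 | h1
    · have h2 := ih i j hij
      have h3 : h (i + k) * h (j + k + 1) ≤ h (i + k + 1) * h (j + k) := by
        rcases hij.lt_or_eq with h4 | h4
        · exact hLC _ _ (by omega)
        · rw [h4, mul_comm]
      have h4 : (h i * h (j + (k + 1))) * h (i + k) ≤ (h (i + (k + 1)) * h j) * h (i + k) := by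
        calc (h i * h (j + (k + 1))) * h (i + k) = h i * (h (i + k) * h (j + k + 1)) := by
              rw [← add_assoc]; ring
          _ ≤ h i * (h (i + k + 1) * h (j + k)) := mul_le_mul_of_nonneg_left h3 (h0 _)
          _ = h (i + k + 1) * (h i * h (j + k)) := by ring
          _ ≤ h (i + k + 1) * (h (i + k) * h j) := mul_le_mul_of_nonneg_left h2 (h0 _)
          _ = _ := by rw [← add_assoc]; ring
      exact le_of_mul_le_mul_right h4 h1
    · have h2 := ih i (j + 1) (by omega)
      rw [← h1, zero_mul] at h2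
      have h3 : j + 1 + k = j + (k + 1) := by ring
      rw [h3] at h2
      exact h2.trans (mul_nonneg (h0 _) (h0 _))

lemma Pr.shift {n : ℕ} {h : ℕ → ℝ} (hP : Pr n h) : Pr (n + 1) (shift h) := by
  refine ⟨fun i => ?_, fun i hi => ?_, ?_⟩
  · unfold KS.shift
    split_ifs
    · exact le_rfl
    · exact hP.nonneg _
  · unfold KS.shift
    rw [if_neg (by omega)]
    exact hP.supp _ (by omega)
  · rw [Finset.sum_range_succ', shift_zero, add_zero]
    simp only [shift_succ]
    exact hP.sum

lemma Pr.top {n : ℕ} {h : ℕ → ℝ} (hP : Pr n h) : Pr (n + 1) h := by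
  refine ⟨hP.nonneg, fun i hi => hP.supp i (by omega), ?_⟩
  rw [Finset.sum_range_succ, hP.sum, hP.supp (n + 1) (by omega), add_zero]

lemma sum_elev {n : ℕ} {h : ℕ → ℝ} (hP : Pr n h) (f : ℕ → ℝ) :
    ∑ k ∈ range (n + 2), elev n h k * f k =
      ∑ k ∈ range (n + 1), h k * (((n + 1 - k : ℝ) / (n + 2)) * f k +
        ((k + 1 : ℝ) / (n + 2)) * f (k + 1)) := by
  have h1 : ∀ k, elev n h k * f k = ((n + 1 - k : ℝ) / (n + 2)) * h k * f k +
      ((k : ℝ) / (n + 2)) * h (k - 1) * f k := by
    intro k; unfold elev; ring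
  simp only [h1]
  rw [Finset.sum_add_distrib, Finset.sum_range_succ, hP.supp (n + 1) (by omega)]
  conv_lhs => rw [Finset.sum_range_succ' (fun k : ℕ => ((k : ℝ) / (n + 2)) * h (k - 1) * f k)]
  simp only [Nat.cast_zero, zero_div, zero_mul, mul_zero, add_zero, Nat.add_sub_cancel]
  rw [← Finset.sum_add_distrib]
  refine Finset.sum_congr rfl fun k _ => ?_
  push_cast
  ring

lemma Pr.elev {n : ℕ} {h : ℕ → ℝ} (hP : Pr n h) : Pr (n + 1) (elev n h) := by
  refine ⟨fun i => ?_, fun i hi => ?_, ?_⟩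
  · unfold KS.elev
    rcases le_or_gt i (n + 1) with hi | hi
    · have h1 : (i : ℝ) ≤ n + 1 := by exact_mod_cast hi
      have h2 := hP.nonneg i
      have h3 := hP.nonneg (i - 1)
      have h4 : (0 : ℝ) ≤ n + 1 - i := by linarith
      positivity
    · rw [hP.supp i (by omega), hP.supp (i - 1) (by omega)]
      simp
  · unfold KS.elev
    rw [hP.supp i (by omega), hP.supp (i - 1) (by omega)]
    simp
  · have h1 := sum_elev hP (fun _ => 1)
    simp only [mul_one] at h1
    rw [h1]
    refine Eq.trans (Finset.sum_congr rfl fun k _ => ?_) hP.sum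
    have : (n : ℝ) + 2 ≠ 0 := by positivity
    field_simp
    ring

lemma dens_elev {n : ℕ} {h : ℕ → ℝ} (hP : Pr n h) (t : ℝ) :
    dens (n + 1) (elev n h) t = dens n h t := by
  unfold dens
  rw [sum_elev hP (fun k => bet (n + 1) k t)]
  refine Finset.sum_congr rfl fun k hk => ?_
  congr 1
  exact (bet_split (by have := Finset.mem_range.1 hk; omega) t).symm

lemma LC.shift {n : ℕ} {h : ℕ → ℝ} (hP : Pr n h) (hLC : LC h) : LC (shift h) := by
  intro i j hij
  obtain ⟨j, rfl⟩ : ∃ j', j = j' + 1 := ⟨j - 1, by omega⟩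
  rw [shift_succ, shift_succ]
  rcases Nat.eq_zero_or_pos i with h0 | h0
  · subst h0
    rw [shift_zero, zero_mul, shift_succ]
    exact mul_nonneg (hP.nonneg _) (hP.nonneg _)
  · obtain ⟨i, rfl⟩ : ∃ i', i = i' + 1 := ⟨i - 1, by omega⟩
    rw [shift_succ, shift_succ]
    exact hLC i j (by omega)

lemma lc_key {a b i j x y z p q r : ℝ} (hy : 0 ≤ y) (hz : 0 ≤ z) (hp : 0 ≤ p)
    (hq : 0 ≤ q) (hb : 1 ≤ b) (hi : 0 ≤ i) (hd : 0 < j - i) (hab : a - b = j - i)
    (F1 : y * r ≤ z * q) (F2 : i * (x * q) ≤ i * (y * p)) (F3 : y * q ≤ z * p)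
    (F4 : i * (x * r) ≤ i * (y * q)) :
    (a * y + i * x) * ((b - 1) * r + (j + 1) * q) ≤ ((a - 1) * z + (i + 1) * y) * (b * q + j * p) := by
  have ha : a = b + (j - i) := by linarith
  have hyq : 0 ≤ y * q := mul_nonneg hy hq
  have s0 : 2 * (y * q) ≤ z * q + y * p := by
    by_contra hcon
    push Not at hcon
    have h1 : 0 ≤ z * q + y * p := by positivity
    have h2 : (z * q + y * p) ^ 2 < (2 * (y * q)) ^ 2 := by
      exact pow_lt_pow_left₀ hcon h1 (by norm_num)
    have h3 : (y * q) * (y * q) ≤ (z * p) * (y * q) := mul_le_mul_of_nonneg_right F3 hyq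
    nlinarith [sq_nonneg (z * q - y * p)]
  have s1 : (j - i) * (z * q) ≤ (a - 1) * b * (z * q) - a * (b - 1) * (y * r) := by
    have h1 : 0 ≤ a * (b - 1) * (z * q - y * r) := by
      refine mul_nonneg (mul_nonneg (by linarith) (by linarith)) (by linarith)
    have h2 : (a - 1) * b * (z * q) - a * (b - 1) * (y * r) =
        (a - b) * (z * q) + a * (b - 1) * (z * q - y * r) := by ring
    rw [h2, hab]; linarith
  have s2 : (j - i) * (y * p) ≤ (i + 1) * j * (y * p) - i * (j + 1) * (x * q) := by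
    have h1 : 0 ≤ (j + 1) * (i * (y * p) - i * (x * q)) :=
      mul_nonneg (by linarith) (by linarith)
    have h2 : (i + 1) * j * (y * p) - i * (j + 1) * (x * q) =
        (j - i) * (y * p) + (j + 1) * (i * (y * p) - i * (x * q)) := by ring
    rw [h2]; linarith
  have s3 : -(2 * (j - i)) * (y * q) ≤ (a - 1) * j * (z * p) + (i + 1) * b * (y * q) -
      a * (j + 1) * (y * q) - i * (b - 1) * (x * r) := by
    have h1 : 0 ≤ (a - 1) * j * (z * p - y * q) :=
      mul_nonneg (mul_nonneg (by linarith) (by linarith)) (by linarith)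
    have h2 : 0 ≤ (b - 1) * (i * (y * q) - i * (x * r)) := mul_nonneg (by linarith) (by linarith)
    have h3 : (a - 1) * j * (z * p) + (i + 1) * b * (y * q) -
        a * (j + 1) * (y * q) - i * (b - 1) * (x * r) = (a - 1) * j * (z * p - y * q) +
        (b - 1) * (i * (y * q) - i * (x * r)) + (-j + (b - a) + i) * (y * q) := by ring
    have h4 : (-j + (b - a) + i) = -(2 * (j - i)) := by linarith
    rw [h3, h4]; linarith
  have h5 : ((a - 1) * z + (i + 1) * y) * (b * q + j * p) -
      (a * y + i * x) * ((b - 1) * r + (j + 1) * q) =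
      ((a - 1) * b * (z * q) - a * (b - 1) * (y * r)) +
      ((i + 1) * j * (y * p) - i * (j + 1) * (x * q)) +
      ((a - 1) * j * (z * p) + (i + 1) * b * (y * q) -
      a * (j + 1) * (y * q) - i * (b - 1) * (x * r)) := by ring
  have h6 : 0 ≤ (j - i) * (z * q + y * p - 2 * (y * q)) := mul_nonneg hd.le (by linarith)
  nlinarith

lemma LC.elev {n : ℕ} {h : ℕ → ℝ} (hP : Pr n h) (hLC : LC h) : LC (elev n h) := by
  intro i j hij
  have hP' := hP.elev
  rcases lt_or_ge n j with hj | hj
  · rw [hP'.supp (j + 1) (by omega), mul_zero]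
    exact mul_nonneg (hP'.nonneg _) (hP'.nonneg _)
  obtain ⟨j, rfl⟩ : ∃ j', j = j' + 1 := ⟨j - 1, by omega⟩
  have h0 := hP.nonneg
  have hn2 : (0 : ℝ) < n + 2 := by positivity
  have e : ∀ k, KS.elev n h k = (((n + 1 - k : ℝ)) * h k + (k : ℝ) * h (k - 1)) / (n + 2) := by
    intro k; unfold KS.elev; field_simp
  rw [e, e, e, e, div_mul_div_comm, div_mul_div_comm]
  refine div_le_div_of_nonneg_right ?_ (by positivity)
  have hjn : ((j : ℝ) + 1) ≤ n := by exact_mod_cast hj
  have hijr : (i : ℝ) < j + 1 := by exact_mod_cast hij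
  have key := lc_key (a := (n + 1 - i : ℝ)) (b := (n + 1 - ((j + 1 : ℕ) : ℝ))) (i := (i : ℝ))
    (j := ((j + 1 : ℕ) : ℝ)) (x := h (i - 1)) (y := h i) (z := h (i + 1)) (p := h j)
    (q := h (j + 1)) (r := h (j + 1 + 1)) (h0 _) (h0 _) (h0 _) (h0 _)
    (by push_cast; linarith) (by positivity) (by push_cast; linarith) (by push_cast; ring)
    (hLC i (j + 1) hij) ?_ ?_ ?_
  · simp only [Nat.add_sub_cancel]
    push_cast at key ⊢
    refine le_trans (le_of_eq ?_) (key.trans (le_of_eq ?_)) <;> ring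
  · rcases Nat.eq_zero_or_pos i with hi | hi
    · subst hi; simp
    · refine mul_le_mul_of_nonneg_left ?_ (by positivity)
      have := hLC (i - 1) j (by omega)
      rwa [Nat.sub_add_cancel hi] at this
  · rcases (Nat.lt_succ_iff.1 hij).lt_or_eq with h1 | h1
    · exact hLC i j h1
    · rw [h1, mul_comm]
  · rcases Nat.eq_zero_or_pos i with hi | hi
    · subst hi; simp
    · refine mul_le_mul_of_nonneg_left ?_ (by positivity)
      have := hLC (i - 1) (j + 1) (by omega)
      rwa [Nat.sub_add_cancel hi] at this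


/-- second moment of one side of a log-concave sequence around its maximum -/
lemma tail_bound (g : ℕ → ℝ) (M : ℕ) (h0 : ∀ j, 0 ≤ g j) (hsup : ∀ j, M ≤ j → g j = 0)
    (hmul : ∀ j k, g (j + k) * g 0 ≤ g j * g k) (hmax : ∀ j, g j ≤ g 0) (hpos : 0 < g 0)
    (hsum : ∑ j ∈ range M, g j ≤ 1) : ∑ j ∈ range M, (j : ℝ) ^ 2 * g j ≤ 81 / (g 0) ^ 2 := by
  set H := g 0 with hH
  have hsub : ∀ (L : ℕ) (f : ℕ → ℝ), (∀ j, 0 ≤ f j) → (∀ j, M ≤ j → f j = 0) →
      ∑ j ∈ range L, f j ≤ ∑ j ∈ range M, f j := by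
    intro L f hf0 hf1
    calc ∑ j ∈ range L, f j ≤ ∑ j ∈ range (M + L), f j :=
          Finset.sum_le_sum_of_subset_of_nonneg (Finset.range_subset_range.2 (by omega))
            fun j _ _ => hf0 j
      _ = ∑ j ∈ range M, f j + ∑ j ∈ range L, f (M + j) := Finset.sum_range_add _ _ _
      _ = ∑ j ∈ range M, f j := by
          rw [Finset.sum_eq_zero (s := range L) fun j _ => hf1 _ (by omega), add_zero]
  have hext : ∀ (L : ℕ) (f : ℕ → ℝ), (∀ j, M ≤ j → f j = 0) →
      ∑ j ∈ range M, f j = ∑ j ∈ range (L + M), f j := by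
    intro L f hf1
    rw [add_comm, Finset.sum_range_add, Finset.sum_eq_zero (s := range L)
      fun j _ => hf1 _ (by omega), add_zero]
  have hM : 0 < M := by
    rcases Nat.eq_zero_or_pos M with h | h
    · exfalso
      have := hsup 0 (by omega)
      rw [← hH] at this
      linarith
    · exact h
  have hH1 : H ≤ 1 := by
    refine le_trans ?_ hsum
    have := Finset.single_le_sum (f := g) (fun j _ => h0 j) (Finset.mem_range.2 hM)
    exact this
  set K := ⌈2 / H⌉₊ with hK
  have hK1 : 2 / H ≤ K := Nat.le_ceil _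
  have hK2 : (K : ℝ) ≤ 3 / H := by
    have h1 := Nat.ceil_lt_add_one (show 0 ≤ 2 / H by positivity)
    have h2 : 1 ≤ 1 / H := by rw [le_div_iff₀ hpos]; linarith
    have h3 : 3 / H = 2 / H + 1 / H := by ring
    rw [h3]; linarith
  have hKH : 2 ≤ K * H := by rwa [div_le_iff₀ hpos] at hK1
  -- the value at `K`
  have hgK : g K ≤ H / 2 := by
    by_contra hcon
    push Not at hcon
    have h1 : ∀ j ∈ range (K + 1), H / 2 ≤ g j := by
      intro j hj
      have hj' : j ≤ K := by have := Finset.mem_range.1 hj; omega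
      have h2 := hmul j (K - j)
      rw [Nat.add_sub_cancel' hj'] at h2
      have h3 : g j * g (K - j) ≤ g j * H := mul_le_mul_of_nonneg_left (hmax _) (h0 _)
      have h4 : (H / 2) * H ≤ g j * H := by
        have : (H / 2) * H ≤ g K * H := mul_le_mul_of_nonneg_right hcon.le hpos.le
        linarith
      exact le_of_mul_le_mul_right h4 hpos
    have h2 := Finset.sum_le_sum h1
    rw [Finset.sum_const, card_range, nsmul_eq_mul] at h2
    have h3 := (hsub (K + 1) g h0 hsup).trans hsum
    push_cast at h2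
    nlinarith
  have hhalf : ∀ j, g (K + j) ≤ g j / 2 := by
    intro j
    have h1 := hmul K j
    have h2 : g K * g j ≤ (H / 2) * g j := mul_le_mul_of_nonneg_right hgK (h0 j)
    have h3 : g (K + j) * H ≤ (g j / 2) * H := by linarith
    exact le_of_mul_le_mul_right h3 hpos
  set T := ∑ j ∈ range K, g j with hT
  have hT1 : T ≤ 1 := (hsub K g h0 hsup).trans hsum
  have hT0 : 0 ≤ T := Finset.sum_nonneg fun j _ => h0 j
  set S0 := ∑ j ∈ range M, g j with hS0
  set S1 := ∑ j ∈ range M, (j : ℝ) * g j with hS1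
  set S2 := ∑ j ∈ range M, (j : ℝ) ^ 2 * g j with hS2
  have hKr : (0 : ℝ) ≤ K := by positivity
  have b1 : S1 ≤ K * T + (K * S0 + S1) / 2 := by
    have h1 : S1 = ∑ j ∈ range K, (j : ℝ) * g j + ∑ j ∈ range M, ((K + j : ℕ) : ℝ) * g (K + j) := by
      rw [hS1, hext K (fun j => (j : ℝ) * g j) (fun j hj => by rw [hsup j hj, mul_zero]),
        Finset.sum_range_add]
    have h2 : ∑ j ∈ range K, (j : ℝ) * g j ≤ K * T := by
      rw [hT, Finset.mul_sum]
      refine Finset.sum_le_sum fun j hj => mul_le_mul_of_nonneg_right ?_ (h0 j)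
      exact_mod_cast (Finset.mem_range.1 hj).le
    have h3 : ∑ j ∈ range M, ((K + j : ℕ) : ℝ) * g (K + j) ≤ (K * S0 + S1) / 2 := by
      have h4 : (K * S0 + S1) / 2 = ∑ j ∈ range M, ((K + j : ℕ) : ℝ) * (g j / 2) := by
        rw [hS0, hS1, Finset.mul_sum, ← Finset.sum_add_distrib, Finset.sum_div]
        refine Finset.sum_congr rfl fun j _ => ?_
        push_cast; ring
      rw [h4]
      exact Finset.sum_le_sum fun j _ => mul_le_mul_of_nonneg_left (hhalf j) (by positivity)
    linarith
  have b2 : S2 ≤ K ^ 2 * T + (K ^ 2 * S0 + 2 * K * S1 + S2) / 2 := by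
    have h1 : S2 = ∑ j ∈ range K, (j : ℝ) ^ 2 * g j +
        ∑ j ∈ range M, ((K + j : ℕ) : ℝ) ^ 2 * g (K + j) := by
      rw [hS2, hext K (fun j => (j : ℝ) ^ 2 * g j) (fun j hj => by rw [hsup j hj, mul_zero]),
        Finset.sum_range_add]
    have h2 : ∑ j ∈ range K, (j : ℝ) ^ 2 * g j ≤ K ^ 2 * T := by
      rw [hT, Finset.mul_sum]
      refine Finset.sum_le_sum fun j hj => mul_le_mul_of_nonneg_right ?_ (h0 j)
      refine pow_le_pow_left₀ (by positivity) ?_ 2
      exact_mod_cast (Finset.mem_range.1 hj).le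
    have h3 : ∑ j ∈ range M, ((K + j : ℕ) : ℝ) ^ 2 * g (K + j) ≤
        (K ^ 2 * S0 + 2 * K * S1 + S2) / 2 := by
      have h4 : (K ^ 2 * S0 + 2 * K * S1 + S2) / 2 =
          ∑ j ∈ range M, ((K + j : ℕ) : ℝ) ^ 2 * (g j / 2) := by
        rw [hS0, hS1, hS2, Finset.mul_sum, Finset.mul_sum, ← Finset.sum_add_distrib,
          ← Finset.sum_add_distrib, Finset.sum_div]
        refine Finset.sum_congr rfl fun j _ => ?_
        push_cast; ring
      rw [h4]
      exact Finset.sum_le_sum fun j _ => mul_le_mul_of_nonneg_left (hhalf j) (by positivity)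
    linarith
  have b3 : S1 ≤ 3 * K := by nlinarith
  have b4 : S2 ≤ 9 * K ^ 2 := by
    have h1 : K ^ 2 * T ≤ K ^ 2 * 1 := mul_le_mul_of_nonneg_left hT1 (by positivity)
    have h2 : (K : ℝ) ^ 2 * S0 ≤ K ^ 2 * 1 := mul_le_mul_of_nonneg_left hsum (by positivity)
    have h3 : 2 * (K : ℝ) * S1 ≤ 2 * K * (3 * K) := mul_le_mul_of_nonneg_left b3 (by positivity)
    nlinarith
  calc S2 ≤ 9 * K ^ 2 := b4
    _ ≤ 9 * (3 / H) ^ 2 := by
        have := pow_le_pow_left₀ hKr hK2 2
        linarith
    _ = 81 / H ^ 2 := by rw [div_pow]; ring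

/-- The maximum of log-concave weights is bounded in terms of their variance. -/
theorem max_var {n : ℕ} {h : ℕ → ℝ} (hP : Pr n h) (hLC : LC h) (i : ℕ) :
    (h i) ^ 2 * (∑ j ∈ range (n + 1), h j * ((j : ℝ) + 1) ^ 2 -
      (∑ j ∈ range (n + 1), h j * ((j : ℝ) + 1)) ^ 2) ≤ 162 := by
  obtain ⟨m, hm, hmax⟩ := Finset.exists_max_image (range (n + 1)) h ⟨0, by simp⟩
  have hmn : m ≤ n := by have := Finset.mem_range.1 hm; omega
  have hmax' : ∀ j, h j ≤ h m := by
    intro j
    rcases lt_or_ge n j with hj | hj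
    · rw [hP.supp j hj]; exact hP.nonneg _
    · exact hmax j (Finset.mem_range.2 (by omega))
  have hpos : 0 < h m := by
    rcases (hP.nonneg m).lt_or_eq with h1 | h1
    · exact h1
    · exfalso
      have h2 : ∑ j ∈ range (n + 1), h j ≤ 0 := Finset.sum_nonpos fun j _ => by
        rw [h1]; exact hmax' j
      rw [hP.sum] at h2
      linarith
  have hG := hLC.gen hP.nonneg
  -- second moment around `m`
  have hV : ∑ j ∈ range (n + 1), h j * ((j : ℝ) + 1) ^ 2 -
      (∑ j ∈ range (n + 1), h j * ((j : ℝ) + 1)) ^ 2 ≤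
      ∑ j ∈ range (n + 1), ((j : ℝ) - m) ^ 2 * h j := by
    set A := ∑ j ∈ range (n + 1), h j * ((j : ℝ) + 1) with hA
    have h1 : ∑ j ∈ range (n + 1), ((j : ℝ) - m) ^ 2 * h j =
        ∑ j ∈ range (n + 1), h j * ((j : ℝ) + 1) ^ 2 - 2 * (m + 1) * A + (m + 1) ^ 2 := by
      have h2 : ∀ j : ℕ, ((j : ℝ) - m) ^ 2 * h j = h j * ((j : ℝ) + 1) ^ 2 -
          2 * (m + 1) * (h j * ((j : ℝ) + 1)) + (m + 1) ^ 2 * h j := by intro j; ring
      simp only [h2]
      rw [Finset.sum_add_distrib, Finset.sum_sub_distrib, ← Finset.mul_sum, ← Finset.mul_sum,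
        hP.sum, mul_one]
    rw [h1]
    nlinarith [sq_nonneg (A - (m + 1))]
  have hsplit : ∑ j ∈ range (n + 1), ((j : ℝ) - m) ^ 2 * h j ≤ 162 / (h m) ^ 2 := by
    have e1 : n + 1 = m + (n + 1 - m) := by omega
    rw [e1, Finset.sum_range_add]
    have hR : ∑ x ∈ range (n + 1 - m), (((m + x : ℕ) : ℝ) - m) ^ 2 * h (m + x) ≤ 81 / (h m) ^ 2 := by
      have h1 := tail_bound (fun x => h (m + x)) (n + 1 - m) (fun j => hP.nonneg _)
        (fun j hj => hP.supp _ (by omega)) (fun j k => ?_) (fun j => ?_) hpos ?_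
      · refine le_trans (le_of_eq ?_) h1
        refine Finset.sum_congr rfl fun x _ => ?_
        push_cast; ring
      · have := hG j m (m + k) (by omega)
        simp only [add_zero]
        rw [mul_comm, ← add_assoc]
        have e : m + k + j = m + j + k := by ring
        rw [e] at this
        exact this
      · simp only [add_zero]; exact hmax' _
      · have h2 := hP.sum
        rw [e1, Finset.sum_range_add] at h2
        have h3 : 0 ≤ ∑ x ∈ range m, h x := Finset.sum_nonneg fun j _ => hP.nonneg j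
        linarith
    have hL : ∑ x ∈ range m, ((x : ℝ) - m) ^ 2 * h x ≤ 81 / (h m) ^ 2 := by
      have e2 : ∀ f : ℕ → ℝ, ∑ x ∈ range m, f x + f m = ∑ x ∈ range (m + 1), f (m - x) := by
        intro f
        rw [← Finset.sum_range_succ, ← Finset.sum_range_reflect]
        simp
      have h1 := tail_bound (fun x => if x ≤ m then h (m - x) else 0) (m + 1) (fun j => ?_)
        (fun j hj => ?_) (fun j k => ?_) (fun j => ?_) ?_ ?_
      · have e3 := e2 (fun x => ((x : ℝ) - m) ^ 2 * h x)
        simp only [sub_self] at e3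
        rw [zero_pow two_ne_zero, zero_mul, add_zero] at e3
        rw [e3]
        simp only [Nat.zero_le, if_true, Nat.sub_zero] at h1
        refine le_trans (le_of_eq ?_) h1
        refine Finset.sum_congr rfl fun x hx => ?_
        have hx' : x ≤ m := by have := Finset.mem_range.1 hx; omega
        rw [if_pos hx', Nat.cast_sub hx']
        ring
      · split_ifs
        · exact hP.nonneg _
        · exact le_rfl
      · rw [if_neg (by omega)]
      · simp only [Nat.zero_le, if_true, Nat.sub_zero]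
        by_cases hjk : j + k ≤ m
        · rw [if_pos hjk, if_pos (by omega), if_pos (by omega)]
          have := hG k (m - (j + k)) (m - k) (by omega)
          have e3 : m - (j + k) + k = m - j := by omega
          have e4 : m - k + k = m := by omega
          rw [e3, e4] at this
          exact this
        · rw [if_neg hjk, zero_mul]
          split_ifs <;> first | exact mul_nonneg (hP.nonneg _) (hP.nonneg _) | simp
      · simp only [Nat.zero_le, if_true, Nat.sub_zero]
        split_ifs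
        · exact hmax' _
        · exact hpos.le
      · simp only [Nat.zero_le, if_true, Nat.sub_zero]; exact hpos
      · have h2 : ∑ x ∈ range (m + 1), (if x ≤ m then h (m - x) else 0) =
            ∑ x ∈ range (m + 1), h (m - x) := by
          refine Finset.sum_congr rfl fun x hx => ?_
          rw [if_pos (by have := Finset.mem_range.1 hx; omega)]
        rw [h2, ← e2 h, ← Finset.sum_range_succ, ← hP.sum]
        exact Finset.sum_le_sum_of_subset_of_nonneg (Finset.range_subset_range.2 (by omega))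
          fun j _ _ => hP.nonneg j
    have : (162 : ℝ) / (h m) ^ 2 = 81 / (h m) ^ 2 + 81 / (h m) ^ 2 := by ring
    linarith
  have h1 : (h i) ^ 2 ≤ (h m) ^ 2 := pow_le_pow_left₀ (hP.nonneg _) (hmax' i) 2
  set W := ∑ j ∈ range (n + 1), ((j : ℝ) - m) ^ 2 * h j with hW
  have hW0 : 0 ≤ W := Finset.sum_nonneg fun j _ => mul_nonneg (sq_nonneg _) (hP.nonneg _)
  calc (h i) ^ 2 * _ ≤ (h i) ^ 2 * W := mul_le_mul_of_nonneg_left hV (sq_nonneg _)
    _ ≤ (h m) ^ 2 * W := mul_le_mul_of_nonneg_right h1 hW0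
    _ ≤ (h m) ^ 2 * (162 / (h m) ^ 2) := mul_le_mul_of_nonneg_left hsplit (sq_nonneg _)
    _ = 162 := by
        have : (h m) ^ 2 ≠ 0 := by positivity
        field_simp

end Pool.Agent.Helper73.KS
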