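import Mathlib
import Pool.Agent.Helper73.KS.LC

/-!
# Laws of the elements
-/

namespace Pool.Agent.Helper73.KS

open Finset intervalIntegral

/-- expectation -/
noncomputable def E (n : ℕ) (h : ℕ → ℝ) (F : ℝ → ℝ) : ℝ := ∫ t in (0:ℝ)..1, F t * dens n h t

lemma E_sum (n : ℕ) (h : ℕ → ℝ) {F : ℝ → ℝ} (hF : Continuous F) :
    E n h F = ∑ i ∈ range (n + 1), h i * ∫ t in (0:ℝ)..1, F t * bet n i t := by
  unfold E dens
  have h1 : ∀ t, F t * ∑ i ∈ range (n + 1), h i * bet n i t =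
      ∑ i ∈ range (n + 1), h i * (F t * bet n i t) := by
    intro t; rw [Finset.mul_sum]; exact Finset.sum_congr rfl fun i _ => by ring
  simp only [h1]
  rw [intervalIntegral.integral_finsetSum]
  · exact Finset.sum_congr rfl fun i _ => intervalIntegral.integral_const_mul _ _
  · intro i _
    exact Continuous.intervalIntegrable (by fun_prop) _ _

lemma E_top {n : ℕ} {h : ℕ → ℝ} (hP : Pr n h) {F : ℝ → ℝ} (hF : Continuous F) :
    E (n + 1) h F = E n h (opT n F) := by
  rw [E_sum _ _ hF, E_sum _ _ (opT_cont n hF), Finset.sum_range_succ, hP.supp (n + 1) (by omega),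
    zero_mul, add_zero]
  refine Finset.sum_congr rfl fun i hi => ?_
  rw [bet_succ (by have := Finset.mem_range.1 hi; omega) hF]

lemma E_bot {n : ℕ} {h : ℕ → ℝ} {F : ℝ → ℝ} (hF : Continuous F) :
    E (n + 1) (shift h) F = E n h (opB n F) := by
  rw [E_sum _ _ hF, E_sum _ _ (opB_cont n hF), Finset.sum_range_succ', shift_zero, zero_mul,
    add_zero]
  refine Finset.sum_congr rfl fun i hi => ?_
  rw [shift_succ, bet_succ' (by have := Finset.mem_range.1 hi; omega) hF]

lemma E_elev {n : ℕ} {h : ℕ → ℝ} (hP : Pr n h) (F : ℝ → ℝ) :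
    E (n + 1) (elev n h) F = E n h F := by
  unfold E
  simp only [dens_elev hP]

lemma dens_nonneg {n : ℕ} {h : ℕ → ℝ} (hP : Pr n h) {t : ℝ} (h0 : 0 ≤ t) (h1 : t ≤ 1) :
    0 ≤ dens n h t :=
  Finset.sum_nonneg fun _ _ => mul_nonneg (hP.nonneg _) (bet_nonneg h0 h1)

lemma E_one {n : ℕ} {h : ℕ → ℝ} (hP : Pr n h) : ∫ t in (0:ℝ)..1, dens n h t = 1 := by
  have h1 := E_sum n h (F := fun _ => 1) continuous_const
  unfold E at h1
  simp only [one_mul] at h1
  rw [h1]
  refine Eq.trans (Finset.sum_congr rfl fun i hi => ?_) hP.sum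
  rw [bet_int (by have := Finset.mem_range.1 hi; omega), mul_one]

lemma E_const {n : ℕ} {h : ℕ → ℝ} (hP : Pr n h) (c : ℝ) : E n h (fun _ => c) = c := by
  unfold E
  rw [intervalIntegral.integral_const_mul, E_one hP, mul_one]

lemma E_add {n : ℕ} {h : ℕ → ℝ} {F G : ℝ → ℝ} (hF : Continuous F) (hG : Continuous G) :
    E n h (fun t => F t + G t) = E n h F + E n h G :=
  E_lin _ _ _ (dens_cont _ _) hF hG

lemma E_const_mul {n : ℕ} {h : ℕ → ℝ} (c : ℝ) (F : ℝ → ℝ) :
    E n h (fun t => c * F t) = c * E n h F := by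
  unfold E
  rw [← intervalIntegral.integral_const_mul]
  congr 1
  funext t; ring

lemma E_mono {n : ℕ} {h : ℕ → ℝ} (hP : Pr n h) {F G : ℝ → ℝ} (hF : Continuous F)
    (hG : Continuous G) (hFG : ∀ t, 0 ≤ t → t ≤ 1 → F t ≤ G t) : E n h F ≤ E n h G := by
  unfold E
  refine intervalIntegral.integral_mono_on zero_le_one
    (Continuous.intervalIntegrable (by fun_prop) _ _)
    (Continuous.intervalIntegrable (by fun_prop) _ _) fun t ht => ?_
  exact mul_le_mul_of_nonneg_right (hFG t ht.1 ht.2) (dens_nonneg hP ht.1 ht.2)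

/-- expectation of a quadratic polynomial -/
lemma E_quad {n : ℕ} {h : ℕ → ℝ} (hP : Pr n h) (a b c : ℝ) :
    E n h (fun t => a + b * t + c * t ^ 2) =
      a + b * E n h (fun t => t) + c * E n h (fun t => t ^ 2) := by
  rw [E_add (F := fun t => a + b * t) (by fun_prop) (by fun_prop),
    E_add (F := fun _ => a) (by fun_prop) (by fun_prop), E_const hP, E_const_mul, E_const_mul]

/-- mean -/
noncomputable def mean (n : ℕ) (h : ℕ → ℝ) : ℝ := E n h (fun t => t)

/-- second moment -/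
noncomputable def mom (n : ℕ) (h : ℕ → ℝ) : ℝ := E n h (fun t => t ^ 2)

/-- variance -/
noncomputable def var (n : ℕ) (h : ℕ → ℝ) : ℝ := mom n h - mean n h ^ 2

lemma mean_nonneg {n : ℕ} {h : ℕ → ℝ} (hP : Pr n h) : 0 ≤ mean n h := by
  have h1 := E_mono hP (F := fun _ => 0) (G := fun t => t) (by fun_prop) (by fun_prop)
    fun t ht _ => ht
  rwa [E_const hP] at h1

lemma mean_le_one {n : ℕ} {h : ℕ → ℝ} (hP : Pr n h) : mean n h ≤ 1 := by
  have h1 := E_mono hP (F := fun t => t) (G := fun _ => 1) (by fun_prop) (by fun_prop)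
    fun t _ ht => ht
  rwa [E_const hP] at h1

lemma var_nonneg {n : ℕ} {h : ℕ → ℝ} (hP : Pr n h) : 0 ≤ var n h := by
  have h1 := E_mono hP (F := fun _ => 0)
    (G := fun t => mean n h ^ 2 + (-2 * mean n h) * t + 1 * t ^ 2) (by fun_prop) (by fun_prop)
    fun t _ _ => by nlinarith [sq_nonneg (t - mean n h)]
  rw [E_const hP, E_quad hP] at h1
  unfold var mom
  unfold mean at *
  nlinarith

lemma mean_sum {n : ℕ} {h : ℕ → ℝ} :
    mean n h = (∑ i ∈ range (n + 1), h i * ((i : ℝ) + 1)) / (n + 2) := by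
  unfold mean
  rw [E_sum _ _ continuous_id', Finset.sum_div]
  refine Finset.sum_congr rfl fun i hi => ?_
  have h1 := bet_moment (n := n) (i := i) (by have := Finset.mem_range.1 hi; omega) 1
  simp only [pow_one] at h1
  rw [h1, Nat.factorial_succ i, Nat.factorial_succ (n + 1)]
  have h3 : (i.factorial : ℝ) ≠ 0 := by exact_mod_cast Nat.factorial_ne_zero _
  have h5 : ((n + 1).factorial : ℝ) ≠ 0 := by exact_mod_cast Nat.factorial_ne_zero _
  have h6 : (n : ℝ) + 2 ≠ 0 := by positivity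
  have h7 : (n : ℝ) + 1 + 1 ≠ 0 := by positivity
  push_cast
  field_simp
  ring

lemma mom_sum {n : ℕ} {h : ℕ → ℝ} :
    mom n h = (∑ i ∈ range (n + 1), h i * (((i : ℝ) + 1) * (i + 2))) / ((n + 2) * (n + 3)) := by
  unfold mom
  rw [E_sum _ _ (by fun_prop), Finset.sum_div]
  refine Finset.sum_congr rfl fun i hi => ?_
  have h1 := bet_moment (n := n) (i := i) (by have := Finset.mem_range.1 hi; omega) 2
  rw [h1, Nat.factorial_succ (i + 1), Nat.factorial_succ i]
  have e : n + 2 + 1 = (n + 1 + 1) + 1 := by ring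
  rw [e, Nat.factorial_succ (n + 1 + 1), Nat.factorial_succ (n + 1)]
  have h3 : (i.factorial : ℝ) ≠ 0 := by exact_mod_cast Nat.factorial_ne_zero _
  have h5 : ((n + 1).factorial : ℝ) ≠ 0 := by exact_mod_cast Nat.factorial_ne_zero _
  have h6 : (n : ℝ) + 2 ≠ 0 := by positivity
  have h7 : (n : ℝ) + 1 + 1 ≠ 0 := by positivity
  have h8 : (n : ℝ) + 3 ≠ 0 := by positivity
  have h9 : (n : ℝ) + 1 + 1 + 1 ≠ 0 := by positivity
  push_cast
  field_simp
  ring

/-- one level of the density bound -/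
lemma dens_bound_aux {n : ℕ} {h : ℕ → ℝ} (hP : Pr n h) (hLC : LC h) {t : ℝ} (h0 : 0 ≤ t)
    (h1 : t ≤ 1) : dens n h t ^ 2 * var n h ≤ 162 + dens n h t ^ 2 / (4 * (n + 2)) := by
  set V := ∑ j ∈ range (n + 1), h j * ((j : ℝ) + 1) ^ 2 -
      (∑ j ∈ range (n + 1), h j * ((j : ℝ) + 1)) ^ 2 with hV
  have hn2 : (0 : ℝ) < n + 2 := by positivity
  have hn3 : (0 : ℝ) < n + 3 := by positivity
  have hd0 := dens_nonneg hP h0 h1
  set d := dens n h t with hd
  have hVeq : V = (n + 2) ^ 2 * var n h + (n + 2) * (mom n h - mean n h) := by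
    have e1 : ∑ j ∈ range (n + 1), h j * ((j : ℝ) + 1) = (n + 2) * mean n h := by
      rw [mean_sum]; field_simp
    have e2 : ∑ j ∈ range (n + 1), h j * (((j : ℝ) + 1) * (j + 2)) =
        (n + 2) * (n + 3) * mom n h := by
      rw [mom_sum]; field_simp
    have e3 : ∑ j ∈ range (n + 1), h j * ((j : ℝ) + 1) ^ 2 =
        ∑ j ∈ range (n + 1), h j * (((j : ℝ) + 1) * (j + 2)) -
        ∑ j ∈ range (n + 1), h j * ((j : ℝ) + 1) := by
      rw [← Finset.sum_sub_distrib]
      exact Finset.sum_congr rfl fun j _ => by ring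
    rw [hV, e3, e1, e2]
    unfold var
    ring
  have hmm : -(1 / 4) ≤ mom n h - mean n h := by
    have := var_nonneg hP
    unfold var at this
    nlinarith [sq_nonneg (mean n h - 1 / 2)]
  have hVlow : (n + 2) ^ 2 * var n h - (n + 2) / 4 ≤ V := by
    rw [hVeq]; nlinarith
  -- upper bound for `d`
  have hdV : d ^ 2 * V ≤ 162 * (n + 1) ^ 2 := by
    rcases le_or_gt V 0 with hV0 | hV0
    · have : d ^ 2 * V ≤ 0 := mul_nonpos_of_nonneg_of_nonpos (sq_nonneg _) hV0
      exact this.trans (by positivity)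
    · obtain ⟨m, hm, hmax⟩ := Finset.exists_max_image (range (n + 1)) h ⟨0, by simp⟩
      have h2 : d ≤ h m * (n + 1) := by
        rw [hd, dens, ← sum_bet n t, Finset.mul_sum]
        exact Finset.sum_le_sum fun i hi => mul_le_mul_of_nonneg_right (hmax i hi) (bet_nonneg h0 h1)
      have h3 : d ^ 2 ≤ (h m * (n + 1)) ^ 2 := pow_le_pow_left₀ hd0 h2 2
      calc d ^ 2 * V ≤ (h m * (n + 1)) ^ 2 * V := mul_le_mul_of_nonneg_right h3 hV0.le
        _ = (h m ^ 2 * V) * (n + 1) ^ 2 := by ring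
        _ ≤ 162 * (n + 1) ^ 2 := mul_le_mul_of_nonneg_right (max_var hP hLC m) (by positivity)
  have h4 : d ^ 2 * ((n + 2) ^ 2 * var n h - (n + 2) / 4) ≤ 162 * (n + 2) ^ 2 := by
    refine (mul_le_mul_of_nonneg_left hVlow (sq_nonneg _)).trans (hdV.trans ?_)
    have : ((n : ℝ) + 1) ^ 2 ≤ (n + 2) ^ 2 := pow_le_pow_left₀ (by positivity) (by linarith) 2
    linarith
  have h5 : (d ^ 2 * var n h) * (n + 2) ^ 2 ≤ (162 + d ^ 2 / (4 * (n + 2))) * (n + 2) ^ 2 := by
    have e : (162 + d ^ 2 / (4 * (n + 2))) * (n + 2) ^ 2 =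
        162 * (n + 2) ^ 2 + d ^ 2 * ((n + 2) / 4) := by
      field_simp
    rw [e]
    nlinarith
  exact le_of_mul_le_mul_right h5 (by positivity)

/-- iterated elevation -/
noncomputable def elevN (n : ℕ) (h : ℕ → ℝ) : ℕ → ℕ → ℝ
  | 0 => h
  | k + 1 => elev (n + k) (elevN n h k)

lemma Pr.elevN {n : ℕ} {h : ℕ → ℝ} (hP : Pr n h) (k : ℕ) : Pr (n + k) (elevN n h k) := by
  induction k with
  | zero => exact hP
  | succ k ih => exact ih.elev

lemma LC.elevN {n : ℕ} {h : ℕ → ℝ} (hP : Pr n h) (hLC : LC h) (k : ℕ) : LC (elevN n h k) := by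
  induction k with
  | zero => exact hLC
  | succ k ih => exact ih.elev (hP.elevN k)

lemma dens_elevN {n : ℕ} {h : ℕ → ℝ} (hP : Pr n h) (k : ℕ) :
    dens (n + k) (elevN n h k) = dens n h := by
  induction k with
  | zero => rfl
  | succ k ih =>
    funext t
    have := dens_elev (hP.elevN k) t
    rw [← ih]
    exact this

lemma E_elevN {n : ℕ} {h : ℕ → ℝ} (hP : Pr n h) (k : ℕ) (F : ℝ → ℝ) :
    E (n + k) (elevN n h k) F = E n h F := by
  unfold E
  rw [dens_elevN hP]

/-- **The density is bounded in terms of the standard deviation.** -/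
theorem dens_bound {n : ℕ} {h : ℕ → ℝ} (hP : Pr n h) (hLC : LC h) {t : ℝ} (h0 : 0 ≤ t)
    (h1 : t ≤ 1) : dens n h t ^ 2 * var n h ≤ 162 := by
  have key : ∀ k : ℕ, dens n h t ^ 2 * var n h ≤ 162 + (dens n h t ^ 2 / 4) * (1 / ((k : ℝ) + 1)) := by
    intro k
    have h2 := dens_bound_aux (hP.elevN k) (hLC.elevN hP k) h0 h1
    have h3 : var (n + k) (elevN n h k) = var n h := by
      unfold var mom mean
      rw [E_elevN hP, E_elevN hP]
    rw [h3, dens_elevN hP] at h2
    refine h2.trans ?_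
    have h4 : dens n h t ^ 2 / (4 * (((n + k : ℕ) : ℝ) + 2)) ≤
        (dens n h t ^ 2 / 4) * (1 / ((k : ℝ) + 1)) := by
      rw [div_mul_div_comm, mul_one]
      refine div_le_div_of_nonneg_left (sq_nonneg _) (by positivity) ?_
      push_cast
      nlinarith [show (0 : ℝ) ≤ n by positivity]
    linarith
  have hlim : Filter.Tendsto (fun k : ℕ => 162 + (dens n h t ^ 2 / 4) * (1 / ((k : ℝ) + 1)))
      Filter.atTop (nhds (162 + (dens n h t ^ 2 / 4) * 0)) :=
    (tendsto_one_div_add_atTop_nhds_zero_nat.const_mul _).const_add _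
  rw [mul_zero, add_zero] at hlim
  exact ge_of_tendsto' hlim key


/-- truncation to the unit interval -/
noncomputable def clamp (t : ℝ) : ℝ := max 0 (min t 1)

lemma clamp_mem (t : ℝ) : 0 ≤ clamp t ∧ clamp t ≤ 1 := by
  unfold clamp
  exact ⟨le_max_left _ _, max_le zero_le_one (min_le_right _ _)⟩

lemma clamp_of_mem {t : ℝ} (h0 : 0 ≤ t) (h1 : t ≤ 1) : clamp t = t := by
  unfold clamp
  rw [min_eq_left h1, max_eq_right h0]

lemma clamp_mono {s t : ℝ} (h : s ≤ t) : clamp s ≤ clamp t := by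
  unfold clamp
  exact max_le_max le_rfl (min_le_min h le_rfl)

lemma clamp_sub {s t : ℝ} (h : s ≤ t) : clamp t - clamp s ≤ t - s := by
  have h1 : min t 1 ≤ min s 1 + (t - s) := by
    rcases le_total s 1 with h2 | h2
    · rw [min_eq_left h2]; linarith [min_le_left t 1]
    · rw [min_eq_right h2]; linarith [min_le_right t 1]
  have h2 : clamp t ≤ clamp s + (t - s) := by
    unfold clamp
    refine max_le ?_ ?_
    · linarith [le_max_left 0 (min s 1)]
    · linarith [le_max_right 0 (min s 1)]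
  linarith

@[fun_prop]
lemma clamp_cont : Continuous clamp := by unfold clamp; fun_prop

/-- distribution function -/
noncomputable def cdf (n : ℕ) (h : ℕ → ℝ) (t : ℝ) : ℝ := ∫ s in (0:ℝ)..(clamp t), dens n h s

@[fun_prop]
lemma cdf_cont (n : ℕ) (h : ℕ → ℝ) : Continuous (cdf n h) := by
  unfold cdf
  exact (intervalIntegral.continuous_primitive
    (fun a b => (dens_cont n h).intervalIntegrable a b) 0).comp clamp_cont

lemma cdf_sub {n : ℕ} {h : ℕ → ℝ} (s t : ℝ) :
    cdf n h t - cdf n h s = ∫ u in (clamp s)..(clamp t), dens n h u := by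
  unfold cdf
  rw [intervalIntegral.integral_interval_sub_left] <;>
  exact (dens_cont n h).intervalIntegrable _ _

lemma cdf_mono {n : ℕ} {h : ℕ → ℝ} (hP : Pr n h) {s t : ℝ} (hst : s ≤ t) :
    cdf n h s ≤ cdf n h t := by
  have h1 := cdf_sub (n := n) (h := h) s t
  have h2 : 0 ≤ ∫ u in (clamp s)..(clamp t), dens n h u := by
    refine intervalIntegral.integral_nonneg (clamp_mono hst) fun u hu => ?_
    exact dens_nonneg hP ((clamp_mem s).1.trans hu.1) (hu.2.trans (clamp_mem t).2)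
  linarith

lemma cdf_lip {n : ℕ} {h : ℕ → ℝ} {Λ : ℝ} (hΛ : ∀ u, 0 ≤ u → u ≤ 1 → dens n h u ≤ Λ)
    (hΛ0 : 0 ≤ Λ) {s t : ℝ} (hst : s ≤ t) : cdf n h t - cdf n h s ≤ Λ * (t - s) := by
  rw [cdf_sub]
  calc ∫ u in (clamp s)..(clamp t), dens n h u ≤ ∫ _u in (clamp s)..(clamp t), Λ := by
        refine intervalIntegral.integral_mono_on (clamp_mono hst)
          ((dens_cont n h).intervalIntegrable _ _) (continuous_const.intervalIntegrable _ _)
          fun u hu => hΛ u ((clamp_mem s).1.trans hu.1) (hu.2.trans (clamp_mem t).2)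
    _ = Λ * (clamp t - clamp s) := by rw [intervalIntegral.integral_const, smul_eq_mul]; ring
    _ ≤ Λ * (t - s) := mul_le_mul_of_nonneg_left (clamp_sub hst) hΛ0

lemma cdf_zero {n : ℕ} {h : ℕ → ℝ} {t : ℝ} (ht : t ≤ 0) : cdf n h t = 0 := by
  unfold cdf clamp
  rw [max_eq_left ((min_le_left _ _).trans ht), intervalIntegral.integral_same]

lemma cdf_one {n : ℕ} {h : ℕ → ℝ} (hP : Pr n h) {t : ℝ} (ht : 1 ≤ t) : cdf n h t = 1 := by
  unfold cdf clamp
  rw [min_eq_right ht, max_eq_right zero_le_one, E_one hP]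

lemma cdf_nonneg {n : ℕ} {h : ℕ → ℝ} (hP : Pr n h) (t : ℝ) : 0 ≤ cdf n h t := by
  rcases le_total t 0 with h0 | h0
  · rw [cdf_zero h0]
  · rw [← cdf_zero (n := n) (h := h) le_rfl]; exact cdf_mono hP h0

lemma cdf_le_one {n : ℕ} {h : ℕ → ℝ} (hP : Pr n h) (t : ℝ) : cdf n h t ≤ 1 := by
  rcases le_total t 1 with h0 | h0
  · rw [← cdf_one hP le_rfl]; exact cdf_mono hP h0
  · rw [cdf_one hP h0]

/-- an independent copy is larger with probability one half -/
lemma E_cdf_self {n : ℕ} {h : ℕ → ℝ} (hP : Pr n h) : E n h (cdf n h) = 1 / 2 := by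
  unfold E
  have h1 : ∫ t in (0:ℝ)..1, cdf n h t * dens n h t =
      ∫ t in (0:ℝ)..1, (∫ s in (0:ℝ)..t, dens n h s) * dens n h t := by
    refine intervalIntegral.integral_congr fun t ht => ?_
    rw [Set.uIcc_of_le zero_le_one] at ht
    unfold cdf
    rw [clamp_of_mem ht.1 ht.2]
  rw [h1]
  have hd : ∀ t : ℝ, HasDerivAt (fun t => (∫ s in (0:ℝ)..t, dens n h s) ^ 2 / 2)
      ((∫ s in (0:ℝ)..t, dens n h s) * dens n h t) t := by
    intro t
    have h2 : HasDerivAt (fun t => ∫ s in (0:ℝ)..t, dens n h s) (dens n h t) t :=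
      intervalIntegral.integral_hasDerivAt_right ((dens_cont n h).intervalIntegrable _ _)
        ((dens_cont n h).stronglyMeasurableAtFilter _ _) (dens_cont n h).continuousAt
    have h3 := (h2.pow 2).div_const 2
    refine h3.congr_deriv ?_
    simp
    ring
  rw [intervalIntegral.integral_eq_sub_of_hasDerivAt (fun t _ => hd t)]
  · rw [E_one hP, intervalIntegral.integral_same]
    norm_num
  · refine Continuous.intervalIntegrable ?_ _ _
    exact (intervalIntegral.continuous_primitive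
      (fun a b => (dens_cont n h).intervalIntegrable a b) 0).mul (dens_cont n h)

/-- Chebyshev for a pair of independent elements, first form -/
lemma cheb_up {n m : ℕ} {h g : ℕ → ℝ} (hP : Pr n h) (hQ : Pr m g)
    (hΔ : mean m g < mean n h) :
    1 - E n h (cdf m g) ≤ (var n h + var m g) / (mean n h - mean m g) ^ 2 := by
  set Δ := mean n h - mean m g with hΔdef
  have hΔ0 : 0 < Δ := by linarith
  -- pointwise
  have h1 : ∀ t, 0 ≤ t → t ≤ 1 → 1 - (1 / Δ ^ 2) *
      ((mom m g + 2 * Δ * mean m g + Δ ^ 2) + (-2 * mean m g - 2 * Δ) * t + 1 * t ^ 2) ≤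
      cdf m g t := by
    intro t h0 h1
    have e1 : 1 - cdf m g t = ∫ u in t..1, dens m g u := by
      have e0 := cdf_sub (n := m) (h := g) t 1
      rw [cdf_one hQ le_rfl, clamp_of_mem h0 h1, clamp_of_mem zero_le_one le_rfl] at e0
      exact e0
    have e2 : ∫ u in t..1, dens m g u ≤ ∫ u in t..1, ((u - t + Δ) ^ 2 / Δ ^ 2) * dens m g u := by
      refine intervalIntegral.integral_mono_on h1 ((dens_cont m g).intervalIntegrable _ _)
        (Continuous.intervalIntegrable (by fun_prop) _ _) fun u hu => ?_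
      have h2 : 0 ≤ dens m g u := dens_nonneg hQ (h0.trans hu.1) hu.2
      have h3 : 1 ≤ (u - t + Δ) ^ 2 / Δ ^ 2 := by
        rw [le_div_iff₀ (by positivity), one_mul]
        exact pow_le_pow_left₀ hΔ0.le (by linarith [hu.1]) 2
      calc dens m g u = 1 * dens m g u := (one_mul _).symm
        _ ≤ _ := mul_le_mul_of_nonneg_right h3 h2
    have e3 : ∫ u in t..1, ((u - t + Δ) ^ 2 / Δ ^ 2) * dens m g u ≤
        ∫ u in (0:ℝ)..1, ((u - t + Δ) ^ 2 / Δ ^ 2) * dens m g u := by
      have hc : Continuous fun u => ((u - t + Δ) ^ 2 / Δ ^ 2) * dens m g u := by fun_prop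
      rw [← intervalIntegral.integral_add_adjacent_intervals (hc.intervalIntegrable 0 t)
        (hc.intervalIntegrable t 1)]
      have : 0 ≤ ∫ u in (0:ℝ)..t, ((u - t + Δ) ^ 2 / Δ ^ 2) * dens m g u := by
        refine intervalIntegral.integral_nonneg h0 fun u hu => ?_
        exact mul_nonneg (by positivity) (dens_nonneg hQ hu.1 (hu.2.trans h1))
      linarith
    have e4 : ∫ u in (0:ℝ)..1, ((u - t + Δ) ^ 2 / Δ ^ 2) * dens m g u = (1 / Δ ^ 2) *
        ((mom m g + 2 * Δ * mean m g + Δ ^ 2) + (-2 * mean m g - 2 * Δ) * t + 1 * t ^ 2) := by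
      have e5 : E m g (fun u => (1 / Δ ^ 2) * ((Δ - t) ^ 2 + (2 * (Δ - t)) * u + 1 * u ^ 2)) =
          ∫ u in (0:ℝ)..1, ((u - t + Δ) ^ 2 / Δ ^ 2) * dens m g u := by
        unfold E
        congr 1
        funext u
        ring
      rw [← e5, E_const_mul, E_quad hQ]
      unfold mom mean
      ring
    linarith
  have h2 := E_mono hP (by fun_prop) (cdf_cont m g) h1
  have e : (fun t : ℝ => 1 - (1 / Δ ^ 2) *
      ((mom m g + 2 * Δ * mean m g + Δ ^ 2) + (-2 * mean m g - 2 * Δ) * t + 1 * t ^ 2)) =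
      fun t => (1 - (1 / Δ ^ 2) * (mom m g + 2 * Δ * mean m g + Δ ^ 2)) +
        (-(1 / Δ ^ 2) * (-2 * mean m g - 2 * Δ)) * t + (-(1 / Δ ^ 2)) * t ^ 2 := by
    funext t; ring
  rw [e, E_quad hP] at h2
  change _ + _ * mean n h + _ * mom n h ≤ _ at h2
  have e6 : (var n h + var m g) / Δ ^ 2 = (1 / Δ ^ 2) *
      ((mom m g + 2 * Δ * mean m g + Δ ^ 2) + (-2 * mean m g - 2 * Δ) * mean n h + mom n h) := by
    unfold var
    have e7 : mean n h = mean m g + Δ := by rw [hΔdef]; ring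
    rw [e7]
    ring
  rw [e6]
  linarith

/-- Chebyshev for a pair of independent elements, second form -/
lemma cheb_low {n m : ℕ} {h g : ℕ → ℝ} (hP : Pr n h) (hQ : Pr m g)
    (hΔ : mean n h < mean m g) :
    E n h (cdf m g) ≤ (var n h + var m g) / (mean n h - mean m g) ^ 2 := by
  set Δ := mean m g - mean n h with hΔdef
  have hΔ0 : 0 < Δ := by linarith
  have hsq : (mean n h - mean m g) ^ 2 = Δ ^ 2 := by rw [hΔdef]; ring
  rw [hsq]
  -- pointwise
  have h1 : ∀ t, 0 ≤ t → t ≤ 1 → cdf m g t ≤ (1 / Δ ^ 2) *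
      ((mom m g - 2 * Δ * mean m g + Δ ^ 2) + (-2 * mean m g + 2 * Δ) * t + 1 * t ^ 2) := by
    intro t h0 h1
    have e1 : cdf m g t = ∫ u in (0:ℝ)..t, dens m g u := by
      unfold cdf; rw [clamp_of_mem h0 h1]
    have e2 : ∫ u in (0:ℝ)..t, dens m g u ≤
        ∫ u in (0:ℝ)..t, ((t - u + Δ) ^ 2 / Δ ^ 2) * dens m g u := by
      refine intervalIntegral.integral_mono_on h0 ((dens_cont m g).intervalIntegrable _ _)
        (Continuous.intervalIntegrable (by fun_prop) _ _) fun u hu => ?_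
      have h2 : 0 ≤ dens m g u := dens_nonneg hQ hu.1 (hu.2.trans h1)
      have h3 : 1 ≤ (t - u + Δ) ^ 2 / Δ ^ 2 := by
        rw [le_div_iff₀ (by positivity), one_mul]
        exact pow_le_pow_left₀ hΔ0.le (by linarith [hu.2]) 2
      calc dens m g u = 1 * dens m g u := (one_mul _).symm
        _ ≤ _ := mul_le_mul_of_nonneg_right h3 h2
    have e3 : ∫ u in (0:ℝ)..t, ((t - u + Δ) ^ 2 / Δ ^ 2) * dens m g u ≤
        ∫ u in (0:ℝ)..1, ((t - u + Δ) ^ 2 / Δ ^ 2) * dens m g u := by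
      have hc : Continuous fun u => ((t - u + Δ) ^ 2 / Δ ^ 2) * dens m g u := by fun_prop
      rw [← intervalIntegral.integral_add_adjacent_intervals (hc.intervalIntegrable 0 t)
        (hc.intervalIntegrable t 1)]
      have : 0 ≤ ∫ u in t..1, ((t - u + Δ) ^ 2 / Δ ^ 2) * dens m g u := by
        refine intervalIntegral.integral_nonneg h1 fun u hu => ?_
        exact mul_nonneg (by positivity) (dens_nonneg hQ (h0.trans hu.1) hu.2)
      linarith
    have e4 : ∫ u in (0:ℝ)..1, ((t - u + Δ) ^ 2 / Δ ^ 2) * dens m g u = (1 / Δ ^ 2) *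
        ((mom m g - 2 * Δ * mean m g + Δ ^ 2) + (-2 * mean m g + 2 * Δ) * t + 1 * t ^ 2) := by
      have e5 : E m g (fun u => (1 / Δ ^ 2) * ((Δ + t) ^ 2 + (-2 * (Δ + t)) * u + 1 * u ^ 2)) =
          ∫ u in (0:ℝ)..1, ((t - u + Δ) ^ 2 / Δ ^ 2) * dens m g u := by
        unfold E
        congr 1
        funext u
        ring
      rw [← e5, E_const_mul, E_quad hQ]
      unfold mom mean
      ring
    linarith
  have h2 := E_mono hP (cdf_cont m g) (by fun_prop) h1
  rw [E_const_mul, E_quad hP] at h2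
  change _ ≤ _ * (_ + _ * mean n h + _ * mom n h) at h2
  have e6 : (var n h + var m g) / Δ ^ 2 = (1 / Δ ^ 2) *
      ((mom m g - 2 * Δ * mean m g + Δ ^ 2) + (-2 * mean m g + 2 * Δ) * mean n h +
        1 * mom n h) := by
    unfold var
    have e7 : mean m g = mean n h + Δ := by rw [hΔdef]; ring
    rw [e7]
    ring
  rw [e6]
  exact h2

end Pool.Agent.Helper73.KS
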