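import Mathlib
import Pool.Agent.Helper73.KS.Law

/-!
# Contexts: compositions of elementary steps
-/

namespace Pool.Agent.Helper73.KS

open Finset intervalIntegral

/-- a step: `true` adds a top element, `false` a bottom element, at the given level -/
abbrev Stp := Bool × ℕ

noncomputable def opS (s : Stp) (F : ℝ → ℝ) : ℝ → ℝ := if s.1 then opT s.2 F else opB s.2 F

/-- the operator of a context, outermost step first -/
noncomputable def op : List Stp → (ℝ → ℝ) → (ℝ → ℝ)
  | [], F => F
  | s :: c, F => op c (opS s F)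

lemma opS_cont (s : Stp) {F : ℝ → ℝ} (hF : Continuous F) : Continuous (opS s F) := by
  unfold opS
  split_ifs
  · exact opT_cont _ hF
  · exact opB_cont _ hF

lemma op_cont (c : List Stp) : ∀ {F : ℝ → ℝ}, Continuous F → Continuous (op c F) := by
  induction c with
  | nil => intro F hF; exact hF
  | cons s c ih => intro F hF; exact ih (opS_cont s hF)

lemma op_append (c c' : List Stp) : ∀ F, op (c ++ c') F = op c' (op c F) := by
  induction c with
  | nil => intro F; rfl
  | cons s c ih => intro F; exact ih _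

lemma opS_add (s : Stp) {F G : ℝ → ℝ} (hF : Continuous F) (hG : Continuous G) :
    opS s (fun t => F t + G t) = fun t => opS s F t + opS s G t := by
  unfold opS
  split_ifs
  · funext w; exact opT_add _ hF hG w
  · funext w
    rw [opB_eq, opB_eq, opB_eq]
    exact opT_add _ (hF.comp (continuous_const.sub continuous_id))
      (hG.comp (continuous_const.sub continuous_id)) _

lemma op_add (c : List Stp) : ∀ {F G : ℝ → ℝ}, Continuous F → Continuous G →
    op c (fun t => F t + G t) = fun t => op c F t + op c G t := by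
  induction c with
  | nil => intro F G _ _; rfl
  | cons s c ih =>
    intro F G hF hG
    change op c (opS s fun t => F t + G t) = fun t => op c (opS s F) t + op c (opS s G) t
    rw [opS_add s hF hG, ih (opS_cont s hF) (opS_cont s hG)]

lemma opS_const_mul (s : Stp) (a : ℝ) (F : ℝ → ℝ) :
    opS s (fun t => a * F t) = fun t => a * opS s F t := by
  unfold opS
  split_ifs
  · funext w; exact opT_const_mul _ _ _ w
  · funext w
    rw [opB_eq, opB_eq]
    exact opT_const_mul _ _ _ _

lemma op_const_mul (c : List Stp) (a : ℝ) : ∀ (F : ℝ → ℝ),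
    op c (fun t => a * F t) = fun t => a * op c F t := by
  induction c with
  | nil => intro F; rfl
  | cons s c ih =>
    intro F
    change op c (opS s fun t => a * F t) = fun t => a * op c (opS s F) t
    rw [opS_const_mul s, ih]

lemma opS_const (s : Stp) (a : ℝ) : opS s (fun _ => a) = fun _ => a := by
  unfold opS
  split_ifs
  · funext w; exact opT_const _ _ w
  · funext w
    rw [opB_eq]
    exact opT_const _ _ _

lemma op_const (c : List Stp) (a : ℝ) : op c (fun _ => a) = fun _ => a := by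
  induction c with
  | nil => rfl
  | cons s c ih =>
    change op c (opS s fun _ => a) = _
    rw [opS_const, ih]

lemma opS_mono (s : Stp) {F G : ℝ → ℝ} (hF : Continuous F) (hG : Continuous G)
    (h : ∀ t, 0 ≤ t → t ≤ 1 → F t ≤ G t) : ∀ t, 0 ≤ t → t ≤ 1 → opS s F t ≤ opS s G t := by
  intro t h0 h1
  unfold opS
  split_ifs
  · exact opT_mono _ hF hG h h0 h1
  · rw [opB_eq, opB_eq]
    exact opT_mono (F := fun u => F (1 - u)) (G := fun u => G (1 - u)) _
      (hF.comp (continuous_const.sub continuous_id))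
      (hG.comp (continuous_const.sub continuous_id))
      (fun u hu0 hu1 => h (1 - u) (by linarith) (by linarith)) (by linarith) (by linarith)

lemma op_mono (c : List Stp) : ∀ {F G : ℝ → ℝ}, Continuous F → Continuous G →
    (∀ t, 0 ≤ t → t ≤ 1 → F t ≤ G t) → ∀ t, 0 ≤ t → t ≤ 1 → op c F t ≤ op c G t := by
  induction c with
  | nil => intro F G _ _ h; exact h
  | cons s c ih => intro F G hF hG h; exact ih (opS_cont s hF) (opS_cont s hG) (opS_mono s hF hG h)

lemma opT_nonneg (n : ℕ) {F : ℝ → ℝ} (h : ∀ t, 0 ≤ F t) (w : ℝ) : 0 ≤ opT n F w := by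
  unfold opT
  refine intervalIntegral.integral_nonneg zero_le_one fun τ hτ => ?_
  exact mul_nonneg (mul_nonneg (by positivity) (pow_nonneg hτ.1 _)) (h _)

lemma op_nonneg (c : List Stp) : ∀ {F : ℝ → ℝ}, (∀ t, 0 ≤ F t) → ∀ w, 0 ≤ op c F w := by
  induction c with
  | nil => intro F h; exact h
  | cons s c ih =>
    intro F h
    refine ih fun t => ?_
    unfold opS
    split_ifs
    · exact opT_nonneg _ h t
    · rw [opB_eq]; exact opT_nonneg _ (fun u => h _) _

/-- first moment factor -/
noncomputable def ka (n : ℕ) : ℝ := (n + 2 : ℝ) / (n + 3)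
/-- second moment factor -/
noncomputable def kb (n : ℕ) : ℝ := (n + 2 : ℝ) / (n + 4)

lemma ka_pos (n : ℕ) : 0 < ka n := by unfold ka; positivity
lemma kb_pos (n : ℕ) : 0 < kb n := by unfold kb; positivity
lemma ka_lt_one (n : ℕ) : ka n < 1 := by
  unfold ka; rw [div_lt_one (by positivity)]; linarith
lemma ka_sq_le (n : ℕ) : ka n ^ 2 ≤ kb n := by
  unfold ka kb
  rw [div_pow, div_le_div_iff₀ (by positivity) (by positivity)]
  have : (0 : ℝ) ≤ n := by positivity
  nlinarith [mul_nonneg this this]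
lemma kb_eq (n : ℕ) : kb n = ka n ^ 2 * ((n + 3) ^ 2 / ((n + 2) * (n + 4))) := by
  unfold ka kb; field_simp

/-- length of a context -/
noncomputable def len : List Stp → ℝ
  | [] => 1
  | s :: c => ka s.2 * len c

/-- offset of the mean map -/
noncomputable def off : List Stp → ℝ
  | [] => 0
  | s :: c => if s.1 then ka s.2 * off c else (1 - ka s.2) + ka s.2 * off c

noncomputable def q0 : List Stp → ℝ
  | [] => 0
  | s :: c => if s.1 then kb s.2 * q0 c else
      (1 - 2 * ka s.2 + kb s.2) + (2 * ka s.2 - 2 * kb s.2) * off c + kb s.2 * q0 c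

noncomputable def q1 : List Stp → ℝ
  | [] => 0
  | s :: c => if s.1 then kb s.2 * q1 c else (2 * ka s.2 - 2 * kb s.2) * len c + kb s.2 * q1 c

noncomputable def q2 : List Stp → ℝ
  | [] => 1
  | s :: c => kb s.2 * q2 c

lemma len_pos (c : List Stp) : 0 < len c := by
  induction c with
  | nil => exact one_pos
  | cons s c ih => exact mul_pos (ka_pos _) ih

lemma len_le_one (c : List Stp) : len c ≤ 1 := by
  induction c with
  | nil => exact le_rfl
  | cons s c ih =>
    have := len_pos c
    have h1 := ka_lt_one s.2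
    have h2 := ka_pos s.2
    change ka s.2 * len c ≤ 1
    nlinarith

lemma len_append (c c' : List Stp) : len (c ++ c') = len c * len c' := by
  induction c with
  | nil => simp [len]
  | cons s c ih =>
    change ka s.2 * len (c ++ c') = ka s.2 * len c * len c'
    rw [ih]; ring

lemma opT_id (n : ℕ) : opT n (fun t => t) = fun w => ka n * w := by
  funext w
  have h := opT_pow n 1 w
  simp only [pow_one] at h
  rw [h]
  unfold ka
  congr 2
  push_cast
  ring

lemma opT_sq (n : ℕ) : opT n (fun t => t ^ 2) = fun w => kb n * w ^ 2 := by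
  funext w
  rw [opT_pow]
  unfold kb
  congr 2
  push_cast
  ring

lemma opT_quad (n : ℕ) (a b c w : ℝ) :
    opT n (fun t => a + b * t + c * t ^ 2) w = a + b * (ka n * w) + c * (kb n * w ^ 2) := by
  rw [opT_add n (F := fun t => a + b * t) (by fun_prop) (by fun_prop),
    opT_add n (F := fun _ => a) (by fun_prop) (by fun_prop), opT_const, opT_const_mul,
    opT_const_mul, opT_id, opT_sq]

/-- mean map -/
noncomputable def aff (c : List Stp) (w : ℝ) : ℝ := off c + len c * w

/-- second moment map -/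
noncomputable def sec (c : List Stp) (w : ℝ) : ℝ := q0 c + q1 c * w + q2 c * w ^ 2

lemma op_quad (c : List Stp) : ∀ a b d w : ℝ,
    op c (fun t => a + b * t + d * t ^ 2) w = a + b * aff c w + d * sec c w := by
  induction c with
  | nil =>
    intro a b d w
    simp [op, aff, sec, off, len, q0, q1, q2]
  | cons s c ih =>
    intro a b d w
    change op c (opS s fun t => a + b * t + d * t ^ 2) w = _
    unfold opS
    rcases hs : s.1 with _ | _
    · rw [if_neg (by simp)]
      have e : opB s.2 (fun t => a + b * t + d * t ^ 2) = fun t =>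
          (a + b * (1 - ka s.2) + d * (1 - 2 * ka s.2 + kb s.2)) +
          (b * ka s.2 + d * (2 * ka s.2 - 2 * kb s.2)) * t + (d * kb s.2) * t ^ 2 := by
        funext t
        rw [opB_eq]
        have e2 : (fun t : ℝ => a + b * (1 - t) + d * (1 - t) ^ 2) =
            fun t => (a + b + d) + (-b - 2 * d) * t + d * t ^ 2 := by
          funext t; ring
        rw [e2, opT_quad]
        ring
      rw [e, ih]
      have o1 : off (s :: c) = (1 - ka s.2) + ka s.2 * off c := by simp [off, hs]
      have o2 : q0 (s :: c) = (1 - 2 * ka s.2 + kb s.2) + (2 * ka s.2 - 2 * kb s.2) * off c +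
          kb s.2 * q0 c := by simp [q0, hs]
      have o3 : q1 (s :: c) = (2 * ka s.2 - 2 * kb s.2) * len c + kb s.2 * q1 c := by
        simp [q1, hs]
      have o4 : len (s :: c) = ka s.2 * len c := rfl
      have o5 : q2 (s :: c) = kb s.2 * q2 c := rfl
      unfold aff sec
      rw [o1, o2, o3, o4, o5]
      ring
    · rw [if_pos rfl]
      have e : opT s.2 (fun t => a + b * t + d * t ^ 2) = fun t =>
          a + (b * ka s.2) * t + (d * kb s.2) * t ^ 2 := by
        funext t
        rw [opT_quad]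
        ring
      rw [e, ih]
      have o1 : off (s :: c) = ka s.2 * off c := by simp [off, hs]
      have o2 : q0 (s :: c) = kb s.2 * q0 c := by simp [q0, hs]
      have o3 : q1 (s :: c) = kb s.2 * q1 c := by simp [q1, hs]
      have o4 : len (s :: c) = ka s.2 * len c := rfl
      have o5 : q2 (s :: c) = kb s.2 * q2 c := rfl
      unfold aff sec
      rw [o1, o2, o3, o4, o5]
      ring

lemma op_id (c : List Stp) (w : ℝ) : op c (fun t => t) w = aff c w := by
  have h := op_quad c 0 1 0 w
  simpa using h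

/-- conditional variance -/
noncomputable def vc (c : List Stp) (w : ℝ) : ℝ := sec c w - aff c w ^ 2

lemma vc_nonneg (c : List Stp) (w : ℝ) : 0 ≤ vc c w := by
  have h1 := op_nonneg c (F := fun t => aff c w ^ 2 + (-2 * aff c w) * t + 1 * t ^ 2)
    (fun t => by nlinarith [sq_nonneg (t - aff c w)]) w
  rw [op_quad] at h1
  unfold vc
  nlinarith

lemma len_sq_le (c : List Stp) : len c ^ 2 ≤ q2 c := by
  induction c with
  | nil => simp [len, q2]
  | cons s c ih =>
    change (ka s.2 * len c) ^ 2 ≤ kb s.2 * q2 c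
    rw [mul_pow]
    exact mul_le_mul (ka_sq_le _) ih (sq_nonneg _) (kb_pos _).le

lemma vc_quad (c : List Stp) (w : ℝ) : vc c w = (q0 c - off c ^ 2) +
    (q1 c - 2 * off c * len c) * w + (q2 c - len c ^ 2) * w ^ 2 := by
  unfold vc sec aff; ring

/-- averaged conditional variance -/
noncomputable def Ev (c : List Stp) (n : ℕ) (h : ℕ → ℝ) : ℝ := (q0 c - off c ^ 2) +
    (q1 c - 2 * off c * len c) * mean n h + (q2 c - len c ^ 2) * mom n h

lemma Ev_eq (c : List Stp) (n : ℕ) (h : ℕ → ℝ) :
    Ev c n h = vc c (mean n h) + (q2 c - len c ^ 2) * var n h := by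
  unfold Ev var; rw [vc_quad]; ring

lemma Ev_nonneg {n : ℕ} {h : ℕ → ℝ} (hP : Pr n h) (c : List Stp) : 0 ≤ Ev c n h := by
  rw [Ev_eq]
  exact add_nonneg (vc_nonneg _ _) (mul_nonneg (by linarith [len_sq_le c]) (var_nonneg hP))

lemma E_aff {n : ℕ} {h : ℕ → ℝ} (hP : Pr n h) (c : List Stp) :
    E n h (op c fun t => t) = off c + len c * mean n h := by
  have h1 : op c (fun t => t) = fun w => off c + len c * w + 0 * w ^ 2 := by
    funext w; rw [op_id]; unfold aff; ring
  rw [h1, E_quad hP]
  unfold mean; ring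

lemma E_sec {n : ℕ} {h : ℕ → ℝ} (hP : Pr n h) (c : List Stp) :
    E n h (op c fun t => t ^ 2) = q0 c + q1 c * mean n h + q2 c * mom n h := by
  have h1 : op c (fun t => t ^ 2) = fun w => q0 c + q1 c * w + q2 c * w ^ 2 := by
    funext w
    have := op_quad c 0 0 1 w
    simp only [zero_mul, add_zero, zero_add, one_mul] at this
    rw [this]; rfl
  rw [h1, E_quad hP]
  rfl

/-- variance decomposition -/
lemma var_decomp {n : ℕ} {h : ℕ → ℝ} (hP : Pr n h) (c : List Stp) :
    E n h (op c fun t => t ^ 2) - (E n h (op c fun t => t)) ^ 2 =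
      Ev c n h + len c ^ 2 * var n h := by
  rw [E_aff hP, E_sec hP]
  unfold Ev var
  ring

/-- comparison of the averaged conditional variances of two independent laws -/
lemma Ev_compare {n m : ℕ} {h g : ℕ → ℝ} (hP : Pr n h) (hQ : Pr m g) (c : List Stp) :
    Ev c n h ≤ 2 * Ev c m g +
      2 * (q2 c - len c ^ 2) * (var n h + var m g + (mean n h - mean m g) ^ 2) := by
  have hρ : 0 ≤ q2 c - len c ^ 2 := by linarith [len_sq_le c]
  have h1 := vc_nonneg c (2 * mean m g - mean n h)
  have h2 := var_nonneg hP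
  have h3 := var_nonneg hQ
  rw [vc_quad] at h1
  have h4 : 0 ≤ (q2 c - len c ^ 2) * (var n h + 4 * var m g) := mul_nonneg hρ (by linarith)
  unfold Ev
  have e1 : mom n h = var n h + mean n h ^ 2 := by unfold var; ring
  have e2 : mom m g = var m g + mean m g ^ 2 := by unfold var; ring
  rw [e1, e2]
  nlinarith

/-- approximation of the operator by its mean map on Lipschitz functions -/
lemma op_lip (c : List Stp) {F : ℝ → ℝ} (hF : Continuous F) {K δ : ℝ} (hK : 0 ≤ K) (hδ : 0 < δ)
    (hlip : ∀ s t, |F s - F t| ≤ K * |s - t|) {w : ℝ} (h0 : 0 ≤ w) (h1 : w ≤ 1) :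
    |op c F w - F (aff c w)| ≤ K * (δ / 2 + vc c w / (2 * δ)) := by
  set a := aff c w with ha
  have hpt : ∀ t, |F t - F a| ≤ K * (δ / 2 + (t - a) ^ 2 / (2 * δ)) := by
    intro t
    refine (hlip t a).trans (mul_le_mul_of_nonneg_left ?_ hK)
    have h2 : |t - a| * (2 * δ) ≤ (δ / 2 + (t - a) ^ 2 / (2 * δ)) * (2 * δ) := by
      have h3 : (δ / 2 + (t - a) ^ 2 / (2 * δ)) * (2 * δ) = δ ^ 2 + (t - a) ^ 2 := by
        field_simp
      rw [h3, ← sq_abs (t - a)]
      nlinarith [sq_nonneg (|t - a| - δ)]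
    exact le_of_mul_le_mul_right h2 (by positivity)
  have e1 : K * (δ / 2 + vc c w / (2 * δ)) =
      (K * (δ / 2 + a ^ 2 / (2 * δ))) + (-(K * a / δ)) * aff c w + (K / (2 * δ)) * sec c w := by
    unfold vc
    rw [← ha]
    field_simp
    ring
  rw [abs_le]
  constructor
  · have h2 := op_mono c (F := fun t => (F a - K * (δ / 2 + a ^ 2 / (2 * δ))) + (K * a / δ) * t +
      (-(K / (2 * δ))) * t ^ 2) (by fun_prop) hF (fun t _ _ => ?_) w h0 h1
    · rw [op_quad] at h2
      rw [e1]
      linarith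
    · have h3 := (abs_le.1 (hpt t)).1
      have e2 : K * (δ / 2 + (t - a) ^ 2 / (2 * δ)) = K * (δ / 2 + a ^ 2 / (2 * δ)) - (K * a / δ) * t +
          (K / (2 * δ)) * t ^ 2 := by
        field_simp
        ring
      rw [e2] at h3
      linarith
  · have h2 := op_mono c hF (G := fun t => (F a + K * (δ / 2 + a ^ 2 / (2 * δ))) + (-(K * a / δ)) * t +
      (K / (2 * δ)) * t ^ 2) (by fun_prop) (fun t _ _ => ?_) w h0 h1
    · rw [op_quad] at h2
      rw [e1]
      linarith
    · have h3 := (abs_le.1 (hpt t)).2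
      have e2 : K * (δ / 2 + (t - a) ^ 2 / (2 * δ)) = K * (δ / 2 + a ^ 2 / (2 * δ)) - (K * a / δ) * t +
          (K / (2 * δ)) * t ^ 2 := by
        field_simp
        ring
      rw [e2] at h3
      linarith

/-- averaged version of `op_lip` -/
lemma E_op_lip {n : ℕ} {h : ℕ → ℝ} (hP : Pr n h) (c : List Stp) {F : ℝ → ℝ} (hF : Continuous F)
    {K δ : ℝ} (hK : 0 ≤ K) (hδ : 0 < δ) (hlip : ∀ s t, |F s - F t| ≤ K * |s - t|) :
    |E n h (op c F) - E n h (fun w => F (aff c w))| ≤ K * (δ / 2 + Ev c n h / (2 * δ)) := by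
  have haff : Continuous (aff c) := by unfold aff; fun_prop
  have hFa : Continuous fun w => F (aff c w) := hF.comp haff
  have hoF := op_cont c hF
  have e0 : K * (δ / 2 + Ev c n h / (2 * δ)) =
      E n h (fun w => (K * (δ / 2 + (q0 c - off c ^ 2) / (2 * δ))) +
        (K * (q1 c - 2 * off c * len c) / (2 * δ)) * w +
        (K * (q2 c - len c ^ 2) / (2 * δ)) * w ^ 2) := by
    rw [E_quad hP]
    unfold Ev mean mom
    field_simp
    ring
  have hpt : ∀ w, 0 ≤ w → w ≤ 1 → |op c F w - F (aff c w)| ≤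
      (K * (δ / 2 + (q0 c - off c ^ 2) / (2 * δ))) +
        (K * (q1 c - 2 * off c * len c) / (2 * δ)) * w +
        (K * (q2 c - len c ^ 2) / (2 * δ)) * w ^ 2 := by
    intro w h0 h1
    refine (op_lip c hF hK hδ hlip h0 h1).trans (le_of_eq ?_)
    rw [vc_quad]
    field_simp
    ring
  rw [abs_le]
  constructor
  · have h1 := E_mono hP hFa (G := fun w => op c F w +
      ((K * (δ / 2 + (q0 c - off c ^ 2) / (2 * δ))) +
        (K * (q1 c - 2 * off c * len c) / (2 * δ)) * w +
        (K * (q2 c - len c ^ 2) / (2 * δ)) * w ^ 2)) (by fun_prop)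
      (fun w h0 h1 => by linarith [(abs_le.1 (hpt w h0 h1)).1])
    rw [E_add hoF (by fun_prop), ← e0] at h1
    linarith
  · have h1 := E_mono hP hoF (G := fun w => F (aff c w) +
      ((K * (δ / 2 + (q0 c - off c ^ 2) / (2 * δ))) +
        (K * (q1 c - 2 * off c * len c) / (2 * δ)) * w +
        (K * (q2 c - len c ^ 2) / (2 * δ)) * w ^ 2)) (by fun_prop)
      (fun w h0 h1 => by linarith [(abs_le.1 (hpt w h0 h1)).2])
    rw [E_add hFa (by fun_prop), ← e0] at h1
    linarith

/-- the levels decrease along the context and stay above `n₀` -/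
def Good (n₀ : ℕ) : ℕ → List Stp → Prop
  | N, [] => n₀ ≤ N
  | N, s :: c => s.2 < N ∧ Good n₀ s.2 c

lemma Good.mono {n₀ : ℕ} {c : List Stp} : ∀ {N N' : ℕ}, N ≤ N' → Good n₀ N c → Good n₀ N' c := by
  cases c with
  | nil => intro N N' h hG; exact le_trans hG h
  | cons s c => intro N N' h hG; exact ⟨lt_of_lt_of_le hG.1 h, hG.2⟩

lemma Good.append {n₀ n₁ : ℕ} {c c' : List Stp} (h' : Good n₀ n₁ c') :
    ∀ {N : ℕ}, Good n₁ N c → Good n₀ N (c ++ c') := by
  induction c with
  | nil => intro N h; exact h'.mono h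
  | cons s c ih => intro N h; exact ⟨h.1, ih h.2⟩

lemma Good.le {n₀ : ℕ} {c : List Stp} : ∀ {N : ℕ}, Good n₀ N c → n₀ ≤ N := by
  induction c with
  | nil => intro N h; exact h
  | cons s c ih => intro N h; exact (ih h.2).trans h.1.le

lemma q2_le {n₀ : ℕ} {c : List Stp} : ∀ {N : ℕ}, Good n₀ N c →
    q2 c ≤ len c ^ 2 * (((n₀ + 3 : ℝ) / (n₀ + 2)) * ((N + 2 : ℝ) / (N + 3))) := by
  induction c with
  | nil =>
    intro N h
    change (1 : ℝ) ≤ 1 ^ 2 * _
    rw [one_pow, one_mul, div_mul_div_comm, le_div_iff₀ (by positivity), one_mul]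
    have : (n₀ : ℝ) ≤ N := by exact_mod_cast h
    nlinarith
  | cons s c ih =>
    intro N h
    have h1 := ih h.2
    change kb s.2 * q2 c ≤ (ka s.2 * len c) ^ 2 * _
    have hsN : (s.2 : ℝ) + 1 ≤ N := by exact_mod_cast h.1
    have hs0 : (0 : ℝ) ≤ s.2 := by positivity
    calc kb s.2 * q2 c ≤ kb s.2 * (len c ^ 2 * (((n₀ + 3 : ℝ) / (n₀ + 2)) *
          ((s.2 + 2 : ℝ) / (s.2 + 3)))) := mul_le_mul_of_nonneg_left h1 (kb_pos _).le
      _ = (ka s.2 * len c) ^ 2 * (((n₀ + 3 : ℝ) / (n₀ + 2)) * ((s.2 + 3 : ℝ) / (s.2 + 4))) := by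
          rw [kb_eq]; field_simp
      _ ≤ _ := by
          refine mul_le_mul_of_nonneg_left (mul_le_mul_of_nonneg_left ?_ (by positivity))
            (sq_nonneg _)
          rw [div_le_div_iff₀ (by positivity) (by positivity)]
          nlinarith

lemma rel_var {n₀ N : ℕ} {c : List Stp} (h : Good n₀ N c) :
    q2 c - len c ^ 2 ≤ len c ^ 2 / (n₀ + 2) := by
  have h1 := q2_le h
  have h2 : ((n₀ + 3 : ℝ) / (n₀ + 2)) * ((N + 2 : ℝ) / (N + 3)) ≤ 1 + 1 / (n₀ + 2) := by
    have h3 : ((N + 2 : ℝ) / (N + 3)) ≤ 1 := by rw [div_le_one (by positivity)]; linarith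
    have h4 : ((n₀ + 3 : ℝ) / (n₀ + 2)) = 1 + 1 / (n₀ + 2) := by field_simp; ring
    rw [h4]
    exact mul_le_of_le_one_right (by positivity) h3
  have h3 := mul_le_mul_of_nonneg_left h2 (sq_nonneg (len c))
  have h4 : len c ^ 2 * (1 + 1 / ((n₀ : ℝ) + 2)) = len c ^ 2 + len c ^ 2 / (n₀ + 2) := by ring
  linarith

end Pool.Agent.Helper73.KS
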