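import Mathlib
import Pool.Agent.Helper73.KS.Ctx

/-!
# Monotone functions, blocks of tops and bottoms, stochastic dominance, the base law
-/

namespace Pool.Agent.Helper73.KS

open Finset intervalIntegral

/-- monotone on the unit interval -/
def Mon (F : ℝ → ℝ) : Prop := ∀ s t, 0 ≤ s → s ≤ t → t ≤ 1 → F s ≤ F t

lemma opT_mon (n : ℕ) {F : ℝ → ℝ} (hF : Continuous F) (h : Mon F) : Mon (opT n F) := by
  intro s t h0 hst h1
  unfold opT
  refine intervalIntegral.integral_mono_on zero_le_one
    (Continuous.intervalIntegrable (by fun_prop) _ _)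
    (Continuous.intervalIntegrable (by fun_prop) _ _) fun τ hτ => ?_
  refine mul_le_mul_of_nonneg_left (h _ _ (mul_nonneg hτ.1 h0)
    (mul_le_mul_of_nonneg_left hst hτ.1) (mul_le_one₀ hτ.2 (h0.trans hst) h1))
    (mul_nonneg (by positivity) (pow_nonneg hτ.1 _))

lemma opB_mon (n : ℕ) {F : ℝ → ℝ} (hF : Continuous F) (h : Mon F) : Mon (opB n F) := by
  intro s t h0 hst h1
  unfold opB
  refine intervalIntegral.integral_mono_on zero_le_one
    (Continuous.intervalIntegrable (by fun_prop) _ _)
    (Continuous.intervalIntegrable (by fun_prop) _ _) fun τ hτ => ?_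
  have h2 : τ * (1 - t) ≤ τ * (1 - s) := mul_le_mul_of_nonneg_left (by linarith) hτ.1
  have h3 : 0 ≤ τ * (1 - t) := mul_nonneg hτ.1 (by linarith)
  have h4 : τ * (1 - s) ≤ 1 := mul_le_one₀ hτ.2 (by linarith) (by linarith)
  exact mul_le_mul_of_nonneg_left (h _ _ (by linarith) (by linarith) (by linarith))
    (mul_nonneg (by positivity) (pow_nonneg hτ.1 _))

lemma opS_mon (s : Stp) {F : ℝ → ℝ} (hF : Continuous F) (h : Mon F) : Mon (opS s F) := by
  unfold opS
  split_ifs
  · exact opT_mon _ hF h
  · exact opB_mon _ hF h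

lemma op_mon (c : List Stp) : ∀ {F : ℝ → ℝ}, Continuous F → Mon F → Mon (op c F) := by
  induction c with
  | nil => intro F _ h; exact h
  | cons s c ih => intro F hF h; exact ih (opS_cont s hF) (opS_mon s hF h)

/-- a Lipschitz bound is transported by the length of the context -/
lemma op_diff (c : List Stp) {F : ℝ → ℝ} (hF : Continuous F) {K : ℝ}
    (h : ∀ s t, 0 ≤ s → s ≤ t → t ≤ 1 → F t - F s ≤ K * (t - s)) {s t : ℝ} (h0 : 0 ≤ s)
    (hst : s ≤ t) (h1 : t ≤ 1) :
    op c F t - op c F s ≤ K * len c * (t - s) := by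
  have hG : Mon (fun t => K * t + (-1) * F t) := by
    intro s t h0 hst h1
    have := h s t h0 hst h1
    change K * s + (-1) * F s ≤ K * t + (-1) * F t
    linarith
  have h2 := op_mon c (F := fun t => K * t + (-1) * F t) (by fun_prop) hG s t h0 hst h1
  have e : ∀ w, op c (fun t => K * t + (-1) * F t) w = K * aff c w + (-1) * op c F w := by
    intro w
    have e1 := op_add c (F := fun t => K * t) (G := fun t => (-1) * F t) (by fun_prop) (by fun_prop)
    have e2 := op_const_mul c K (fun t => t)
    have e3 := op_const_mul c (-1) F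
    have e4 := congrFun e1 w
    have e5 := congrFun e2 w
    have e6 := congrFun e3 w
    rw [e4, e5, e6]
    rw [op_id]
  rw [e, e] at h2
  unfold aff at h2
  linarith

/-- `k` tops added at level `n` -/
def ups (n : ℕ) : ℕ → List Stp
  | 0 => []
  | k + 1 => (true, n + k) :: ups n k

/-- `k` bottoms added at level `n` -/
def downs (n : ℕ) : ℕ → List Stp
  | 0 => []
  | k + 1 => (false, n + k) :: downs n k

lemma len_ups (n k : ℕ) : len (ups n k) = (n + 2 : ℝ) / (n + k + 2) := by
  induction k with
  | zero => simp [ups, len]; rw [div_self (by positivity)]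
  | succ k ih =>
    change ka (n + k) * len (ups n k) = _
    rw [ih]
    unfold ka
    push_cast
    field_simp
    ring

lemma len_downs (n k : ℕ) : len (downs n k) = (n + 2 : ℝ) / (n + k + 2) := by
  induction k with
  | zero => simp [downs, len]; rw [div_self (by positivity)]
  | succ k ih =>
    change ka (n + k) * len (downs n k) = _
    rw [ih]
    unfold ka
    push_cast
    field_simp
    ring

lemma good_ups (n k : ℕ) : Good n (n + k) (ups n k) := by
  induction k with
  | zero => exact le_rfl
  | succ k ih => exact ⟨by change n + k < n + (k + 1); omega, ih⟩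

lemma good_downs (n k : ℕ) : Good n (n + k) (downs n k) := by
  induction k with
  | zero => exact le_rfl
  | succ k ih => exact ⟨by change n + k < n + (k + 1); omega, ih⟩

lemma opT_zero (n : ℕ) (F : ℝ → ℝ) : opT n F 0 = F 0 := by
  unfold opT
  simp only [mul_zero]
  rw [intervalIntegral.integral_mul_const, opT_int, one_mul]

lemma opB_one (n : ℕ) (F : ℝ → ℝ) : opB n F 1 = F 1 := by
  unfold opB
  simp only [sub_self, mul_zero, sub_zero]
  rw [intervalIntegral.integral_mul_const, opT_int, one_mul]

lemma ups_zero (n k : ℕ) : ∀ F : ℝ → ℝ, op (ups n k) F 0 = F 0 := by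
  induction k with
  | zero => intro F; rfl
  | succ k ih =>
    intro F
    change op (ups n k) (opS (true, n + k) F) 0 = _
    rw [ih]
    exact opT_zero _ _

lemma downs_one (n k : ℕ) : ∀ F : ℝ → ℝ, op (downs n k) F 1 = F 1 := by
  induction k with
  | zero => intro F; rfl
  | succ k ih =>
    intro F
    change op (downs n k) (opS (false, n + k) F) 1 = _
    rw [ih]
    exact opB_one _ _

lemma ups_one (n k : ℕ) : ∀ {F : ℝ → ℝ}, Continuous F →
    op (ups n (k + 1)) F 1 = ∫ t in (0:ℝ)..1, F t * bet (n + k + 1) (n + 1) t := by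
  induction k with
  | zero =>
    intro F hF
    change opT n F 1 = _
    unfold opT
    refine intervalIntegral.integral_congr fun t _ => ?_
    unfold bet
    simp
    ring
  | succ k ih =>
    intro F hF
    change op (ups n (k + 1)) (opT (n + (k + 1)) F) 1 = _
    rw [ih (opT_cont _ hF)]
    exact (bet_succ (n := n + k + 1) (i := n + 1) (by omega) hF).symm

lemma downs_zero (n k : ℕ) : ∀ {F : ℝ → ℝ}, Continuous F →
    op (downs n (k + 1)) F 0 = ∫ t in (0:ℝ)..1, F t * bet (n + k + 1) k t := by
  induction k with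
  | zero =>
    intro F hF
    change opB n F 0 = _
    unfold opB
    have h := intervalIntegral.integral_comp_sub_left (a := 0) (b := 1)
      (fun t : ℝ => F t * bet (n + 0 + 1) 0 t) 1
    simp only [sub_self, sub_zero] at h
    rw [← h]
    refine intervalIntegral.integral_congr fun t _ => ?_
    unfold bet
    simp
    ring
  | succ k ih =>
    intro F hF
    change op (downs n (k + 1)) (opB (n + (k + 1)) F) 0 = _
    rw [ih (opB_cont _ hF)]
    exact (bet_succ' (n := n + k + 1) (i := k) (by omega) hF).symm

/-- stochastic dominance of order statistics -/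
lemma bet_dom {n i : ℕ} (hi : i + 1 ≤ n) {F : ℝ → ℝ} (hF : Continuous F) (hm : Mon F) :
    ∫ t in (0:ℝ)..1, F t * bet n i t ≤ ∫ t in (0:ℝ)..1, F t * bet n (i + 1) t := by
  set a : ℝ := (i + 1 : ℝ) / (n + 1) with ha
  have hin : (i : ℝ) + 1 ≤ n := by exact_mod_cast hi
  have ha0 : 0 ≤ a := by positivity
  have ha1 : a ≤ 1 := by rw [ha, div_le_one (by positivity)]; linarith
  have key : ∀ t, 0 ≤ t → t ≤ 1 → F a * (bet n (i + 1) t - bet n i t) ≤
      F t * (bet n (i + 1) t - bet n i t) := by
    intro t h0 h1
    have e : bet n (i + 1) t - bet n i t = ((n + 1 : ℝ) * (n.choose i) * t ^ i *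
        (1 - t) ^ (n - (i + 1)) / (i + 1)) * ((n + 1) * (t - a)) := by
      unfold bet
      have h3 : n - i = (n - (i + 1)) + 1 := by omega
      have h4 : ((n.choose (i + 1) : ℕ) : ℝ) * (i + 1) = (n.choose i) * (n - i) := by
        have := Nat.choose_succ_right_eq n i
        have h5 : ((n - i : ℕ) : ℝ) = n - i := by
          rw [Nat.cast_sub (by omega)]
        rw [← h5]
        exact_mod_cast this
      have h6 : ((n.choose (i + 1) : ℕ) : ℝ) = (n.choose i) * (n - i) / (i + 1) := by
        rw [eq_div_iff (by positivity)]; exact h4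
      rw [h3, h6, ha, pow_succ, pow_succ]
      field_simp
      ring
    have hc : 0 ≤ ((n + 1 : ℝ) * (n.choose i) * t ^ i * (1 - t) ^ (n - (i + 1)) / (i + 1)) := by
      have : 0 ≤ 1 - t := by linarith
      positivity
    rcases le_total a t with h2 | h2
    · have h3 := hm a t ha0 h2 h1
      have h4 : 0 ≤ bet n (i + 1) t - bet n i t := by
        rw [e]
        exact mul_nonneg hc (mul_nonneg (by positivity) (by linarith))
      exact mul_le_mul_of_nonneg_right h3 h4
    · have h3 := hm t a h0 h2 ha1
      have h4 : bet n (i + 1) t - bet n i t ≤ 0 := by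
        rw [e]
        exact mul_nonpos_of_nonneg_of_nonpos hc
          (mul_nonpos_of_nonneg_of_nonpos (by positivity) (by linarith))
      exact mul_le_mul_of_nonpos_right h3 h4
  have h1 : ∫ t in (0:ℝ)..1, F a * (bet n (i + 1) t - bet n i t) ≤
      ∫ t in (0:ℝ)..1, F t * (bet n (i + 1) t - bet n i t) :=
    intervalIntegral.integral_mono_on zero_le_one
      (Continuous.intervalIntegrable (by fun_prop) _ _)
      (Continuous.intervalIntegrable (by fun_prop) _ _) fun t ht => key t ht.1 ht.2
  rw [intervalIntegral.integral_const_mul, intervalIntegral.integral_sub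
    (Continuous.intervalIntegrable (by fun_prop) _ _)
    (Continuous.intervalIntegrable (by fun_prop) _ _), bet_int hi, bet_int (by omega), sub_self,
    mul_zero] at h1
  have h2 : ∫ t in (0:ℝ)..1, F t * (bet n (i + 1) t - bet n i t) =
      (∫ t in (0:ℝ)..1, F t * bet n (i + 1) t) - ∫ t in (0:ℝ)..1, F t * bet n i t := by
    rw [← intervalIntegral.integral_sub (Continuous.intervalIntegrable (by fun_prop) _ _)
      (Continuous.intervalIntegrable (by fun_prop) _ _)]
    congr 1
    funext t; ring
  linarith

/-- the key comparison at a series node -/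
lemma ser_dom (m n : ℕ) {F : ℝ → ℝ} (hF : Continuous F) (hm : Mon F) :
    op (downs n (m + 1)) F 0 ≤ op (ups m (n + 1)) F 1 := by
  rw [downs_zero n m hF, ups_one m n hF]
  have e : n + m + 1 = m + n + 1 := by ring
  rw [e]
  exact bet_dom (by omega) hF hm

/-- the law of the element of a one element poset -/
def de (i : ℕ) : ℝ := if i = 0 then 1 else 0

lemma Pr_de : Pr 0 de := by
  refine ⟨fun i => ?_, fun i hi => ?_, ?_⟩
  · unfold de; split_ifs <;> norm_num
  · unfold de; rw [if_neg (by omega)]
  · simp [de]

lemma LC_de : LC de := by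
  intro i j hij
  unfold de
  rw [if_neg (by omega : ¬ (j + 1 = 0)), mul_zero]
  split_ifs <;> norm_num

lemma E_de (F : ℝ → ℝ) : E 0 de F = ∫ t in (0:ℝ)..1, F t := by
  unfold E dens
  simp [de, bet]

lemma mean_de : mean 0 de = 1 / 2 := by
  unfold mean
  rw [E_de]
  simp

lemma mom_de : mom 0 de = 1 / 3 := by
  unfold mom
  rw [E_de, integral_pow]
  norm_num

lemma var_de : var 0 de = 1 / 12 := by
  unfold var
  rw [mean_de, mom_de]
  norm_num

end Pool.Agent.Helper73.KS
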