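import Mathlib
import Pool.Agent.Helper73.KS.Law

/-!
# Series-parallel trees: elements, order, position weights, unbalanced trees
-/

namespace Pool.Agent.Helper73.KS

/-- series-parallel trees -/
inductive SPT : Type
  | leaf : SPT
  | ser : SPT → SPT → SPT
  | par : SPT → SPT → SPT

namespace SPT

/-- number of elements minus one -/
def lv : SPT → ℕ
  | leaf => 0
  | ser A B => lv A + lv B + 1
  | par A B => lv A + lv B + 1

/-- the elements -/
def El : SPT → Type
  | leaf => Unit
  | ser A B => El A ⊕ El B
  | par A B => El A ⊕ El B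

instance instFintypeEl : (T : SPT) → Fintype (El T)
  | leaf => inferInstanceAs (Fintype Unit)
  | ser A B => by
      haveI := instFintypeEl A
      haveI := instFintypeEl B
      exact inferInstanceAs (Fintype (El A ⊕ El B))
  | par A B => by
      haveI := instFintypeEl A
      haveI := instFintypeEl B
      exact inferInstanceAs (Fintype (El A ⊕ El B))

instance instDecEqEl : (T : SPT) → DecidableEq (El T)
  | leaf => inferInstanceAs (DecidableEq Unit)
  | ser A B => by
      haveI := instDecEqEl A
      haveI := instDecEqEl B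
      exact inferInstanceAs (DecidableEq (El A ⊕ El B))
  | par A B => by
      haveI := instDecEqEl A
      haveI := instDecEqEl B
      exact inferInstanceAs (DecidableEq (El A ⊕ El B))

/-- left child elements -/
def sl {A B : SPT} (x : El A) : El (ser A B) := (Sum.inl x : El A ⊕ El B)
/-- right child elements -/
def sr {A B : SPT} (y : El B) : El (ser A B) := (Sum.inr y : El A ⊕ El B)
/-- left child elements -/
def pl {A B : SPT} (x : El A) : El (par A B) := (Sum.inl x : El A ⊕ El B)
/-- right child elements -/
def pr {A B : SPT} (y : El B) : El (par A B) := (Sum.inr y : El A ⊕ El B)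

/-- the partial order: in `ser A B` every element of `A` is below every element of `B`. -/
def le : (T : SPT) → El T → El T → Prop
  | leaf, _, _ => True
  | ser A _, Sum.inl x, Sum.inl y => le A x y
  | ser _ B, Sum.inr x, Sum.inr y => le B x y
  | ser _ _, Sum.inl _, Sum.inr _ => True
  | ser _ _, Sum.inr _, Sum.inl _ => False
  | par A _, Sum.inl x, Sum.inl y => le A x y
  | par _ B, Sum.inr x, Sum.inr y => le B x y
  | par _ _, Sum.inl _, Sum.inr _ => False
  | par _ _, Sum.inr _, Sum.inl _ => False

/-- `k` bottoms added -/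
def shiftN (h : ℕ → ℝ) : ℕ → ℕ → ℝ
  | 0 => h
  | k + 1 => shift (shiftN h k)

/-- position weights of an element: `co T x i` is the probability that `x` is at position `i`
(`0 ≤ i ≤ lv T`) of a random linear extension of `T`. -/
noncomputable def co : (T : SPT) → El T → ℕ → ℝ
  | leaf, _ => fun i => if i = 0 then 1 else 0
  | ser A _, Sum.inl x => co A x
  | ser A B, Sum.inr y => shiftN (co B y) (lv A + 1)
  | par A B, Sum.inl x => elevN (lv A) (co A x) (lv B + 1)
  | par A B, Sum.inr y => elevN (lv B) (co B y) (lv A + 1)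

/-- number of linear extensions -/
noncomputable def ne (T : SPT) : ℕ :=
  Nat.card {σ : El T ≃ Fin (lv T + 1) // ∀ a b, le T a b → σ a ≤ σ b}

/-- number of linear extensions with `x < y` -/
noncomputable def nlt (T : SPT) (x y : El T) : ℕ :=
  Nat.card {σ : El T ≃ Fin (lv T + 1) // (∀ a b, le T a b → σ a ≤ σ b) ∧ σ x < σ y}

/-- probability that `x` is below `y` -/
noncomputable def prob (T : SPT) (x y : El T) : ℝ := (nlt T x y : ℝ) / (ne T : ℝ)

/-- every cross pair of every parallel node has probability at distance `≥ ε` from `1/2`;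
the probability is written through the laws: `P (x < y) = ∫ cdf_x dμ_y`. -/
def Unb (ε : ℝ) : SPT → Prop
  | leaf => True
  | ser A B => Unb ε A ∧ Unb ε B
  | par A B => Unb ε A ∧ Unb ε B ∧
      ∀ (x : El A) (y : El B), ε ≤ |E (lv B) (co B y) (cdf (lv A) (co A x)) - 1 / 2|

/-- every parallel node has at most `N` elements -/
def Blk (N : ℕ) : SPT → Prop
  | leaf => True
  | ser A B => Blk N A ∧ Blk N B
  | par A B => lv A + lv B + 2 ≤ N

end SPT

/-!
## Interface of the link half (files `Link*.lean`, `NFree.lean`)

(A) probabilities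
* `ne_pos (T) : 0 < ne T`
* `prob_cross (x : El A) (y : El B) : prob (par A B) (pl x) (pr y) =
     E (lv B) (co B y) (cdf (lv A) (co A x))`
* `prob (par A B) (pr y) (pl x) = 1 - prob (par A B) (pl x) (pr y)`
* `prob (par A B) (pl x) (pl x') = prob A x x'`, the same for `pr`, `sl`, `sr`.

(B) N-free orders: `IsNFree r := ¬ ∃ a b c d, r a c ∧ r b c ∧ r b d ∧ a ∥ b ∧ c ∥ d ∧ a ∥ d`
where `x ∥ y := ¬ r x y ∧ ¬ r y x`, `r : Fin n → Fin n → Prop`, `IsPoset r` of
`Helper1.BalanceDefs`.
* `exists_spt (hn : 1 ≤ n) : ∃ (T : SPT) (e : Fin n ≃ El T), ∀ a b, r a b ↔ le T (e a) (e b)`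
* `Balance.prob r x y = SPT.prob T (e x) (e y)`
* `balance r < 1 / 2 - ε → Unb ε T`

(C) consequences of `Blk N T`:
* ordinal sum: `∃ f : El T → ℕ, (∀ a b, f a < f b → le T a b) ∧ ∀ i, #{a | f a = i} ≤ max N 1`
* every antichain has at most `max N 1` elements
* `{v | ∃ T, Blk N T ∧ ∃ x y, ¬ le T x y ∧ ¬ le T y x ∧ v = prob T x y}` is finite
  (so that `{balance r | r N-free, balance r < 1 / 2 - ε}` is finite).
-/

end Pool.Agent.Helper73.KS
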