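import Mathlib
import Pool.Agent.Helper73.KS.SPT
import Pool.Agent.Helper73.KS.Mon

/-!
# Laws of the elements of a series-parallel tree, straddling elements, the path lemma
-/

namespace Pool.Agent.Helper73.KS

open Finset intervalIntegral SPT

lemma Pr.topN {n : ℕ} {h : ℕ → ℝ} (hP : Pr n h) (k : ℕ) : Pr (n + k) h := by
  induction k with
  | zero => exact hP
  | succ k ih => exact ih.top

lemma Pr.shiftN {n : ℕ} {h : ℕ → ℝ} (hP : Pr n h) (k : ℕ) : Pr (n + k) (shiftN h k) := by
  induction k with
  | zero => exact hP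
  | succ k ih => exact ih.shift

lemma LC.shiftN {n : ℕ} {h : ℕ → ℝ} (hP : Pr n h) (hLC : LC h) (k : ℕ) : LC (shiftN h k) := by
  induction k with
  | zero => exact hLC
  | succ k ih => exact LC.shift (hP.shiftN k) ih

lemma E_ups {n : ℕ} {h : ℕ → ℝ} (hP : Pr n h) (k : ℕ) : ∀ {F : ℝ → ℝ}, Continuous F →
    E (n + k) h F = E n h (op (ups n k) F) := by
  induction k with
  | zero => intro F _; rfl
  | succ k ih =>
    intro F hF
    have h1 := E_top (hP.topN k) hF
    change E (n + k + 1) h F = E n h (op (ups n k) (opT (n + k) F))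
    rw [h1, ih (opT_cont _ hF)]

lemma E_downs {n : ℕ} {h : ℕ → ℝ} (k : ℕ) : ∀ {F : ℝ → ℝ}, Continuous F →
    E (n + k) (shiftN h k) F = E n h (op (downs n k) F) := by
  induction k with
  | zero => intro F _; rfl
  | succ k ih =>
    intro F hF
    have h1 := E_bot (n := n + k) (h := shiftN h k) hF
    change E (n + k + 1) (shift (shiftN h k)) F = E n h (op (downs n k) (opB (n + k) F))
    rw [h1, ih (opB_cont _ hF)]

lemma co_Pr : ∀ (T : SPT) (x : El T), Pr (lv T) (co T x)
  | leaf, _ => Pr_de
  | ser A B, Sum.inl x => (co_Pr A x).topN (lv B + 1)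
  | ser A B, Sum.inr y => by
      have h := (co_Pr B y).shiftN (lv A + 1)
      have e : lv (ser A B) = lv B + (lv A + 1) := by simp only [lv]; ring
      rw [e]; exact h
  | par A B, Sum.inl x => (co_Pr A x).elevN (lv B + 1)
  | par A B, Sum.inr y => by
      have h := (co_Pr B y).elevN (lv A + 1)
      have e : lv (par A B) = lv B + (lv A + 1) := by simp only [lv]; ring
      rw [e]; exact h

lemma co_LC : ∀ (T : SPT) (x : El T), LC (co T x)
  | leaf, _ => LC_de
  | ser A _, Sum.inl x => co_LC A x
  | ser A B, Sum.inr y => (co_LC B y).shiftN (co_Pr B y) (lv A + 1)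
  | par A B, Sum.inl x => (co_LC A x).elevN (co_Pr A x) (lv B + 1)
  | par A B, Sum.inr y => (co_LC B y).elevN (co_Pr B y) (lv A + 1)

/-- the context of an element -/
def ctx : (T : SPT) → El T → List Stp
  | leaf, _ => []
  | ser A B, Sum.inl x => ups (lv A) (lv B + 1) ++ ctx A x
  | ser A B, Sum.inr y => downs (lv B) (lv A + 1) ++ ctx B y
  | par A _, Sum.inl x => ctx A x
  | par _ B, Sum.inr y => ctx B y

lemma E_sl {A B : SPT} (x : El A) {F : ℝ → ℝ} (hF : Continuous F) :
    E (lv (ser A B)) (co (ser A B) (sl x)) F =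
      E (lv A) (co A x) (op (ups (lv A) (lv B + 1)) F) :=
  E_ups (co_Pr A x) (lv B + 1) hF

lemma E_sr {A B : SPT} (y : El B) {F : ℝ → ℝ} (hF : Continuous F) :
    E (lv (ser A B)) (co (ser A B) (sr y)) F =
      E (lv B) (co B y) (op (downs (lv B) (lv A + 1)) F) := by
  have e : lv (ser A B) = lv B + (lv A + 1) := by simp only [lv]; ring
  rw [e]
  exact E_downs (lv A + 1) hF

lemma E_pl {A B : SPT} (x : El A) (F : ℝ → ℝ) :
    E (lv (par A B)) (co (par A B) (pl x)) F = E (lv A) (co A x) F :=
  E_elevN (co_Pr A x) (lv B + 1) F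

lemma E_pr {A B : SPT} (y : El B) (F : ℝ → ℝ) :
    E (lv (par A B)) (co (par A B) (pr y)) F = E (lv B) (co B y) F := by
  have e : lv (par A B) = lv B + (lv A + 1) := by simp only [lv]; ring
  rw [e]
  exact E_elevN (co_Pr B y) (lv A + 1) F

lemma ctx_sl {A B : SPT} (x : El A) :
    ctx (ser A B) (sl x) = ups (lv A) (lv B + 1) ++ ctx A x := rfl
lemma ctx_sr {A B : SPT} (y : El B) :
    ctx (ser A B) (sr y) = downs (lv B) (lv A + 1) ++ ctx B y := rfl
lemma ctx_pl {A B : SPT} (x : El A) : ctx (par A B) (pl x) = ctx A x := rfl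
lemma ctx_pr {A B : SPT} (y : El B) : ctx (par A B) (pr y) = ctx B y := rfl

/-- case analysis on the elements of a series node -/
lemma ser_cases {A B : SPT} (x : El (ser A B)) : (∃ a, x = sl a) ∨ ∃ b, x = sr b := by
  rcases x with a | b
  · exact Or.inl ⟨a, rfl⟩
  · exact Or.inr ⟨b, rfl⟩

/-- case analysis on the elements of a parallel node -/
lemma par_cases {A B : SPT} (x : El (par A B)) : (∃ a, x = pl a) ∨ ∃ b, x = pr b := by
  rcases x with a | b
  · exact Or.inl ⟨a, rfl⟩
  · exact Or.inr ⟨b, rfl⟩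

lemma E_ctx : ∀ (T : SPT) (x : El T) {F : ℝ → ℝ}, Continuous F →
    E (lv T) (co T x) F = E 0 de (op (ctx T x) F) := by
  intro T
  induction T with
  | leaf => intro x F _; rfl
  | ser A B ihA ihB =>
    intro x F hF
    rcases ser_cases x with ⟨a, rfl⟩ | ⟨b, rfl⟩
    · rw [E_sl a hF, ihA a (op_cont _ hF), ctx_sl, op_append]
    · rw [E_sr b hF, ihB b (op_cont _ hF), ctx_sr, op_append]
  | par A B ihA ihB =>
    intro x F hF
    rcases par_cases x with ⟨a, rfl⟩ | ⟨b, rfl⟩
    · rw [E_pl, ihA a hF, ctx_pl]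
    · rw [E_pr, ihB b hF, ctx_pr]

/-- the variance is at least the variance of a uniform variable of the same length -/
lemma len_le_var (T : SPT) (x : El T) : len (ctx T x) ^ 2 ≤ 12 * var (lv T) (co T x) := by
  have h1 := var_decomp Pr_de (ctx T x)
  rw [← E_ctx T x (by fun_prop), ← E_ctx T x (by fun_prop), var_de] at h1
  have h2 := Ev_nonneg Pr_de (ctx T x)
  change var (lv T) (co T x) = _ at h1
  linarith

lemma var_pos (T : SPT) (x : El T) : 0 < var (lv T) (co T x) := by
  have h1 := len_le_var T x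
  have h2 : 0 < len (ctx T x) ^ 2 := pow_pos (len_pos _) 2
  linarith

/-- `x` straddles the level `1 / 2` of `F` -/
def Str (T : SPT) (F : ℝ → ℝ) (x : El T) : Prop :=
  op (ctx T x) F 0 ≤ 1 / 2 ∧ 1 / 2 ≤ op (ctx T x) F 1

/-- records of the path -/
structure Rec where
  c : List Stp
  n : ℕ
  ny : ℕ
  hy : ℕ → ℝ
  nz : ℕ
  hz : ℕ → ℝ

/-- relation between an outer record `a` and an inner record `b` -/
def Rel (ε : ℝ) (a b : Rec) : Prop :=
  b.n < a.n ∧ ∃ c', b.c = a.c ++ c' ∧ Good b.n a.n c' ∧
    (∀ G : ℝ → ℝ, Continuous G → E a.nz a.hz G = E b.nz b.hz (op c' G)) ∧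
    ε ≤ |E b.ny b.hy (op c' (cdf a.ny a.hy)) - 1 / 2|

/-- a record of the tree `T` along the path to `z` -/
structure OKr (T : SPT) (F : ℝ → ℝ) (z : El T) (a : Rec) : Prop where
  prY : Pr a.ny a.hy
  lcY : LC a.hy
  prZ : Pr a.nz a.hz
  good : Good a.n (lv T) a.c
  lawZ : ∀ G : ℝ → ℝ, Continuous G → E (lv T) (co T z) G = E a.nz a.hz (op a.c G)
  ex : ∃ x : El T, Str T F x ∧
    (∀ G : ℝ → ℝ, Continuous G → E (lv T) (co T x) G = E a.ny a.hy (op a.c G)) ∧
    len (ctx T x) ^ 2 ≤ 12 * (len a.c ^ 2 * var a.ny a.hy)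

/-- pushing a record through a context -/
def Rec.push (d : List Stp) (a : Rec) : Rec := { a with c := d ++ a.c }

lemma Rel.push {ε : ℝ} {a b : Rec} (d : List Stp) (h : Rel ε a b) : Rel ε (a.push d) (b.push d) := by
  obtain ⟨h1, c', h2, h3, h4, h5⟩ := h
  refine ⟨h1, c', ?_, h3, h4, h5⟩
  change d ++ b.c = d ++ a.c ++ c'
  rw [h2, List.append_assoc]

lemma pair_push {ε : ℝ} {L : List Rec} (d : List Stp) (h : L.Pairwise (Rel ε)) :
    (L.map (Rec.push d)).Pairwise (Rel ε) := by
  rw [List.pairwise_map]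
  exact h.imp fun h => h.push d

lemma E_symm {n m : ℕ} {h g : ℕ → ℝ} (hP : Pr n h) (hQ : Pr m g) :
    E n h (cdf m g) + E m g (cdf n h) = 1 := by
  have c1 : E n h (cdf m g) = ∫ t in (0:ℝ)..1, (∫ s in (0:ℝ)..t, dens m g s) * dens n h t := by
    unfold E
    refine intervalIntegral.integral_congr fun t ht => ?_
    rw [Set.uIcc_of_le zero_le_one] at ht
    unfold cdf
    rw [clamp_of_mem ht.1 ht.2]
  have c2 : E m g (cdf n h) = ∫ t in (0:ℝ)..1, (∫ s in (0:ℝ)..t, dens n h s) * dens m g t := by
    unfold E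
    refine intervalIntegral.integral_congr fun t ht => ?_
    rw [Set.uIcc_of_le zero_le_one] at ht
    unfold cdf
    rw [clamp_of_mem ht.1 ht.2]
  have hc1 : Continuous fun t => ∫ s in (0:ℝ)..t, dens m g s :=
    intervalIntegral.continuous_primitive (fun a b => (dens_cont m g).intervalIntegrable a b) 0
  have hc2 : Continuous fun t => ∫ s in (0:ℝ)..t, dens n h s :=
    intervalIntegral.continuous_primitive (fun a b => (dens_cont n h).intervalIntegrable a b) 0
  have i1 : IntervalIntegrable (fun t => (∫ s in (0:ℝ)..t, dens m g s) * dens n h t)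
      MeasureTheory.volume 0 1 := (hc1.mul (dens_cont n h)).intervalIntegrable _ _
  have i2 : IntervalIntegrable (fun t => (∫ s in (0:ℝ)..t, dens n h s) * dens m g t)
      MeasureTheory.volume 0 1 := (hc2.mul (dens_cont m g)).intervalIntegrable _ _
  rw [c1, c2, ← intervalIntegral.integral_add i1 i2]
  have hd : ∀ t : ℝ, HasDerivAt (fun t => (∫ s in (0:ℝ)..t, dens m g s) *
      (∫ s in (0:ℝ)..t, dens n h s))
      ((∫ s in (0:ℝ)..t, dens m g s) * dens n h t + (∫ s in (0:ℝ)..t, dens n h s) * dens m g t)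
      t := by
    intro t
    have h2 : HasDerivAt (fun t => ∫ s in (0:ℝ)..t, dens n h s) (dens n h t) t :=
      intervalIntegral.integral_hasDerivAt_right ((dens_cont n h).intervalIntegrable _ _)
        ((dens_cont n h).stronglyMeasurableAtFilter _ _) (dens_cont n h).continuousAt
    have h3 : HasDerivAt (fun t => ∫ s in (0:ℝ)..t, dens m g s) (dens m g t) t :=
      intervalIntegral.integral_hasDerivAt_right ((dens_cont m g).intervalIntegrable _ _)
        ((dens_cont m g).stronglyMeasurableAtFilter _ _) (dens_cont m g).continuousAt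
    refine (h3.mul h2).congr_deriv ?_
    ring
  rw [intervalIntegral.integral_eq_sub_of_hasDerivAt (fun t _ => hd t)]
  · rw [E_one hP, E_one hQ, intervalIntegral.integral_same]
    norm_num
  · exact Continuous.intervalIntegrable ((hc1.mul (dens_cont n h)).add
      (hc2.mul (dens_cont m g))) _ _

/-- **The path lemma.** -/
theorem path {ε : ℝ} : ∀ (T : SPT) {F : ℝ → ℝ}, Continuous F → Mon F → F 0 ≤ 1 / 2 →
    1 / 2 ≤ F 1 → Unb ε T → ∃ (z : El T) (L : List Rec), Str T F z ∧ L.Pairwise (Rel ε) ∧
      (∀ a ∈ L, OKr T F z a) ∧ ((lv T : ℝ) + 2) * len (ctx T z) ≤ 2 ^ (L.length + 1) := by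
  intro T
  induction T with
  | leaf =>
    intro F hF hm h0 h1 _
    refine ⟨(), [], ⟨h0, h1⟩, List.Pairwise.nil, fun a ha => absurd ha List.not_mem_nil, ?_⟩
    change ((0 : ℕ) + 2 : ℝ) * 1 ≤ 2 ^ (0 + 1)
    norm_num
  | ser A B ihA ihB =>
    intro F hF hm h0 h1 hU
    by_cases hc : 1 / 2 ≤ op (ups (lv A) (lv B + 1)) F 1
    · obtain ⟨z, L, hz, hL, hO, hlen⟩ := ihA (op_cont _ hF) (op_mon _ hF hm)
        (by rw [ups_zero]; exact h0) hc hU.1
      refine ⟨sl z, L.map (Rec.push (ups (lv A) (lv B + 1))), ?_, pair_push _ hL, ?_, ?_⟩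
      · unfold Str
        rw [ctx_sl, op_append]
        exact hz
      · intro a ha
        obtain ⟨b, hb, rfl⟩ := List.mem_map.1 ha
        have hO' := hO b hb
        refine ⟨hO'.prY, hO'.lcY, hO'.prZ, ?_, ?_, ?_⟩
        · exact Good.append hO'.good (good_ups (lv A) (lv B + 1))
        · intro G hG
          rw [E_sl z hG, hO'.lawZ _ (op_cont _ hG)]
          change _ = E b.nz b.hz (op (_ ++ b.c) G)
          rw [op_append]
        · obtain ⟨x, hx1, hx2, hx3⟩ := hO'.ex
          refine ⟨sl x, ?_, ?_, ?_⟩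
          · unfold Str
            rw [ctx_sl, op_append]
            exact hx1
          · intro G hG
            rw [E_sl x hG, hx2 _ (op_cont _ hG)]
            change _ = E b.ny b.hy (op (_ ++ b.c) G)
            rw [op_append]
          · rw [ctx_sl, len_append]
            change _ ≤ 12 * (len (_ ++ b.c) ^ 2 * var b.ny b.hy)
            rw [len_append]
            have h3 : 0 ≤ len (ups (lv A) (lv B + 1)) ^ 2 := sq_nonneg _
            nlinarith [mul_le_mul_of_nonneg_left hx3 h3]
      · rw [ctx_sl, len_append, List.length_map, len_ups]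
        refine le_trans (le_of_eq ?_) hlen
        simp only [lv]
        push_cast
        field_simp
        ring
    · push Not at hc
      have h2 := ser_dom (lv A) (lv B) hF hm
      obtain ⟨z, L, hz, hL, hO, hlen⟩ := ihB (op_cont (downs (lv B) (lv A + 1)) hF)
        (op_mon _ hF hm) (by linarith) (by rw [downs_one]; exact h1) hU.2
      refine ⟨sr z, L.map (Rec.push (downs (lv B) (lv A + 1))), ?_, pair_push _ hL, ?_, ?_⟩
      · unfold Str
        rw [ctx_sr, op_append]
        exact hz
      · intro a ha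
        obtain ⟨b, hb, rfl⟩ := List.mem_map.1 ha
        have hO' := hO b hb
        refine ⟨hO'.prY, hO'.lcY, hO'.prZ, ?_, ?_, ?_⟩
        · have e : lv (ser A B) = lv B + (lv A + 1) := by simp only [lv]; ring
          rw [e]
          exact Good.append hO'.good (good_downs (lv B) (lv A + 1))
        · intro G hG
          rw [E_sr z hG, hO'.lawZ _ (op_cont _ hG)]
          change _ = E b.nz b.hz (op (_ ++ b.c) G)
          rw [op_append]
        · obtain ⟨x, hx1, hx2, hx3⟩ := hO'.ex
          refine ⟨sr x, ?_, ?_, ?_⟩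
          · unfold Str
            rw [ctx_sr, op_append]
            exact hx1
          · intro G hG
            rw [E_sr x hG, hx2 _ (op_cont _ hG)]
            change _ = E b.ny b.hy (op (_ ++ b.c) G)
            rw [op_append]
          · rw [ctx_sr, len_append]
            change _ ≤ 12 * (len (_ ++ b.c) ^ 2 * var b.ny b.hy)
            rw [len_append]
            have h3 : 0 ≤ len (downs (lv B) (lv A + 1)) ^ 2 := sq_nonneg _
            nlinarith [mul_le_mul_of_nonneg_left hx3 h3]
      · rw [ctx_sr, len_append, List.length_map, len_downs]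
        refine le_trans (le_of_eq ?_) hlen
        simp only [lv]
        push_cast
        field_simp
        ring
  | par A B ihA ihB =>
    intro F hF hm h0 h1 hU
    obtain ⟨hUA, hUB, hcross⟩ := hU
    obtain ⟨zA, LA, hzA, hLA, hOA, hlenA⟩ := ihA hF hm h0 h1 hUA
    obtain ⟨zB, LB, hzB, hLB, hOB, hlenB⟩ := ihB hF hm h0 h1 hUB
    rcases le_total (lv B) (lv A) with hAB | hAB
    · refine ⟨pl zA, ⟨[], lv (par A B), lv B, co B zB, lv A, co A zA⟩ :: LA, hzA, ?_, ?_, ?_⟩
      · rw [List.pairwise_cons]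
        refine ⟨fun b hb => ?_, hLA⟩
        have hO := hOA b hb
        have hn := hO.good.le
        refine ⟨?_, b.c, rfl, ?_, ?_, ?_⟩
        · change b.n < lv A + lv B + 1
          omega
        · exact hO.good.mono (by simp only [lv]; omega)
        · intro G hG
          exact hO.lawZ G hG
        · obtain ⟨x, hx1, hx2, hx3⟩ := hO.ex
          change ε ≤ |E b.ny b.hy (op b.c (cdf (lv B) (co B zB))) - 1 / 2|
          rw [← hx2 _ (cdf_cont _ _)]
          have h3 := hcross x zB
          have h4 := E_symm (co_Pr A x) (co_Pr B zB)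
          have h5 : E (lv A) (co A x) (cdf (lv B) (co B zB)) - 1 / 2 =
            -(E (lv B) (co B zB) (cdf (lv A) (co A x)) - 1 / 2) := by linarith
          rw [h5, abs_neg]
          exact h3
      · intro a ha
        rcases List.mem_cons.1 ha with rfl | ha
        · refine ⟨co_Pr B zB, co_LC B zB, co_Pr A zA, le_rfl, fun G _ => E_pl zA G, pr zB, hzB,
            fun G _ => E_pr zB G, ?_⟩
          change len (ctx B zB) ^ 2 ≤ 12 * (1 ^ 2 * var (lv B) (co B zB))
          rw [one_pow, one_mul]
          exact len_le_var B zB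
        · have hO := hOA a ha
          refine ⟨hO.prY, hO.lcY, hO.prZ, hO.good.mono (by simp only [lv]; omega), ?_, ?_⟩
          · intro G hG
            rw [E_pl]
            exact hO.lawZ G hG
          · obtain ⟨x, hx1, hx2, hx3⟩ := hO.ex
            refine ⟨pl x, hx1, fun G hG => ?_, hx3⟩
            rw [E_pl]
            exact hx2 G hG
      · rw [ctx_pl, List.length_cons, pow_succ]
        have h3 : ((lv (par A B) : ℕ) : ℝ) + 2 ≤ 2 * ((lv A : ℝ) + 2) := by
          simp only [lv]
          push_cast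
          have : (lv B : ℝ) ≤ lv A := by exact_mod_cast hAB
          linarith
        have h4 := mul_le_mul_of_nonneg_right h3 (len_pos (ctx A zA)).le
        linarith
    · refine ⟨pr zB, ⟨[], lv (par A B), lv A, co A zA, lv B, co B zB⟩ :: LB, hzB, ?_, ?_, ?_⟩
      · rw [List.pairwise_cons]
        refine ⟨fun b hb => ?_, hLB⟩
        have hO := hOB b hb
        have hn := hO.good.le
        refine ⟨?_, b.c, rfl, ?_, ?_, ?_⟩
        · change b.n < lv A + lv B + 1
          omega
        · exact hO.good.mono (by simp only [lv]; omega)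
        · intro G hG
          exact hO.lawZ G hG
        · obtain ⟨x, hx1, hx2, hx3⟩ := hO.ex
          change ε ≤ |E b.ny b.hy (op b.c (cdf (lv A) (co A zA))) - 1 / 2|
          rw [← hx2 _ (cdf_cont _ _)]
          exact hcross zA x
      · intro a ha
        rcases List.mem_cons.1 ha with rfl | ha
        · refine ⟨co_Pr A zA, co_LC A zA, co_Pr B zB, le_rfl, fun G _ => E_pr zB G, pl zA, hzA,
            fun G _ => E_pl zA G, ?_⟩
          change len (ctx A zA) ^ 2 ≤ 12 * (1 ^ 2 * var (lv A) (co A zA))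
          rw [one_pow, one_mul]
          exact len_le_var A zA
        · have hO := hOB a ha
          refine ⟨hO.prY, hO.lcY, hO.prZ, hO.good.mono (by simp only [lv]; omega), ?_, ?_⟩
          · intro G hG
            rw [E_pr]
            exact hO.lawZ G hG
          · obtain ⟨x, hx1, hx2, hx3⟩ := hO.ex
            refine ⟨pr x, hx1, fun G hG => ?_, hx3⟩
            rw [E_pr]
            exact hx2 G hG
      · rw [ctx_pr, List.length_cons, pow_succ]
        have h3 : ((lv (par A B) : ℕ) : ℝ) + 2 ≤ 2 * ((lv B : ℝ) + 2) := by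
          simp only [lv]
          push_cast
          have : (lv A : ℝ) ≤ lv B := by exact_mod_cast hAB
          linarith
        have h4 := mul_le_mul_of_nonneg_right h3 (len_pos (ctx B zB)).le
        linarith

end Pool.Agent.Helper73.KS
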