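import Mathlib
import Pool.Agent.Helper73.KS.Tree

/-!
# The pigeonhole along the spine
-/

namespace Pool.Agent.Helper73.KS

open Finset intervalIntegral SPT

/-- pigeonhole in a box -/
lemma box_pigeon (d : ℕ) (B η : ℝ) (hη : 0 < η) : ∃ N : ℕ, ∀ M : ℕ, N < M →
    ∀ v : Fin M → (Fin d → ℝ), (∀ i j, 0 ≤ v i j ∧ v i j ≤ B) →
      ∃ i j : Fin M, i < j ∧ ∀ k, |v i k - v j k| < η := by
  have hK : IsCompact (Set.pi Set.univ (fun _ : Fin d => Set.Icc (0:ℝ) B)) :=
    isCompact_univ_pi fun _ => isCompact_Icc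
  obtain ⟨t, _, htf, hcov⟩ := hK.finite_cover_balls (half_pos hη)
  refine ⟨htf.toFinset.card, fun M hM v hv => ?_⟩
  have hc : ∀ i : Fin M, ∃ x ∈ htf.toFinset, dist (v i) x < η / 2 := by
    intro i
    have h1 : v i ∈ Set.pi Set.univ (fun _ : Fin d => Set.Icc (0:ℝ) B) := fun j _ => hv i j
    have h2 := hcov h1
    simp only [Set.mem_iUnion, Metric.mem_ball] at h2
    obtain ⟨x, hx, hd⟩ := h2
    exact ⟨x, htf.mem_toFinset.2 hx, hd⟩
  choose f hf hfd using hc
  obtain ⟨i, _, j, _, hij, hfij⟩ := Finset.exists_ne_map_eq_of_card_lt_of_maps_to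
    (s := (Finset.univ : Finset (Fin M))) (t := htf.toFinset) (f := f)
    (by rw [Finset.card_univ, Fintype.card_fin]; exact hM) (fun i _ => hf i)
  have hd : dist (v i) (v j) < η := by
    calc dist (v i) (v j) ≤ dist (v i) (f i) + dist (f i) (v j) := dist_triangle _ _ _
      _ < η / 2 + η / 2 := by
          refine add_lt_add (hfd i) ?_
          rw [hfij, dist_comm]
          exact hfd j
      _ = η := by ring
  have hcoord : ∀ k, |v i k - v j k| < η := by
    intro k
    rw [← Real.dist_eq]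
    exact lt_of_le_of_lt (dist_le_pi_dist _ _ k) hd
  rcases lt_or_gt_of_ne hij with h | h
  · exact ⟨i, j, h, hcoord⟩
  · refine ⟨j, i, h, fun k => ?_⟩
    rw [abs_sub_comm]
    exact hcoord k

lemma cdf_tail_low {n : ℕ} {h : ℕ → ℝ} (hP : Pr n h) {t D : ℝ} (hD : 0 < D)
    (ht : t + D ≤ mean n h) : cdf n h t ≤ var n h / D ^ 2 := by
  rcases le_total t 0 with h0 | h0
  · rw [cdf_zero h0]
    exact div_nonneg (var_nonneg hP) (sq_nonneg _)
  · have hm := mean_le_one hP
    have h1 : t ≤ 1 := by linarith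
    rw [le_div_iff₀ (by positivity)]
    have e1 : cdf n h t = ∫ u in (0:ℝ)..t, dens n h u := by
      unfold cdf; rw [clamp_of_mem h0 h1]
    have e2 : cdf n h t * D ^ 2 ≤ ∫ u in (0:ℝ)..t, (mean n h - u) ^ 2 * dens n h u := by
      rw [e1, ← intervalIntegral.integral_mul_const]
      refine intervalIntegral.integral_mono_on h0
        (Continuous.intervalIntegrable (by fun_prop) _ _)
        (Continuous.intervalIntegrable (by fun_prop) _ _) fun u hu => ?_
      rw [mul_comm]
      refine mul_le_mul_of_nonneg_right ?_ (dens_nonneg hP hu.1 (hu.2.trans h1))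
      exact pow_le_pow_left₀ hD.le (by linarith [hu.2]) 2
    have hc : Continuous fun u => (mean n h - u) ^ 2 * dens n h u := by fun_prop
    have e3 : ∫ u in (0:ℝ)..t, (mean n h - u) ^ 2 * dens n h u ≤
        ∫ u in (0:ℝ)..1, (mean n h - u) ^ 2 * dens n h u := by
      rw [← intervalIntegral.integral_add_adjacent_intervals (hc.intervalIntegrable 0 t)
        (hc.intervalIntegrable t 1)]
      have : 0 ≤ ∫ u in t..1, (mean n h - u) ^ 2 * dens n h u := by
        refine intervalIntegral.integral_nonneg h1 fun u hu => ?_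
        exact mul_nonneg (sq_nonneg _) (dens_nonneg hP (h0.trans hu.1) hu.2)
      linarith
    have e4 : ∫ u in (0:ℝ)..1, (mean n h - u) ^ 2 * dens n h u = var n h := by
      have e5 : E n h (fun u => mean n h ^ 2 + (-2 * mean n h) * u + 1 * u ^ 2) =
          ∫ u in (0:ℝ)..1, (mean n h - u) ^ 2 * dens n h u := by
        unfold E
        congr 1
        funext u
        ring
      rw [← e5, E_quad hP]
      change mean n h ^ 2 + (-2 * mean n h) * mean n h + 1 * mom n h = _
      unfold var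
      ring
    linarith

lemma cdf_tail_up {n : ℕ} {h : ℕ → ℝ} (hP : Pr n h) {t D : ℝ} (hD : 0 < D)
    (ht : mean n h + D ≤ t) : 1 - cdf n h t ≤ var n h / D ^ 2 := by
  rcases le_total 1 t with h1 | h1
  · rw [cdf_one hP h1, sub_self]
    exact div_nonneg (var_nonneg hP) (sq_nonneg _)
  · have hm := mean_nonneg hP
    have h0 : 0 ≤ t := by linarith
    rw [le_div_iff₀ (by positivity)]
    have e1 : 1 - cdf n h t = ∫ u in t..1, dens n h u := by
      have e0 := cdf_sub (n := n) (h := h) t 1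
      rw [cdf_one hP le_rfl, clamp_of_mem h0 h1, clamp_of_mem zero_le_one le_rfl] at e0
      exact e0
    have e2 : (1 - cdf n h t) * D ^ 2 ≤ ∫ u in t..1, (mean n h - u) ^ 2 * dens n h u := by
      rw [e1, ← intervalIntegral.integral_mul_const]
      refine intervalIntegral.integral_mono_on h1
        (Continuous.intervalIntegrable (by fun_prop) _ _)
        (Continuous.intervalIntegrable (by fun_prop) _ _) fun u hu => ?_
      rw [mul_comm]
      refine mul_le_mul_of_nonneg_right ?_ (dens_nonneg hP (h0.trans hu.1) hu.2)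
      have : D ^ 2 ≤ (u - mean n h) ^ 2 := pow_le_pow_left₀ hD.le (by linarith [hu.1]) 2
      calc D ^ 2 ≤ (u - mean n h) ^ 2 := this
        _ = _ := by ring
    have hc : Continuous fun u => (mean n h - u) ^ 2 * dens n h u := by fun_prop
    have e3 : ∫ u in t..1, (mean n h - u) ^ 2 * dens n h u ≤
        ∫ u in (0:ℝ)..1, (mean n h - u) ^ 2 * dens n h u := by
      rw [← intervalIntegral.integral_add_adjacent_intervals (hc.intervalIntegrable 0 t)
        (hc.intervalIntegrable t 1)]
      have : 0 ≤ ∫ u in (0:ℝ)..t, (mean n h - u) ^ 2 * dens n h u := by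
        refine intervalIntegral.integral_nonneg h0 fun u hu => ?_
        exact mul_nonneg (sq_nonneg _) (dens_nonneg hP hu.1 (hu.2.trans h1))
      linarith
    have e4 : ∫ u in (0:ℝ)..1, (mean n h - u) ^ 2 * dens n h u = var n h := by
      have e5 : E n h (fun u => mean n h ^ 2 + (-2 * mean n h) * u + 1 * u ^ 2) =
          ∫ u in (0:ℝ)..1, (mean n h - u) ^ 2 * dens n h u := by
        unfold E
        congr 1
        funext u
        ring
      rw [← e5, E_quad hP]
      change mean n h ^ 2 + (-2 * mean n h) * mean n h + 1 * mom n h = _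
      unfold var
      ring
    linarith

/-- quantitative data of a record at the scale `s` around `μ` -/
structure OKs (κ S W s μ : ℝ) (a : Rec) : Prop where
  prY : Pr a.ny a.hy
  prZ : Pr a.nz a.hz
  hd : ∀ u, 0 ≤ u → u ≤ 1 → dens a.ny a.hy u ≤ κ * len a.c / s
  vy : len a.c ^ 2 * var a.ny a.hy ≤ S * s ^ 2
  vz : len a.c ^ 2 * var a.nz a.hz ≤ S * s ^ 2
  my : |off a.c + len a.c * mean a.ny a.hy - μ| ≤ W * s
  mz : |off a.c + len a.c * mean a.nz a.hz - μ| ≤ W * s

/-- the distribution function of the `y`-law in the scaled global coordinate -/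
noncomputable def gcl (s μ : ℝ) (a : Rec) (u : ℝ) : ℝ :=
  cdf a.ny a.hy ((μ + s * u - off a.c) / len a.c)

lemma gcl_mem {κ S W s μ : ℝ} {a : Rec} (ha : OKs κ S W s μ a) (u : ℝ) :
    0 ≤ gcl s μ a u ∧ gcl s μ a u ≤ 1 :=
  ⟨cdf_nonneg ha.prY _, cdf_le_one ha.prY _⟩

lemma gcl_lip {κ S W s μ : ℝ} {a : Rec} (hκ : 0 < κ) (hs : 0 < s) (ha : OKs κ S W s μ a) {u v : ℝ}
    (huv : u ≤ v) : 0 ≤ gcl s μ a v - gcl s μ a u ∧
      gcl s μ a v - gcl s μ a u ≤ κ * (v - u) := by
  have hl := len_pos a.c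
  have h1 : (μ + s * u - off a.c) / len a.c ≤ (μ + s * v - off a.c) / len a.c := by
    refine div_le_div_of_nonneg_right ?_ hl.le
    have := mul_le_mul_of_nonneg_left huv hs.le
    linarith
  refine ⟨by have := cdf_mono ha.prY h1; unfold gcl; linarith, ?_⟩
  have h2 := cdf_lip ha.hd (by positivity) h1
  unfold gcl
  refine h2.trans (le_of_eq ?_)
  field_simp
  ring

lemma gcl_low {κ S W s μ : ℝ} {a : Rec} (hs : 0 < s) (ha : OKs κ S W s μ a) {u D : ℝ}
    (hD : 0 < D) (hu : u + D ≤ -W) : gcl s μ a u ≤ S / D ^ 2 := by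
  have hl := len_pos a.c
  have h1 : (μ + s * u - off a.c) / len a.c + (s * D) / len a.c ≤ mean a.ny a.hy := by
    rw [← add_div, div_le_iff₀ hl]
    have h2 := (abs_le.1 ha.my).1
    have h3 := mul_le_mul_of_nonneg_left hu hs.le
    nlinarith
  have h2 := cdf_tail_low ha.prY (by positivity) h1
  refine h2.trans ?_
  rw [div_pow, div_div_eq_mul_div, div_le_div_iff₀ (by positivity) (by positivity)]
  have h3 := ha.vy
  have h4 := mul_le_mul_of_nonneg_right h3 (sq_nonneg D)
  nlinarith

lemma gcl_up {κ S W s μ : ℝ} {a : Rec} (hs : 0 < s) (ha : OKs κ S W s μ a) {u D : ℝ}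
    (hD : 0 < D) (hu : W + D ≤ u) : 1 - gcl s μ a u ≤ S / D ^ 2 := by
  have hl := len_pos a.c
  have h1 : mean a.ny a.hy + (s * D) / len a.c ≤ (μ + s * u - off a.c) / len a.c := by
    rw [← sub_nonneg]
    have e : (μ + s * u - off a.c) / len a.c - (mean a.ny a.hy + (s * D) / len a.c) =
        (μ + s * u - off a.c - len a.c * mean a.ny a.hy - s * D) / len a.c := by
      field_simp
      ring
    rw [e]
    refine div_nonneg ?_ hl.le
    have h2 := (abs_le.1 ha.my).2
    have h3 := mul_le_mul_of_nonneg_left hu hs.le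
    nlinarith
  have h2 := cdf_tail_up ha.prY (by positivity) h1
  refine h2.trans ?_
  rw [div_pow, div_div_eq_mul_div, div_le_div_iff₀ (by positivity) (by positivity)]
  have h3 := ha.vy
  have h4 := mul_le_mul_of_nonneg_right h3 (sq_nonneg D)
  nlinarith

/-- the main estimate: two records with the same class are balanced -/
lemma same_class {ε κ S W s μ : ℝ} (hε : 0 < ε) (hκ : 0 < κ) (hs : 0 < s) {a b : Rec}
    (ha : OKs κ S W s μ a) (hb : OKs κ S W s μ b) (hR : Rel ε a b)
    (hV : len a.c ^ 2 * var a.nz a.hz - len b.c ^ 2 * var b.nz b.hz ≤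
      (ε ^ 2 / (32 * κ ^ 2)) * s ^ 2)
    (hn : (2 * S + 4 * W ^ 2) / (b.n + 2) ≤ ε ^ 2 / (32 * κ ^ 2))
    (hg : ∀ u, |gcl s μ a u - gcl s μ b u| ≤ ε / 4) : False := by
  obtain ⟨-, c', hc, hG, hlaw, hub⟩ := hR
  have hla := len_pos a.c
  have hlc := len_pos c'
  have hlb : len b.c = len a.c * len c' := by rw [hc, len_append]
  -- the mean map of b
  have haff : ∀ w, aff b.c w = off a.c + len a.c * aff c' w := by
    intro w
    have h1 := congrFun (op_append a.c c' (fun t => t)) w
    rw [← hc, op_id] at h1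
    rw [h1]
    have h2 : op a.c (fun t => t) = fun t => off a.c + len a.c * t + 0 * t ^ 2 := by
      funext t; rw [op_id]; unfold aff; ring
    rw [h2, op_quad]
    ring
  -- Lipschitz constant of the outer distribution function
  set K : ℝ := κ * len a.c / s with hK
  have hK0 : 0 < K := by positivity
  have hlip : ∀ t t', |cdf a.ny a.hy t - cdf a.ny a.hy t'| ≤ K * |t - t'| := by
    intro t t'
    rcases le_total t' t with h | h
    · have h1 := cdf_lip ha.hd hK0.le h
      have h2 := cdf_mono ha.prY h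
      rw [abs_of_nonneg (by linarith), abs_of_nonneg (by linarith)]
      exact h1
    · have h1 := cdf_lip ha.hd hK0.le h
      have h2 := cdf_mono ha.prY h
      rw [abs_sub_comm, abs_sub_comm t t', abs_of_nonneg (by linarith),
        abs_of_nonneg (by linarith)]
      exact h1
  set δ : ℝ := ε / (4 * κ) * s / len a.c with hδ
  have hδ0 : 0 < δ := by positivity
  have h1 := E_op_lip hb.prY c' (cdf_cont a.ny a.hy) hK0.le hδ0 hlip
  -- the conditional variance
  have h2 := Ev_compare hb.prY hb.prZ c'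
  have h3 : var a.nz a.hz = Ev c' b.nz b.hz + len c' ^ 2 * var b.nz b.hz := by
    rw [← var_decomp hb.prZ c', ← hlaw _ (by fun_prop), ← hlaw _ (by fun_prop)]
    rfl
  have h4 := rel_var hG
  have h5 : var b.ny b.hy + var b.nz b.hz + (mean b.ny b.hy - mean b.nz b.hz) ^ 2 ≤
      ((2 * S + 4 * W ^ 2) * s ^ 2) / len b.c ^ 2 := by
    rw [le_div_iff₀ (pow_pos (len_pos b.c) 2)]
    have e1 : |len b.c * (mean b.ny b.hy - mean b.nz b.hz)| ≤ 2 * W * s := by
      have := hb.my
      have := hb.mz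
      rw [abs_le] at *
      constructor <;> nlinarith
    have e2 := sq_le_sq' (abs_le.1 e1).1 (abs_le.1 e1).2
    have e3 := hb.vy
    have e4 := hb.vz
    nlinarith
  have hvs : 0 ≤ var b.ny b.hy + var b.nz b.hz + (mean b.ny b.hy - mean b.nz b.hz) ^ 2 :=
    add_nonneg (add_nonneg (var_nonneg hb.prY) (var_nonneg hb.prZ)) (sq_nonneg _)
  have h6 : len a.c ^ 2 * Ev c' b.ny b.hy ≤ 2 * ((ε ^ 2 / (32 * κ ^ 2)) * s ^ 2) +
      2 * ((ε ^ 2 / (32 * κ ^ 2)) * s ^ 2) := by
    have e1 : len a.c ^ 2 * Ev c' b.nz b.hz =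
        len a.c ^ 2 * var a.nz a.hz - len b.c ^ 2 * var b.nz b.hz := by
      rw [h3, hlb]; ring
    have e2 : (q2 c' - len c' ^ 2) *
        (var b.ny b.hy + var b.nz b.hz + (mean b.ny b.hy - mean b.nz b.hz) ^ 2) ≤
        (len c' ^ 2 / (b.n + 2)) * (((2 * S + 4 * W ^ 2) * s ^ 2) / len b.c ^ 2) := by
      refine mul_le_mul h4 h5 hvs (by positivity)
    have e3 : len a.c ^ 2 * ((len c' ^ 2 / (b.n + 2)) *
        (((2 * S + 4 * W ^ 2) * s ^ 2) / len b.c ^ 2)) =
        ((2 * S + 4 * W ^ 2) / (b.n + 2)) * s ^ 2 := by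
      rw [hlb]
      field_simp
    have e4 := mul_le_mul_of_nonneg_right hn (sq_nonneg s)
    have e5 := mul_le_mul_of_nonneg_left e2 (sq_nonneg (len a.c))
    have e6 := mul_le_mul_of_nonneg_left h2 (sq_nonneg (len a.c))
    rw [e3] at e5
    have e7 : len a.c ^ 2 * (2 * Ev c' b.nz b.hz + 2 * (q2 c' - len c' ^ 2) *
        (var b.ny b.hy + var b.nz b.hz + (mean b.ny b.hy - mean b.nz b.hz) ^ 2)) =
        2 * (len a.c ^ 2 * Ev c' b.nz b.hz) + 2 * (len a.c ^ 2 * ((q2 c' - len c' ^ 2) *
        (var b.ny b.hy + var b.nz b.hz + (mean b.ny b.hy - mean b.nz b.hz) ^ 2))) := by ring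
    rw [e7] at e6
    linarith
  have h7 : K * (δ / 2 + Ev c' b.ny b.hy / (2 * δ)) ≤ 3 * ε / 8 := by
    have e1 : K * (δ / 2 + Ev c' b.ny b.hy / (2 * δ)) =
        ε / 8 + (2 * κ ^ 2 / (ε * s ^ 2)) * (len a.c ^ 2 * Ev c' b.ny b.hy) := by
      rw [hK, hδ]
      field_simp
      ring
    rw [e1]
    have e2 := mul_le_mul_of_nonneg_left h6 (show 0 ≤ 2 * κ ^ 2 / (ε * s ^ 2) by positivity)
    have e3 : 2 * κ ^ 2 / (ε * s ^ 2) * (2 * ((ε ^ 2 / (32 * κ ^ 2)) * s ^ 2) +
      2 * ((ε ^ 2 / (32 * κ ^ 2)) * s ^ 2)) = ε / 4 := by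
      field_simp
      ring
    linarith
  -- the class
  have h8 : ∀ w, |cdf a.ny a.hy (aff c' w) - cdf b.ny b.hy w| ≤ ε / 4 := by
    intro w
    have h9 := hg ((aff b.c w - μ) / s)
    have e1 : gcl s μ a ((aff b.c w - μ) / s) = cdf a.ny a.hy (aff c' w) := by
      unfold gcl
      congr 1
      rw [haff]
      field_simp
      ring
    have e2 : gcl s μ b ((aff b.c w - μ) / s) = cdf b.ny b.hy w := by
      unfold gcl
      congr 1
      have := (len_pos b.c).ne'
      unfold aff
      field_simp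
      ring
    rw [e1, e2] at h9
    exact h9
  have haffc : Continuous (aff c') := by unfold aff; fun_prop
  have h9 : |E b.ny b.hy (fun w => cdf a.ny a.hy (aff c' w)) - 1 / 2| ≤ ε / 4 := by
    have hcc : Continuous fun w => cdf a.ny a.hy (aff c' w) := (cdf_cont _ _).comp haffc
    have e1 := E_cdf_self hb.prY
    rw [abs_le]
    constructor
    · have e2 := E_mono hb.prY (F := fun w => cdf b.ny b.hy w + (-(ε / 4)))
        (G := fun w => cdf a.ny a.hy (aff c' w)) (by fun_prop) hcc fun w _ _ => by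
          have := (abs_le.1 (h8 w)).1
          linarith
      rw [E_add (F := fun w => cdf b.ny b.hy w) (by fun_prop) (by fun_prop),
        E_const hb.prY] at e2
      have e3 : E b.ny b.hy (fun w => cdf b.ny b.hy w) = 1 / 2 := e1
      linarith
    · have e2 := E_mono hb.prY (F := fun w => cdf a.ny a.hy (aff c' w))
        (G := fun w => cdf b.ny b.hy w + ε / 4) hcc (by fun_prop) fun w _ _ => by
          have := (abs_le.1 (h8 w)).2
          linarith
      rw [E_add (F := fun w => cdf b.ny b.hy w) (by fun_prop) (by fun_prop),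
        E_const hb.prY] at e2
      have e3 : E b.ny b.hy (fun w => cdf b.ny b.hy w) = 1 / 2 := e1
      linarith
  have h10 : |E b.ny b.hy (op c' (cdf a.ny a.hy)) - 1 / 2| ≤ 3 * ε / 8 + ε / 4 := by
    have e1 := h1.trans h7
    rw [abs_le] at *
    constructor <;> linarith [e1.1, e1.2, h9.1, h9.2]
  linarith

lemma level_low {L : List Rec} {ε : ℝ} (h : L.Pairwise (Rel ε)) :
    ∀ j (hj : j < L.length), L.length - 1 - j ≤ (L[j]).n := by
  induction L with
  | nil => intro j hj; exact absurd hj (by simp)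
  | cons a l ih =>
    rw [List.pairwise_cons] at h
    intro j hj
    cases j with
    | zero =>
      change (l.length + 1) - 1 - 0 ≤ a.n
      rcases Nat.eq_zero_or_pos l.length with h0 | h0
      · omega
      · have h1 := ih h.2 0 h0
        have h2 := (h.1 l[0] (List.getElem_mem h0)).1
        omega
    | succ j =>
      have hj' : j < l.length := by simpa using hj
      have h1 := ih h.2 j hj'
      change (l.length + 1) - 1 - (j + 1) ≤ (l[j]).n
      omega

theorem spine {ε κ S W : ℝ} (hε : 0 < ε) (hκ : 0 < κ) (hS : 0 ≤ S) (hW : 0 ≤ W) :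
    ∃ N : ℕ, ∀ s μ : ℝ, 0 < s → ∀ L : List Rec, L.Pairwise (Rel ε) →
      (∀ a ∈ L, OKs κ S W s μ a) → L.length ≤ N := by
  -- window
  set D : ℝ := 4 * S / ε + 1 with hD
  have hD0 : 0 < D := by positivity
  have hDS : S / D ^ 2 ≤ ε / 4 := by
    rw [div_le_iff₀ (by positivity)]
    have h1 : 1 ≤ D := by rw [hD]; linarith [div_nonneg (by linarith : (0:ℝ) ≤ 4 * S) hε.le]
    have h2 : D ≤ D ^ 2 := by nlinarith
    have h3 : S ≤ ε / 4 * D := by
      rw [hD]
      have : ε / 4 * (4 * S / ε + 1) = S + ε / 4 := by field_simp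
      rw [this]; linarith
    nlinarith
  set X : ℝ := W + D with hX
  have hX0 : 0 < X := by positivity
  set θ : ℝ := ε / (16 * κ) with hθ
  have hθ0 : 0 < θ := by positivity
  obtain ⟨J, hJ⟩ := exists_nat_gt (2 * X / θ)
  set η : ℝ := min (ε ^ 2 / (32 * κ ^ 2)) (ε / 8) with hη
  have hη0 : 0 < η := lt_min (by positivity) (by positivity)
  obtain ⟨n₀, hn₀⟩ := exists_nat_gt ((2 * S + 4 * W ^ 2) / (ε ^ 2 / (32 * κ ^ 2)))
  obtain ⟨N₀, hN₀⟩ := box_pigeon (J + 2) (S + 1) η hη0
  refine ⟨n₀ + N₀, fun s μ hs L hL hO => ?_⟩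
  by_contra hlen
  push Not at hlen
  set M := L.length - n₀ with hM
  have hMN : N₀ < M := by omega
  have hlt : ∀ i : Fin M, (i : ℕ) < L.length := fun i => by have := i.2; omega
  set v : Fin M → (Fin (J + 2) → ℝ) := fun i => Fin.cons
    (len (L[(i : ℕ)]'(hlt i)).c ^ 2 * var (L[(i : ℕ)]'(hlt i)).nz (L[(i : ℕ)]'(hlt i)).hz / s ^ 2)
    (fun j : Fin (J + 1) => gcl s μ (L[(i : ℕ)]'(hlt i)) (-X + j * θ)) with hv
  obtain ⟨i, j, hij, hclose⟩ := hN₀ M hMN v (by
    intro i k
    have hOi := hO _ (List.getElem_mem (hlt i))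
    refine Fin.cases ?_ (fun k => ?_) k
    · simp only [hv, Fin.cons_zero]
      refine ⟨div_nonneg (mul_nonneg (sq_nonneg _) (var_nonneg hOi.prZ)) (sq_nonneg _), ?_⟩
      rw [div_le_iff₀ (by positivity)]
      have := hOi.vz
      nlinarith [sq_nonneg s]
    · simp only [hv, Fin.cons_succ]
      have := gcl_mem hOi (-X + k * θ)
      exact ⟨this.1, this.2.trans (by linarith)⟩)
  set a := L[(i : ℕ)]'(hlt i) with ha
  set b := L[(j : ℕ)]'(hlt j) with hb
  have hOa : OKs κ S W s μ a := hO _ (List.getElem_mem (hlt i))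
  have hOb : OKs κ S W s μ b := hO _ (List.getElem_mem (hlt j))
  have hR : Rel ε a b := List.pairwise_iff_getElem.1 hL i j (hlt i) (hlt j) hij
  refine same_class hε hκ hs hOa hOb hR ?_ ?_ ?_
  · have h1 := hclose 0
    simp only [hv, Fin.cons_zero] at h1
    have h2 := (abs_lt.1 (lt_of_lt_of_le h1 (min_le_left _ _))).2
    rw [← sub_div, div_lt_iff₀ (by positivity)] at h2
    exact h2.le
  · have h1 := level_low hL j (hlt j)
    have h2 : n₀ ≤ b.n := by
      have := j.2
      rw [hb]
      omega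
    rw [div_lt_iff₀ (by positivity)] at hn₀
    rw [div_le_iff₀ (by positivity)]
    have h3 : (n₀ : ℝ) ≤ b.n := by exact_mod_cast h2
    have h4 : 0 < ε ^ 2 / (32 * κ ^ 2) := by positivity
    nlinarith
  · intro u
    rcases le_total u (-X) with hu | hu
    · have hu2 : u + D ≤ -W := by linarith
      have h1 := (gcl_low hs hOa hD0 hu2).trans hDS
      have h2 := (gcl_low hs hOb hD0 hu2).trans hDS
      have h3 := (gcl_mem hOa u).1
      have h4 := (gcl_mem hOb u).1
      rw [abs_le]
      constructor <;> linarith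
    · rcases le_total X u with hu' | hu'
      · have hu2 : W + D ≤ u := by linarith
        have h1 := (gcl_up hs hOa hD0 hu2).trans hDS
        have h2 := (gcl_up hs hOb hD0 hu2).trans hDS
        have h3 := (gcl_mem hOa u).2
        have h4 := (gcl_mem hOb u).2
        rw [abs_le]
        constructor <;> linarith
      · have hq : 0 ≤ (u + X) / θ := div_nonneg (by linarith) hθ0.le
        set k := ⌊(u + X) / θ⌋₊ with hk
        have hk1 : (k : ℝ) ≤ (u + X) / θ := Nat.floor_le hq
        have hk2 : (u + X) / θ < k + 1 := Nat.lt_floor_add_one _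
        have hkJ : k < J + 1 := by
          have h1 : (k : ℝ) < J := by
            refine lt_of_le_of_lt (hk1.trans ?_) hJ
            exact div_le_div_of_nonneg_right (by linarith) hθ0.le
          have : k < J := by exact_mod_cast h1
          omega
        rw [le_div_iff₀ hθ0] at hk1
        rw [div_lt_iff₀ hθ0] at hk2
        have hθκ : κ * θ = ε / 16 := by rw [hθ]; field_simp
        have hle : -X + k * θ ≤ u := by linarith
        have h1 := gcl_lip hκ hs hOa hle
        have h2 := gcl_lip hκ hs hOb hle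
        have h3 := hclose (Fin.succ ⟨k, hkJ⟩)
        simp only [hv, Fin.cons_succ] at h3
        have h4 := lt_of_lt_of_le h3 (min_le_right _ _)
        have h5 : κ * (u - (-X + k * θ)) ≤ ε / 16 := by
          rw [← hθκ]
          exact mul_le_mul_of_nonneg_left (by linarith) hκ.le
        rw [abs_lt] at h4
        rw [abs_le]
        constructor <;> linarith [h1.1, h1.2, h2.1, h2.2, h4.1, h4.2]

end Pool.Agent.Helper73.KS
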