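import Mathlib
import Pool.Agent.Helper73.KS.Spine

/-!
# Unbalanced series-parallel trees have small blocks
-/

namespace Pool.Agent.Helper73.KS

open Finset intervalIntegral SPT

lemma nonempty_El : ∀ T : SPT, Nonempty (El T)
  | leaf => ⟨()⟩
  | ser A _ => (nonempty_El A).map sl
  | par A _ => (nonempty_El A).map pl

lemma var_ge_mean {n : ℕ} {h : ℕ → ℝ} (hP : Pr n h) :
    mean n h * (1 - mean n h) ≤ (n + 3) * var n h := by
  set M := ∑ i ∈ range (n + 1), h i * ((i : ℝ) + 1) with hM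
  set P := ∑ i ∈ range (n + 1), h i * ((i : ℝ) + 1) ^ 2 with hPd
  have h1 : mean n h * (n + 2) = M := by
    rw [mean_sum]
    field_simp
    rw [hM]
  have h2 : mom n h * ((n + 2) * (n + 3)) = P + M := by
    rw [mom_sum, div_mul_cancel₀ _ (by positivity), hM, hPd, ← Finset.sum_add_distrib]
    refine Finset.sum_congr rfl fun i _ => by ring
  have h3 : M ^ 2 ≤ P := by
    have h4 : 0 ≤ ∑ i ∈ range (n + 1), h i * (((i : ℝ) + 1) - M) ^ 2 :=
      Finset.sum_nonneg fun i _ => mul_nonneg (hP.nonneg i) (sq_nonneg _)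
    have h5 : ∑ i ∈ range (n + 1), h i * (((i : ℝ) + 1) - M) ^ 2 =
        P - 2 * M * M + M ^ 2 * ∑ i ∈ range (n + 1), h i := by
      have e : ∀ i ∈ range (n + 1), h i * (((i : ℝ) + 1) - M) ^ 2 =
          h i * ((i : ℝ) + 1) ^ 2 - 2 * M * (h i * ((i : ℝ) + 1)) + M ^ 2 * h i := fun i _ => by
        ring
      rw [Finset.sum_congr rfl e, Finset.sum_add_distrib, Finset.sum_sub_distrib,
        ← Finset.mul_sum, ← Finset.mul_sum]
    rw [h5, hP.sum] at h4
    nlinarith
  have hn : (0 : ℝ) ≤ n := by positivity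
  unfold var
  rw [← h1] at h2 h3
  have h6 : (n + 2) * (mean n h * (1 - mean n h)) ≤
      (n + 2) * ((n + 3) * (mom n h - mean n h ^ 2)) := by
    nlinarith
  exact le_of_mul_le_mul_left h6 (by positivity)

lemma dens_le {n : ℕ} {h : ℕ → ℝ} (hP : Pr n h) (hLC : LC h) {s : ℝ} (hs : 0 < s)
    (hv : s ^ 2 ≤ var n h) : ∀ u, 0 ≤ u → u ≤ 1 → dens n h u ≤ 13 / s := by
  intro u h0 h1
  rw [le_div_iff₀ hs]
  have h2 := dens_bound hP hLC h0 h1
  have h3 := mul_le_mul_of_nonneg_left hv (sq_nonneg (dens n h u))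
  by_contra hc
  push Not at hc
  nlinarith

/-- straddling elements: the expectation is close to `1 / 2` -/
lemma str_bound (T : SPT) {F : ℝ → ℝ} (hF : Continuous F) (hm : Mon F) {K : ℝ}
    (hK : ∀ s t, 0 ≤ s → s ≤ t → t ≤ 1 → F t - F s ≤ K * (t - s)) {x : El T} (hx : Str T F x) :
    |E (lv T) (co T x) F - 1 / 2| ≤ K * len (ctx T x) := by
  rw [E_ctx T x hF]
  have hG := op_mon (ctx T x) hF hm
  have hc := op_cont (ctx T x) hF
  have h1 := op_diff (ctx T x) hF hK le_rfl zero_le_one le_rfl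
  have h2 := E_mono Pr_de (F := fun _ => op (ctx T x) F 0) (by fun_prop) hc
    fun t h0 h1 => hG 0 t le_rfl h0 h1
  have h3 := E_mono Pr_de hc (G := fun _ => op (ctx T x) F 1) (by fun_prop)
    fun t h0 h1 => hG t 1 h0 h1 le_rfl
  rw [E_const Pr_de] at h2 h3
  obtain ⟨h4, h5⟩ := hx
  rw [abs_le]
  constructor <;> linarith

/-- lower and upper bound of the expectation at a straddling element -/
lemma str_loc (T : SPT) {F : ℝ → ℝ} (hF : Continuous F) (hm : Mon F) (h0 : ∀ t, 0 ≤ F t)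
    (h1 : ∀ t, F t ≤ 1) {K κ : ℝ}
    (hK : ∀ s t, 0 ≤ s → s ≤ t → t ≤ 1 → F t - F s ≤ K * (t - s)) {x : El T} (hx : Str T F x)
    (hκ : K * len (ctx T x) ≤ κ) (hκ1 : 1 ≤ κ) :
    1 / (16 * κ) ≤ E (lv T) (co T x) F ∧ 1 / (16 * κ) ≤ 1 - E (lv T) (co T x) F := by
  rw [E_ctx T x hF]
  have hG := op_mon (ctx T x) hF hm
  have hc := op_cont (ctx T x) hF
  have hG0 : ∀ w, 0 ≤ op (ctx T x) F w := op_nonneg _ h0
  have hG1 : ∀ w, 0 ≤ w → w ≤ 1 → op (ctx T x) F w ≤ 1 := by
    intro w hw0 hw1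
    have := op_mono (ctx T x) hF (G := fun _ => 1) (by fun_prop) (fun t _ _ => h1 t) w hw0 hw1
    rwa [op_const] at this
  have hd : ∀ s t, 0 ≤ s → s ≤ t → t ≤ 1 →
      op (ctx T x) F t - op (ctx T x) F s ≤ κ * (t - s) := by
    intro s t hs hst ht
    exact (op_diff (ctx T x) hF hK hs hst ht).trans
      (mul_le_mul_of_nonneg_right hκ (by linarith))
  obtain ⟨hx0, hx1⟩ := hx
  set G := op (ctx T x) F with hGd
  set w : ℝ := 1 / (4 * κ) with hw
  have hκ0 : 0 < κ := by linarith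
  have hw0 : 0 < w := by positivity
  have hw1 : w ≤ 1 := by rw [hw, div_le_one (by positivity)]; linarith
  have hκw : κ * w = 1 / 4 := by rw [hw]; field_simp
  have hval : 1 / (16 * κ) = w * (1 / 4) := by rw [hw]; field_simp; norm_num
  rw [E_de, hval]
  have hi : ∀ a b : ℝ, IntervalIntegrable G MeasureTheory.volume a b :=
    fun a b => hc.intervalIntegrable a b
  constructor
  · rw [← intervalIntegral.integral_add_adjacent_intervals (hi 0 (1 - w)) (hi (1 - w) 1)]
    have h2 : 0 ≤ ∫ t in (0:ℝ)..(1 - w), G t :=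
      intervalIntegral.integral_nonneg (by linarith) fun t _ => hG0 t
    have h3 : ∫ _t in (1 - w)..1, (1 / 4 : ℝ) ≤ ∫ t in (1 - w)..1, G t := by
      refine intervalIntegral.integral_mono_on (by linarith)
        (continuous_const.intervalIntegrable _ _) (hi _ _) fun t ht => ?_
      have h4 := hd t 1 (by linarith [ht.1]) ht.2 le_rfl
      have h5 : κ * (1 - t) ≤ κ * w := mul_le_mul_of_nonneg_left (by linarith [ht.1]) hκ0.le
      linarith
    rw [intervalIntegral.integral_const, smul_eq_mul] at h3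
    linarith
  · have h6 : (1:ℝ) - ∫ t in (0:ℝ)..1, G t = ∫ t in (0:ℝ)..1, (1 - G t) := by
      rw [intervalIntegral.integral_sub (continuous_const.intervalIntegrable _ _) (hi _ _)]
      simp
    have hi' : ∀ a b : ℝ, IntervalIntegrable (fun t => 1 - G t) MeasureTheory.volume a b :=
      fun a b => (continuous_const.sub hc).intervalIntegrable a b
    rw [h6, ← intervalIntegral.integral_add_adjacent_intervals (hi' 0 w) (hi' w 1)]
    have h2 : 0 ≤ ∫ t in w..1, (1 - G t) :=
      intervalIntegral.integral_nonneg hw1 fun t ht => by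
        have := hG1 t (by linarith [ht.1]) ht.2
        linarith
    have h3 : ∫ _t in (0:ℝ)..w, (1 / 4 : ℝ) ≤ ∫ t in (0:ℝ)..w, (1 - G t) := by
      refine intervalIntegral.integral_mono_on hw0.le
        (continuous_const.intervalIntegrable _ _) (hi' _ _) fun t ht => ?_
      have h4 := hd 0 t le_rfl ht.1 (by linarith [ht.2])
      have h5 : κ * (t - 0) ≤ κ * w := mul_le_mul_of_nonneg_left (by linarith [ht.2]) hκ0.le
      linarith
    rw [intervalIntegral.integral_const, smul_eq_mul] at h3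
    linarith

/-- an element with large variance -/
lemma exists_var {ε : ℝ} (T : SPT) (hU : Unb ε T) :
    ∃ x : El T, 1 ≤ 192 * ((lv T : ℝ) + 2) * var (lv T) (co T x) := by
  obtain ⟨z, L, hz, -, -, -⟩ := path T (F := fun t => t) continuous_id' (fun s t _ h _ => h)
    (by norm_num) (by norm_num) hU
  refine ⟨z, ?_⟩
  unfold Str at hz
  rw [op_id, op_id] at hz
  unfold aff at hz
  have hl := len_pos (ctx T z)
  have hm : mean (lv T) (co T z) = off (ctx T z) + len (ctx T z) * (1 / 2) := by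
    unfold mean
    rw [E_ctx T z continuous_id', E_aff Pr_de, mean_de]
  have h1 := len_le_var T z
  have h2 := var_ge_mean (co_Pr T z)
  have hv := var_pos T z
  have hn : (0 : ℝ) ≤ lv T := by positivity
  rcases le_total (1 / 4) (len (ctx T z)) with h3 | h3
  · have h4 : (1 / 4 : ℝ) ^ 2 ≤ len (ctx T z) ^ 2 := pow_le_pow_left₀ (by norm_num) h3 2
    nlinarith
  · have h4 : 3 / 8 ≤ mean (lv T) (co T z) := by rw [hm]; linarith [hz.1, hz.2]
    have h5 : mean (lv T) (co T z) ≤ 5 / 8 := by rw [hm]; linarith [hz.1, hz.2]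
    have h6 : 15 / 64 ≤ mean (lv T) (co T z) * (1 - mean (lv T) (co T z)) := by nlinarith
    nlinarith

set_option maxHeartbeats 4000000 in
/-- **Half of the block bound.** -/
theorem half {ε : ℝ} (hε : 0 < ε) : ∃ N : ℕ, ∀ Q R : SPT, Unb ε Q → Unb ε R →
    (∀ (x : El Q) (y : El R), ε ≤ |E (lv Q) (co Q x) (cdf (lv R) (co R y)) - 1 / 2|) →
    lv Q + 2 ≤ N := by
  set A : ℝ := 2028 / ε ^ 2 with hA
  have hA0 : 0 < A := by positivity
  set κm : ℝ := 2028 / ε + 1 with hκm
  have hκm0 : 0 < κm := by positivity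
  set W : ℝ := (A + 1) * (16 * κm) + 1 with hW
  have hW0 : 0 < W := by positivity
  obtain ⟨N₁, hN₁⟩ := spine (ε := ε) (κ := 574 / ε) (S := A) (W := W) hε (by positivity) hA0.le
    hW0.le
  obtain ⟨N, hN⟩ := exists_nat_gt (169 * (2 ^ (N₁ + 1)) ^ 2 * (192 * A) / ε ^ 2)
  refine ⟨N, fun Q R hQ hR hcross => ?_⟩
  -- the element of maximal variance
  have := nonempty_El R
  obtain ⟨y, hy⟩ := Finite.exists_max (fun y : El R => var (lv R) (co R y))
  set s : ℝ := Real.sqrt (var (lv R) (co R y)) with hs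
  have hs2 : s ^ 2 = var (lv R) (co R y) := Real.sq_sqrt (var_pos R y).le
  have hs0 : 0 < s := Real.sqrt_pos.2 (var_pos R y)
  set μ : ℝ := mean (lv R) (co R y) with hμ
  -- variances in Q
  have hvQ : ∀ x : El Q, var (lv Q) (co Q x) ≤ A * s ^ 2 := by
    intro x
    set t : ℝ := Real.sqrt (var (lv Q) (co Q x)) with ht
    have ht2 : t ^ 2 = var (lv Q) (co Q x) := Real.sq_sqrt (var_pos Q x).le
    have ht0 : 0 < t := Real.sqrt_pos.2 (var_pos Q x)
    have hK := dens_le (co_Pr Q x) (co_LC Q x) ht0 ht2.le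
    obtain ⟨y', L, hy', -, -, -⟩ := path R (F := cdf (lv Q) (co Q x)) (cdf_cont _ _)
      (fun s t _ h _ => cdf_mono (co_Pr Q x) h) (by rw [cdf_zero le_rfl]; norm_num)
      (by rw [cdf_one (co_Pr Q x) le_rfl]; norm_num) hR
    have h1 := str_bound R (cdf_cont _ _) (fun s t _ h _ => cdf_mono (co_Pr Q x) h)
      (K := 13 / t) (fun a b _ hab _ => cdf_lip hK (by positivity) hab) hy'
    have h2 := hcross x y'
    have h3 := E_symm (co_Pr Q x) (co_Pr R y')
    have h4 : E (lv R) (co R y') (cdf (lv Q) (co Q x)) - 1 / 2 =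
        -(E (lv Q) (co Q x) (cdf (lv R) (co R y')) - 1 / 2) := by linarith
    rw [h4, abs_neg] at h1
    have h5 : ε ≤ 13 / t * len (ctx R y') := h2.trans h1
    rw [div_mul_eq_mul_div, le_div_iff₀ ht0] at h5
    have h6 := len_le_var R y'
    have h7 := hy y'
    rw [← hs2] at h7
    have h8 : (ε * t) ^ 2 ≤ (13 * len (ctx R y')) ^ 2 := pow_le_pow_left₀ (by positivity) h5 2
    rw [← ht2, hA, div_mul_eq_mul_div, le_div_iff₀ (by positivity)]
    change var (lv R) (co R y') ≤ s ^ 2 at h7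
    nlinarith
  -- straddling elements of Q with respect to the distribution function of y
  have hKy := dens_le (co_Pr R y) (co_LC R y) hs0 hs2.le
  have hlip : ∀ a b, 0 ≤ a → a ≤ b → b ≤ 1 → cdf (lv R) (co R y) b - cdf (lv R) (co R y) a ≤
      13 / s * (b - a) := fun a b _ hab _ => cdf_lip hKy (by positivity) hab
  have hmon : Mon (cdf (lv R) (co R y)) := fun s t _ h _ => cdf_mono (co_Pr R y) h
  have hlen : ∀ x : El Q, Str Q (cdf (lv R) (co R y)) x → ε * s ≤ 13 * len (ctx Q x) := by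
    intro x hx
    have h1 := str_bound Q (cdf_cont _ _) hmon hlip hx
    have h2 := (hcross x y).trans h1
    rwa [div_mul_eq_mul_div, le_div_iff₀ hs0] at h2
  have hloc : ∀ x : El Q, Str Q (cdf (lv R) (co R y)) x → |mean (lv Q) (co Q x) - μ| ≤ W * s := by
    intro x hx
    have h1 := len_le_var Q x
    have h2 := hvQ x
    have h3 : ε * len (ctx Q x) ≤ 156 * s := by
      have h4 : (ε * len (ctx Q x)) ^ 2 ≤ (156 * s) ^ 2 := by
        have h5 : ε ^ 2 * (A * s ^ 2) = 2028 * s ^ 2 := by rw [hA]; field_simp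
        have h6 : ε ^ 2 * len (ctx Q x) ^ 2 ≤ ε ^ 2 * (12 * (A * s ^ 2)) :=
          mul_le_mul_of_nonneg_left (by linarith) (sq_nonneg _)
        nlinarith
      exact le_of_sq_le_sq h4 (by positivity)
    have h4 : 13 / s * len (ctx Q x) ≤ κm := by
      rw [hκm, div_mul_eq_mul_div, div_le_iff₀ hs0]
      have h5 : (2028 / ε + 1) * s * ε = 2028 * s + s * ε := by field_simp
      have h6 : 13 * len (ctx Q x) * ε ≤ (2028 / ε + 1) * s * ε := by
        rw [h5]
        nlinarith
      exact le_of_mul_le_mul_right h6 hε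
    obtain ⟨h5, h6⟩ := str_loc Q (cdf_cont _ _) hmon (cdf_nonneg (co_Pr R y))
      (cdf_le_one (co_Pr R y)) hlip hx h4 (by rw [hκm]; linarith [div_pos (by norm_num : (0:ℝ) < 2028) hε])
    have key : (mean (lv Q) (co Q x) - μ) ^ 2 ≤ (A + 1) * (16 * κm) * s ^ 2 := by
      have gen : ∀ p : ℝ, 1 / (16 * κm) ≤ p → p ≤ (var (lv Q) (co Q x) + var (lv R) (co R y)) /
          (mean (lv Q) (co Q x) - μ) ^ 2 → 0 < (mean (lv Q) (co Q x) - μ) ^ 2 →
          (mean (lv Q) (co Q x) - μ) ^ 2 ≤ (A + 1) * (16 * κm) * s ^ 2 := by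
        intro p hp1 hp2 hpos
        have h7 := hp1.trans hp2
        rw [div_le_div_iff₀ (by positivity) hpos, one_mul, ← hs2] at h7
        nlinarith
      rcases lt_trichotomy (mean (lv Q) (co Q x)) μ with h7 | h7 | h7
      · exact gen _ h5 (cheb_low (co_Pr Q x) (co_Pr R y) h7)
          (by have : mean (lv Q) (co Q x) - μ ≠ 0 := by linarith
              positivity)
      · rw [h7, sub_self, zero_pow two_ne_zero]
        positivity
      · exact gen _ h6 (cheb_up (co_Pr Q x) (co_Pr R y) h7)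
          (by have : mean (lv Q) (co Q x) - μ ≠ 0 := by linarith
              positivity)
    have h8 : (mean (lv Q) (co Q x) - μ) ^ 2 ≤ (W * s) ^ 2 := by
      refine key.trans ?_
      rw [mul_pow]
      refine mul_le_mul_of_nonneg_right ?_ (sq_nonneg s)
      have h9 : 1 ≤ W := by
        rw [hW]
        have : 0 ≤ (A + 1) * (16 * κm) := by positivity
        linarith
      have h10 : (A + 1) * (16 * κm) ≤ W := by rw [hW]; linarith
      nlinarith
    exact abs_le_of_sq_le_sq h8 (by positivity)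
  -- the path
  obtain ⟨z, L, hz, hL, hO, hsize⟩ := path Q (cdf_cont (lv R) (co R y)) hmon
    (by rw [cdf_zero le_rfl]; norm_num) (by rw [cdf_one (co_Pr R y) le_rfl]; norm_num) hQ
  have hdec : ∀ (x : El Q) (n : ℕ) (h : ℕ → ℝ) (c : List Stp), Pr n h →
      (∀ G : ℝ → ℝ, Continuous G → E (lv Q) (co Q x) G = E n h (op c G)) →
      off c + len c * mean n h = mean (lv Q) (co Q x) ∧
      len c ^ 2 * var n h ≤ var (lv Q) (co Q x) := by
    intro x n h c hP hG
    have h1 := var_decomp hP c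
    rw [← hG _ (by fun_prop), ← hG _ (by fun_prop)] at h1
    refine ⟨?_, ?_⟩
    · rw [← E_aff hP c, ← hG _ (by fun_prop)]
      rfl
    · change var (lv Q) (co Q x) = _ at h1
      rw [h1]
      linarith [Ev_nonneg hP c]
  have hOs : ∀ a ∈ L, OKs (574 / ε) A W s μ a := by
    intro a ha
    obtain ⟨prY, lcY, prZ, good, lawZ, x, hx1, hx2, hx3⟩ := hO a ha
    obtain ⟨e1, e2⟩ := hdec x _ _ _ prY hx2
    obtain ⟨e3, e4⟩ := hdec z _ _ _ prZ lawZ
    have hla := len_pos a.c
    refine ⟨prY, prZ, ?_, e2.trans (hvQ x), e4.trans (hvQ z), ?_, ?_⟩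
    · intro u hu0 hu1
      have h1 := hlen x hx1
      have h2 : (ε * s) ^ 2 ≤ (13 * len (ctx Q x)) ^ 2 := pow_le_pow_left₀ (by positivity) h1 2
      have h3 := dens_bound prY lcY hu0 hu1
      have h4 : (dens a.ny a.hy u * (ε * s)) ^ 2 ≤ (574 * len a.c) ^ 2 := by
        have h5 : (ε * s) ^ 2 ≤ 2028 * (len a.c ^ 2 * var a.ny a.hy) := by nlinarith
        have h6 := mul_le_mul_of_nonneg_left h5 (sq_nonneg (dens a.ny a.hy u))
        have h7 := mul_le_mul_of_nonneg_left h3 (show 0 ≤ 2028 * len a.c ^ 2 by positivity)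
        calc (dens a.ny a.hy u * (ε * s)) ^ 2 = dens a.ny a.hy u ^ 2 * (ε * s) ^ 2 := by ring
          _ ≤ dens a.ny a.hy u ^ 2 * (2028 * (len a.c ^ 2 * var a.ny a.hy)) := h6
          _ = 2028 * len a.c ^ 2 * (dens a.ny a.hy u ^ 2 * var a.ny a.hy) := by ring
          _ ≤ 2028 * len a.c ^ 2 * 162 := h7
          _ ≤ (574 * len a.c) ^ 2 := by
              have : 0 ≤ len a.c ^ 2 := sq_nonneg _
              nlinarith
      have h6 := (abs_le.1 (abs_le_of_sq_le_sq h4 (by positivity))).2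
      have h8 : 574 / ε * len a.c / s = 574 * len a.c / (ε * s) := by field_simp
      rw [h8, le_div_iff₀ (by positivity)]
      exact h6
    · rw [e1]; exact hloc x hx1
    · rw [e3]; exact hloc z hz
  have hLN := hN₁ s μ hs0 L hL hOs
  -- the size
  have h1 := hlen z hz
  have h2 : ((lv Q : ℝ) + 2) * len (ctx Q z) ≤ 2 ^ (N₁ + 1) :=
    hsize.trans (pow_le_pow_right₀ (by norm_num) (by omega))
  obtain ⟨x, hx⟩ := exists_var Q hQ
  have h3 := hvQ x
  set m : ℝ := (lv Q : ℝ) + 2 with hm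
  have hm0 : 0 < m := by positivity
  have h4 : 1 ≤ 192 * m * (A * s ^ 2) :=
    hx.trans (mul_le_mul_of_nonneg_left h3 (by positivity))
  have h5 : m * (ε * s) ≤ 13 * 2 ^ (N₁ + 1) := by nlinarith
  have h6 : (m * (ε * s)) ^ 2 ≤ (13 * 2 ^ (N₁ + 1)) ^ 2 := pow_le_pow_left₀ (by positivity) h5 2
  have h7 : m ≤ 169 * (2 ^ (N₁ + 1)) ^ 2 * (192 * A) / ε ^ 2 := by
    rw [le_div_iff₀ (by positivity)]
    have h8 := mul_le_mul_of_nonneg_left h4 (show 0 ≤ m * ε ^ 2 by positivity)
    have h9 := mul_le_mul_of_nonneg_right h6 (show 0 ≤ 192 * A by positivity)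
    nlinarith
  have h8 : m < N := lt_of_le_of_lt h7 hN
  rw [hm] at h8
  have h9 : (((lv Q + 2 : ℕ) : ℝ)) < N := by push_cast; exact h8
  exact (Nat.cast_lt.1 h9).le

/-- **The block bound**: for every `ε > 0` there is `N` such that every series-parallel tree all
of whose cross pairs have probability at distance at least `ε` from `1 / 2` has all its parallel
nodes of size at most `N`. -/
theorem blk_bound {ε : ℝ} (hε : 0 < ε) : ∃ N : ℕ, ∀ T : SPT, Unb ε T → Blk N T := by
  obtain ⟨N, hN⟩ := half hε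
  refine ⟨2 * N, fun T => ?_⟩
  induction T with
  | leaf => intro _; trivial
  | ser A B ihA ihB => intro h; exact ⟨ihA h.1, ihB h.2⟩
  | par A B _ _ =>
    intro h
    obtain ⟨hA, hB, hc⟩ := h
    have h1 := hN B A hB hA fun y x => hc x y
    have h2 := hN A B hA hB fun x y => by
      have h3 := hc x y
      have h4 := E_symm (co_Pr A x) (co_Pr B y)
      have h5 : E (lv A) (co A x) (cdf (lv B) (co B y)) - 1 / 2 =
          -(E (lv B) (co B y) (cdf (lv A) (co A x)) - 1 / 2) := by linarith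
      rw [h5, abs_neg]
      exact h3
    change lv A + lv B + 2 ≤ 2 * N
    omega

end Pool.Agent.Helper73.KS
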