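import Mathlib
import Pool.Agent.Helper73.KS.Mon

/-!
# Volumes in the unit cube: scaling, reflection, the ordinal sum
-/

namespace Pool.Agent.Helper73.KS

open MeasureTheory Set

open scoped Pointwise

/-- uniform law on the unit interval -/
noncomputable def lam : Measure ℝ := volume.restrict (Icc 0 1)

instance : IsProbabilityMeasure lam := ⟨by simp [lam]⟩

lemma int_lam (f : ℝ → ℝ) : ∫ t, f t ∂lam = ∫ t in (0:ℝ)..1, f t := by
  unfold lam
  rw [intervalIntegral.integral_of_le zero_le_one, integral_Icc_eq_integral_Ioc]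

/-- uniform law on the cube -/
noncomputable def PV (V : Type) [Fintype V] : Measure (V → ℝ) := Measure.pi fun _ => lam

instance (V : Type) [Fintype V] : IsProbabilityMeasure (PV V) := by
  unfold PV; infer_instance

/-- the unit cube -/
def cub (V : Type) : Set (V → ℝ) := univ.pi fun _ => Icc 0 1

variable {V W : Type} [Fintype V] [Fintype W]

lemma PV_eq : PV V = volume.restrict (cub V) := by
  unfold PV lam cub
  rw [volume_pi, Measure.restrict_pi_pi]

lemma meas_cub : MeasurableSet (cub V) :=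
  MeasurableSet.univ_pi fun _ => measurableSet_Icc

lemma ae_cub : ∀ᵐ u ∂(PV V), ∀ a, 0 ≤ u a ∧ u a ≤ 1 := by
  rw [PV_eq, ae_restrict_iff' meas_cub]
  exact Filter.Eventually.of_forall fun u hu a => hu a (mem_univ a)

/-- measurable sets invariant under scaling and diagonal translation -/
structure CG (C : Set (V → ℝ)) : Prop where
  meas : MeasurableSet C
  scale : ∀ τ : ℝ, 0 < τ → ∀ u : V → ℝ, τ • u ∈ C ↔ u ∈ C
  trans : ∀ (c : ℝ) (u : V → ℝ), (fun a => u a + c) ∈ C ↔ u ∈ C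

lemma meas_le (τ : ℝ) : MeasurableSet {u : V → ℝ | ∀ a, u a ≤ τ} := by
  rw [Set.ofPred_forall]
  exact MeasurableSet.iInter fun a => measurableSet_le (measurable_pi_apply a) measurable_const

lemma scal {C : Set (V → ℝ)} (hC : CG C) {τ : ℝ} (h0 : 0 < τ) (h1 : τ ≤ 1) (f : (V → ℝ) → ℝ) :
    ∫ u in C ∩ {u | ∀ a, u a ≤ τ}, f u ∂(PV V) =
      τ ^ Fintype.card V * ∫ u in C, f (τ • u) ∂(PV V) := by
  rw [PV_eq, Measure.restrict_restrict (hC.meas.inter (meas_le τ)),
    Measure.restrict_restrict hC.meas,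
    Measure.setIntegral_comp_smul_of_pos volume f (C ∩ cub V) h0, Module.finrank_fintype_fun_eq_card,
    smul_eq_mul, ← mul_assoc, mul_inv_cancel₀ (pow_pos h0 _).ne', one_mul]
  have hset : τ • (C ∩ cub V) = C ∩ {u | ∀ a, u a ≤ τ} ∩ cub V := by
    ext u
    rw [mem_smul_set_iff_inv_smul_mem₀ h0.ne']
    constructor
    · rintro ⟨hu1, hu2⟩
      have h2 : ∀ a, 0 ≤ u a ∧ u a ≤ τ := by
        intro a
        have h3 := hu2 a (mem_univ a)
        rw [Pi.smul_apply, smul_eq_mul, mem_Icc, inv_mul_le_iff₀ h0, mul_one] at h3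
        refine ⟨?_, h3.2⟩
        have h4 := mul_nonneg h0.le h3.1
        rwa [← mul_assoc, mul_inv_cancel₀ h0.ne', one_mul] at h4
      exact ⟨⟨(hC.scale _ (inv_pos.2 h0) u).1 hu1, fun a => (h2 a).2⟩,
        fun a _ => ⟨(h2 a).1, (h2 a).2.trans h1⟩⟩
    · rintro ⟨⟨hu1, hu2⟩, hu3⟩
      refine ⟨(hC.scale _ (inv_pos.2 h0) u).2 hu1, fun a _ => ?_⟩
      rw [Pi.smul_apply, smul_eq_mul, mem_Icc, inv_mul_le_iff₀ h0, mul_one]
      exact ⟨mul_nonneg (inv_nonneg.2 h0.le) (hu3 a (mem_univ a)).1, hu2 a⟩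
  rw [hset]

lemma real_eq (S : Set (V → ℝ)) : (PV V).real S = ∫ _u in S, (1 : ℝ) ∂(PV V) := by
  rw [setIntegral_const, smul_eq_mul, mul_one]

lemma cap {C : Set (V → ℝ)} (hC : CG C) (hV : 0 < Fintype.card V) {r : ℝ} (h0 : 0 ≤ r)
    (h1 : r ≤ 1) : (PV V).real (C ∩ {u | ∀ a, u a ≤ r}) = r ^ Fintype.card V * (PV V).real C := by
  have hpos : ∀ r : ℝ, 0 < r → r ≤ 1 →
      (PV V).real (C ∩ {u | ∀ a, u a ≤ r}) = r ^ Fintype.card V * (PV V).real C := by
    intro r h0 h1
    rw [real_eq, real_eq, scal hC h0 h1]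
  rcases h0.lt_or_eq with h | h
  · exact hpos r h h1
  · subst h
    rw [zero_pow hV.ne', zero_mul]
    refine le_antisymm ?_ measureReal_nonneg
    refine le_of_forall_pos_le_add fun e he => ?_
    rw [zero_add]
    have h2 := hpos (min e 1) (lt_min he one_pos) (min_le_right _ _)
    have h3 : (PV V).real (C ∩ {u | ∀ a, u a ≤ 0}) ≤ (PV V).real (C ∩ {u | ∀ a, u a ≤ min e 1}) :=
      measureReal_mono (inter_subset_inter_right _ fun u hu a =>
        (hu a).trans (lt_min he one_pos).le)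
    have h4 : (min e 1) ^ Fintype.card V ≤ min e 1 :=
      pow_le_of_le_one (lt_min he one_pos).le (min_le_right _ _) hV.ne'
    have h5 : (PV V).real C ≤ 1 := measureReal_le_one
    have h6 : 0 ≤ (PV V).real C := measureReal_nonneg
    calc (PV V).real (C ∩ {u | ∀ a, u a ≤ 0}) ≤ (min e 1) ^ Fintype.card V * (PV V).real C :=
          h3.trans h2.le
      _ ≤ min e 1 * 1 := mul_le_mul h4 h5 h6 (lt_min he one_pos).le
      _ ≤ e := by rw [mul_one]; exact min_le_left _ _

/-- reflection of the cube -/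
def rfl' (u : V → ℝ) : V → ℝ := fun a => 1 - u a

omit [Fintype V] in
lemma rfl_rfl (u : V → ℝ) : rfl' (rfl' u) = u := by
  funext a; simp [rfl']

omit [Fintype V] in
lemma meas_rfl : Measurable (rfl' : (V → ℝ) → (V → ℝ)) := by
  unfold rfl'
  fun_prop

lemma mp_one_sub : MeasurePreserving (fun t : ℝ => 1 - t) lam lam := by
  have h1 : MeasurePreserving (fun t : ℝ => 1 - t) volume volume :=
    Measure.measurePreserving_sub_left volume 1
  have h2 := h1.restrict_preimage (s := Icc (0:ℝ) 1) measurableSet_Icc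
  have h3 : (fun t : ℝ => 1 - t) ⁻¹' Icc 0 1 = Icc 0 1 := by
    ext t
    simp only [mem_preimage, mem_Icc]
    constructor
    · rintro ⟨h, h'⟩; constructor <;> linarith
    · rintro ⟨h, h'⟩; constructor <;> linarith
  rw [h3] at h2
  exact h2

lemma mp_rfl : MeasurePreserving (rfl' : (V → ℝ) → (V → ℝ)) (PV V) (PV V) := by
  unfold PV
  exact measurePreserving_pi (fun _ => lam) (fun _ => lam) (fun _ => mp_one_sub)

/-- reflection as a measurable equivalence -/
def rflE (V : Type) [Fintype V] : (V → ℝ) ≃ᵐ (V → ℝ) where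
  toFun := rfl'
  invFun := rfl'
  left_inv := rfl_rfl
  right_inv := rfl_rfl
  measurable_toFun := meas_rfl
  measurable_invFun := meas_rfl

lemma set_rfl (S : Set (V → ℝ)) (f : (V → ℝ) → ℝ) :
    ∫ u in rfl' ⁻¹' S, f (rfl' u) ∂(PV V) = ∫ u in S, f u ∂(PV V) :=
  mp_rfl.setIntegral_preimage_emb (rflE V).measurableEmbedding f S

omit [Fintype V] in
lemma CG.rfl {C : Set (V → ℝ)} (hC : CG C) : CG (rfl' ⁻¹' C) := by
  refine ⟨meas_rfl hC.meas, fun τ hτ u => ?_, fun c u => ?_⟩
  · have e : rfl' (τ • u) = fun a => (τ • rfl' u) a + (1 - τ) := by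
      funext a
      simp only [rfl', Pi.smul_apply, smul_eq_mul]
      ring
    rw [mem_preimage, mem_preimage, e, hC.trans, hC.scale τ hτ]
  · have e : rfl' (fun a => u a + c) = fun a => rfl' u a + (-c) := by
      funext a
      simp only [rfl']
      ring
    rw [mem_preimage, mem_preimage, e, hC.trans]

lemma real_rfl (S : Set (V → ℝ)) : (PV V).real (rfl' ⁻¹' S) = (PV V).real S := by
  rw [real_eq, real_eq]
  exact set_rfl S fun _ => 1

/-- layer cake for a power -/
lemma lamp (k : ℕ) {m : ℝ} (h0 : 0 ≤ m) (h1 : m ≤ 1) :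
    ∫ τ, ((k + 1 : ℝ) * (1 - τ) ^ k) * (Ici m).indicator (fun _ => (1:ℝ)) τ ∂lam =
      (1 - m) ^ (k + 1) := by
  have e1 : (fun τ : ℝ => ((k + 1 : ℝ) * (1 - τ) ^ k) * (Ici m).indicator (fun _ => (1:ℝ)) τ) =
      (Ici m).indicator fun τ => (k + 1 : ℝ) * (1 - τ) ^ k := by
    funext τ
    by_cases h : τ ∈ Ici m
    · rw [indicator_of_mem h, indicator_of_mem h, mul_one]
    · rw [indicator_of_notMem h, indicator_of_notMem h, mul_zero]
  have e2 : Ici m ∩ Icc (0:ℝ) 1 = Icc m 1 := by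
    ext t
    simp only [mem_inter_iff, mem_Ici, mem_Icc]
    constructor
    · rintro ⟨h, _, h'⟩; exact ⟨h, h'⟩
    · rintro ⟨h, h'⟩; exact ⟨h, h0.trans h, h'⟩
  rw [e1, integral_indicator measurableSet_Ici]
  unfold lam
  rw [Measure.restrict_restrict measurableSet_Ici, e2, integral_Icc_eq_integral_Ioc,
    ← intervalIntegral.integral_of_le h1]
  have hd : ∀ t : ℝ, HasDerivAt (fun t => -(1 - t) ^ (k + 1)) ((k + 1 : ℝ) * (1 - t) ^ k) t := by
    intro t
    have h2 : HasDerivAt (fun t : ℝ => 1 - t) (-1) t := by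
      simpa using (hasDerivAt_id t).const_sub 1
    have h3 := (h2.pow (k + 1)).neg
    refine h3.congr_deriv ?_
    push_cast
    simp
  rw [intervalIntegral.integral_eq_sub_of_hasDerivAt (fun t _ => hd t)
    (Continuous.intervalIntegrable (by fun_prop) _ _)]
  simp

/-- the upper block: probability that it lies above all coordinates of `u` -/
lemma upper_block {D : Set (W → ℝ)} (hD : CG D) {k : ℕ} (hW : Fintype.card W = k + 1)
    (hV : Nonempty V) {u : V → ℝ} (hu : ∀ a, 0 ≤ u a ∧ u a ≤ 1) :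
    (PV W).real (D ∩ {v | ∀ a b, u a ≤ v b}) = (PV W).real D *
      ∫ τ, ((k + 1 : ℝ) * (1 - τ) ^ k) * ({τ : ℝ | ∀ a, u a ≤ τ}).indicator (fun _ => (1:ℝ)) τ
        ∂lam := by
  obtain ⟨a0, ha0⟩ := Finite.exists_max u
  have e1 : {τ : ℝ | ∀ a, u a ≤ τ} = Ici (u a0) := by
    ext τ
    simp only [mem_Ici]
    exact ⟨fun h => h a0, fun h a => (ha0 a).trans h⟩
  rw [e1, lamp k (hu a0).1 (hu a0).2, ← real_rfl]
  have e2 : rfl' ⁻¹' (D ∩ {v : W → ℝ | ∀ (a : V) b, u a ≤ v b}) =
      (rfl' ⁻¹' D) ∩ {v | ∀ b, v b ≤ 1 - u a0} := by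
    ext v
    simp only [mem_preimage, mem_inter_iff]
    refine and_congr Iff.rfl ?_
    change (∀ a b, u a ≤ 1 - v b) ↔ ∀ b, v b ≤ 1 - u a0
    constructor
    · intro h b
      have := h a0 b
      linarith
    · intro h a b
      have := h b
      have := ha0 a
      linarith
  rw [e2, cap hD.rfl (by omega) (by linarith [(hu a0).2]) (by linarith [(hu a0).1]), hW,
    real_rfl, mul_comm]

lemma ae_lam : ∀ᵐ τ ∂lam, 0 < τ ∧ τ ≤ 1 := by
  have h1 : ∀ᵐ τ ∂lam, τ ∈ Icc (0:ℝ) 1 := ae_restrict_mem measurableSet_Icc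
  have h2 : ∀ᵐ τ ∂lam, τ ≠ 0 := by
    have : ∀ᵐ τ ∂(volume : Measure ℝ), τ ≠ 0 := by
      rw [ae_iff]
      simp
    exact ae_restrict_of_ae this
  filter_upwards [h1, h2] with τ h3 h4
  exact ⟨lt_of_le_of_ne h3.1 (Ne.symm h4), h3.2⟩

lemma int_cont {f : (V → ℝ) → ℝ} (hf : Continuous f) : Integrable f (PV V) := by
  rw [PV_eq]
  exact (hf.continuousOn.integrableOn_compact (isCompact_univ_pi fun _ => isCompact_Icc))

lemma int_cont' {f : ℝ → ℝ} (hf : Continuous f) : Integrable f lam := by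
  unfold lam
  exact hf.continuousOn.integrableOn_compact isCompact_Icc

/-- the set of pairs, the first below the second -/
def prs (C : Set (V → ℝ)) (D : Set (W → ℝ)) : Set ((V → ℝ) × (W → ℝ)) :=
  {p | p.1 ∈ C ∧ p.2 ∈ D ∧ ∀ a b, p.1 a ≤ p.2 b}

lemma meas_prs {C : Set (V → ℝ)} {D : Set (W → ℝ)} (hC : MeasurableSet C) (hD : MeasurableSet D) :
    MeasurableSet (prs C D) := by
  have e : prs C D = Prod.fst ⁻¹' C ∩ (Prod.snd ⁻¹' D ∩
      ⋂ a : V, ⋂ b : W, {p : (V → ℝ) × (W → ℝ) | p.1 a ≤ p.2 b}) := by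
    ext p
    simp only [prs, mem_inter_iff, mem_preimage, mem_iInter]
    exact Iff.rfl
  rw [e]
  refine (measurable_fst hC).inter ((measurable_snd hD).inter ?_)
  refine MeasurableSet.iInter fun a => MeasurableSet.iInter fun b => ?_
  exact measurableSet_le ((measurable_pi_apply a).comp measurable_fst)
    ((measurable_pi_apply b).comp measurable_snd)

theorem ser_int {C : Set (V → ℝ)} {D : Set (W → ℝ)} (hC : CG C) (hD : CG D) {k : ℕ}
    (hW : Fintype.card W = k + 1) (hV : Nonempty V) {f : (V → ℝ) → ℝ} (hf : Continuous f) :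
    ∫ p in prs C D, f p.1 ∂((PV V).prod (PV W)) = (PV W).real D *
      ∫ τ, ((k + 1 : ℝ) * (1 - τ) ^ k) * (τ ^ Fintype.card V * ∫ u in C, f (τ • u) ∂(PV V))
        ∂lam := by
  have hS := meas_prs hC.meas hD.meas
  have hfi := int_cont hf
  have hfp : Integrable (fun p : (V → ℝ) × (W → ℝ) => f p.1) ((PV V).prod (PV W)) :=
    hfi.comp_fst (PV W)
  have hw : Integrable (fun τ : ℝ => (k + 1 : ℝ) * (1 - τ) ^ k) lam := int_cont' (by fun_prop)
  have hCf : Integrable (C.indicator f) (PV V) := hfi.indicator hC.meas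
  rw [← integral_indicator hS, integral_prod _ (hfp.indicator hS)]
  have hmU : ∀ u : V → ℝ, MeasurableSet {v : W → ℝ | ∀ a b, u a ≤ v b} := by
    intro u
    have e : {v : W → ℝ | ∀ a b, u a ≤ v b} = ⋂ a : V, ⋂ b : W, {v : W → ℝ | u a ≤ v b} := by
      ext v
      simp only [mem_iInter]
      exact Iff.rfl
    rw [e]
    exact MeasurableSet.iInter fun a => MeasurableSet.iInter fun b =>
      measurableSet_le measurable_const (measurable_pi_apply b)
  have h1 : ∀ u : V → ℝ, ∫ v, (prs C D).indicator (fun p => f p.1) (u, v) ∂(PV W) =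
      C.indicator f u * (PV W).real (D ∩ {v | ∀ a b, u a ≤ v b}) := by
    intro u
    by_cases hu : u ∈ C
    · have e : (fun v => (prs C D).indicator (fun p => f p.1) (u, v)) =
          (D ∩ {v | ∀ a b, u a ≤ v b}).indicator fun _ => f u := by
        funext v
        by_cases hv : v ∈ D ∩ {v | ∀ a b, u a ≤ v b}
        · rw [indicator_of_mem hv, indicator_of_mem (show (u, v) ∈ prs C D from ⟨hu, hv.1, hv.2⟩)]
        · rw [indicator_of_notMem hv, indicator_of_notMem fun h => hv ⟨h.2.1, h.2.2⟩]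
      rw [e, integral_indicator_const _ (hD.meas.inter (hmU u)), indicator_of_mem hu, smul_eq_mul,
        mul_comm]
    · have e : (fun v => (prs C D).indicator (fun p => f p.1) (u, v)) = fun _ => 0 := by
        funext v
        exact indicator_of_notMem (fun h => hu h.1) _
      rw [e, integral_zero, indicator_of_notMem hu, zero_mul]
  have h2 : ∫ u, ∫ v, (prs C D).indicator (fun p => f p.1) (u, v) ∂(PV W) ∂(PV V) =
      ∫ u, (PV W).real D * ∫ τ, ({z : (V → ℝ) × ℝ | ∀ a, z.1 a ≤ z.2}).indicator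
        (fun z => C.indicator f z.1 * ((k + 1 : ℝ) * (1 - z.2) ^ k)) (u, τ) ∂lam ∂(PV V) := by
    refine integral_congr_ae ?_
    filter_upwards [ae_cub (V := V)] with u hu
    rw [h1 u, upper_block hD hW hV hu, ← mul_assoc, mul_comm (C.indicator f u), mul_assoc,
      ← integral_const_mul]
    congr 2
    funext τ
    by_cases h : ∀ a, u a ≤ τ
    · rw [indicator_of_mem (show τ ∈ {τ : ℝ | ∀ a, u a ≤ τ} from h),
        indicator_of_mem (show (u, τ) ∈ {z : (V → ℝ) × ℝ | ∀ a, z.1 a ≤ z.2} from h), mul_one]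
    · rw [indicator_of_notMem (show τ ∉ {τ : ℝ | ∀ a, u a ≤ τ} from h),
        indicator_of_notMem (show (u, τ) ∉ {z : (V → ℝ) × ℝ | ∀ a, z.1 a ≤ z.2} from h), mul_zero,
        mul_zero]
  rw [h2, integral_const_mul]
  congr 1
  have hmZ : MeasurableSet {z : (V → ℝ) × ℝ | ∀ a, z.1 a ≤ z.2} := by
    have e : {z : (V → ℝ) × ℝ | ∀ a, z.1 a ≤ z.2} =
        ⋂ a : V, {z : (V → ℝ) × ℝ | z.1 a ≤ z.2} := by
      ext z
      simp only [mem_iInter]
      exact Iff.rfl
    rw [e]
    exact MeasurableSet.iInter fun a =>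
      measurableSet_le ((measurable_pi_apply a).comp measurable_fst) measurable_snd
  have hint : Integrable (Function.uncurry fun (u : V → ℝ) (τ : ℝ) =>
      ({z : (V → ℝ) × ℝ | ∀ a, z.1 a ≤ z.2}).indicator
        (fun z => C.indicator f z.1 * ((k + 1 : ℝ) * (1 - z.2) ^ k)) (u, τ))
      ((PV V).prod lam) := (hCf.mul_prod hw).indicator hmZ
  rw [integral_integral_swap hint]
  refine integral_congr_ae ?_
  filter_upwards [ae_lam] with τ hτ
  rw [← scal hC hτ.1 hτ.2 f, ← integral_indicator (hC.meas.inter (meas_le τ)),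
    ← integral_const_mul]
  congr 1
  funext u
  by_cases h : ∀ a, u a ≤ τ
  · rw [indicator_of_mem (show (u, τ) ∈ {z : (V → ℝ) × ℝ | ∀ a, z.1 a ≤ z.2} from h)]
    by_cases hu : u ∈ C
    · rw [indicator_of_mem (show u ∈ C ∩ {u | ∀ a, u a ≤ τ} from ⟨hu, h⟩)]
      simp only [indicator_of_mem hu]
      ring
    · rw [indicator_of_notMem (show u ∉ C ∩ {u | ∀ a, u a ≤ τ} from fun h => hu h.1)]
      simp only [indicator_of_notMem hu]
      ring
  · rw [indicator_of_notMem (show (u, τ) ∉ {z : (V → ℝ) × ℝ | ∀ a, z.1 a ≤ z.2} from h),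
      indicator_of_notMem (show u ∉ C ∩ {u | ∀ a, u a ≤ τ} from fun h' => h h'.2), mul_zero]

end Pool.Agent.Helper73.KS
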