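import Mathlib
import Pool.Agent.Helper73.KS.Tree
import Pool.Agent.Helper73.KS.Main
import Pool.Agent.Helper73.KS.Vol

/-!
# The law of the coordinates of a uniform point of the order cone of a tree
-/

namespace Pool.Agent.Helper73.KS

open MeasureTheory Set SPT

/-- the order cone -/
def cone (T : SPT) : Set (El T → ℝ) := {u | ∀ a b, le T a b → u a ≤ u b}

/-- the event that `x` is below `y` -/
def evt {V : Type} (x y : V) : Set (V → ℝ) := {u | u x < u y}

lemma CG_cone (T : SPT) : CG (cone T) := by
  refine ⟨?_, fun τ hτ u => ?_, fun c u => ?_⟩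
  · have e : cone T = ⋂ a : El T, ⋂ b : El T, {u : El T → ℝ | le T a b → u a ≤ u b} := by
      ext u
      simp only [mem_iInter]
      exact Iff.rfl
    rw [e]
    refine MeasurableSet.iInter fun a => MeasurableSet.iInter fun b => ?_
    by_cases h : le T a b
    · have e2 : {u : El T → ℝ | le T a b → u a ≤ u b} = {u : El T → ℝ | u a ≤ u b} := by
        ext u
        exact ⟨fun hu => hu h, fun hu _ => hu⟩
      rw [e2]
      exact measurableSet_le (measurable_pi_apply a) (measurable_pi_apply b)
    · have e2 : {u : El T → ℝ | le T a b → u a ≤ u b} = univ := by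
        ext u
        exact ⟨fun _ => trivial, fun _ hab => absurd hab h⟩
      rw [e2]
      exact MeasurableSet.univ
  · constructor
    · intro h a b hab
      have := h a b hab
      simp only [Pi.smul_apply, smul_eq_mul] at this
      exact le_of_mul_le_mul_left this hτ
    · intro h a b hab
      have := h a b hab
      simp only [Pi.smul_apply, smul_eq_mul]
      exact mul_le_mul_of_nonneg_left this hτ.le
  · constructor
    · intro h a b hab
      have := h a b hab
      linarith
    · intro h a b hab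
      have := h a b hab
      change u a + c ≤ u b + c
      linarith

lemma CG_evt {V : Type} [Fintype V] {C : Set (V → ℝ)} (hC : CG C) (x y : V) :
    CG (C ∩ evt x y) := by
  refine ⟨hC.meas.inter (measurableSet_lt (measurable_pi_apply x) (measurable_pi_apply y)),
    fun τ hτ u => ?_, fun c u => ?_⟩
  · rw [mem_inter_iff, mem_inter_iff, hC.scale τ hτ]
    refine and_congr Iff.rfl ?_
    change τ * u x < τ * u y ↔ u x < u y
    exact mul_lt_mul_iff_right₀ hτ
  · rw [mem_inter_iff, mem_inter_iff, hC.trans c]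
    refine and_congr Iff.rfl ?_
    change u x + c < u y + c ↔ u x < u y
    exact add_lt_add_iff_right c

lemma card_El : ∀ T : SPT, Fintype.card (El T) = lv T + 1
  | leaf => rfl
  | ser A B => by
      have h : Fintype.card (El (ser A B)) = Fintype.card (El A) + Fintype.card (El B) :=
        Fintype.card_sum
      rw [h, card_El A, card_El B]
      simp only [lv]; ring
  | par A B => by
      have h : Fintype.card (El (par A B)) = Fintype.card (El A) + Fintype.card (El B) :=
        Fintype.card_sum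
      rw [h, card_El A, card_El B]
      simp only [lv]; ring

/-- volume of the order cone -/
noncomputable def vl (T : SPT) : ℝ := (PV (El T)).real (cone T)

/-- splitting the coordinates -/
def eS (A B : SPT) : (El (ser A B) → ℝ) ≃ᵐ (El A → ℝ) × (El B → ℝ) :=
  MeasurableEquiv.sumPiEquivProdPi fun _ : El A ⊕ El B => ℝ

/-- splitting the coordinates -/
def eP (A B : SPT) : (El (par A B) → ℝ) ≃ᵐ (El A → ℝ) × (El B → ℝ) :=
  MeasurableEquiv.sumPiEquivProdPi fun _ : El A ⊕ El B => ℝ

lemma mp_eS (A B : SPT) :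
    MeasurePreserving (eS A B) (PV (El (ser A B))) ((PV (El A)).prod (PV (El B))) :=
  measurePreserving_sumPiEquivProdPi (fun _ : El A ⊕ El B => lam)

lemma mp_eP (A B : SPT) :
    MeasurePreserving (eP A B) (PV (El (par A B))) ((PV (El A)).prod (PV (El B))) :=
  measurePreserving_sumPiEquivProdPi (fun _ : El A ⊕ El B => lam)

lemma eS_apply {A B : SPT} (u : El (ser A B) → ℝ) :
    eS A B u = (fun a => u (sl a), fun b => u (sr b)) := rfl

lemma eP_apply {A B : SPT} (u : El (par A B) → ℝ) :
    eP A B u = (fun a => u (pl a), fun b => u (pr b)) := rfl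

lemma cone_ser (A B : SPT) : cone (ser A B) = eS A B ⁻¹' prs (cone A) (cone B) := by
  ext u
  constructor
  · intro h
    refine ⟨fun a b hab => ?_, fun a b hab => ?_, fun a b => ?_⟩
    · exact h (sl a) (sl b) hab
    · exact h (sr a) (sr b) hab
    · exact h (sl a) (sr b) trivial
  · rintro ⟨h1, h2, h3⟩ a b hab
    rcases ser_cases a with ⟨a, rfl⟩ | ⟨a, rfl⟩
    · rcases ser_cases b with ⟨b, rfl⟩ | ⟨b, rfl⟩
      · exact h1 a b hab
      · exact h3 a b
    · rcases ser_cases b with ⟨b, rfl⟩ | ⟨b, rfl⟩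
      · exact absurd hab id
      · exact h2 a b hab

lemma cone_par (A B : SPT) : cone (par A B) = eP A B ⁻¹' (cone A ×ˢ cone B) := by
  ext u
  constructor
  · intro h
    refine ⟨fun a b hab => ?_, fun a b hab => ?_⟩
    · exact h (pl a) (pl b) hab
    · exact h (pr a) (pr b) hab
  · rintro ⟨h1, h2⟩ a b hab
    rcases par_cases a with ⟨a, rfl⟩ | ⟨a, rfl⟩
    · rcases par_cases b with ⟨b, rfl⟩ | ⟨b, rfl⟩
      · exact h1 a b hab
      · exact absurd hab id
    · rcases par_cases b with ⟨b, rfl⟩ | ⟨b, rfl⟩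
      · exact absurd hab id
      · exact h2 a b hab

/-! ### the operators as integrals -/

lemma opT_scale (n : ℕ) (F : ℝ → ℝ) (w : ℝ) :
    opT n (fun t => F (t * w)) = fun t => opT n F (t * w) := by
  funext t
  unfold opT
  simp only [mul_assoc]

lemma ups_scale (n k : ℕ) : ∀ (F : ℝ → ℝ) (w : ℝ),
    op (ups n k) F w = op (ups n k) (fun t => F (t * w)) 1 := by
  induction k with
  | zero => intro F w; change F w = F (1 * w); rw [one_mul]
  | succ k ih =>
    intro F w
    change op (ups n k) (opT (n + k) F) w = op (ups n k) (opT (n + k) fun t => F (t * w)) 1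
    rw [ih, opT_scale]

lemma ups_gen (n k : ℕ) {F : ℝ → ℝ} (hF : Continuous F) (w : ℝ) :
    op (ups n (k + 1)) F w = ∫ t, F (t * w) * bet (n + k + 1) (n + 1) t ∂lam := by
  rw [ups_scale, ups_one n k (by fun_prop), int_lam]

lemma downs_refl (n k : ℕ) : ∀ (F : ℝ → ℝ) (w : ℝ),
    op (downs n k) F w = op (ups n k) (fun t => F (1 - t)) (1 - w) := by
  induction k with
  | zero => intro F w; change F w = F (1 - (1 - w)); congr 1; ring
  | succ k ih =>
    intro F w
    change op (downs n k) (opB (n + k) F) w =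
      op (ups n k) (opT (n + k) fun t => F (1 - t)) (1 - w)
    rw [ih]
    congr 1
    funext t
    rw [opB_eq]
    congr 1
    ring

lemma downs_gen (n k : ℕ) {F : ℝ → ℝ} (hF : Continuous F) (w : ℝ) :
    op (downs n (k + 1)) F w =
      ∫ t, F (1 - t * (1 - w)) * bet (n + k + 1) (n + 1) t ∂lam := by
  rw [downs_refl, ups_gen n k (F := fun t => F (1 - t)) (by fun_prop)]

lemma int_prod {g : ℝ × ℝ → ℝ} (hg : Continuous g) : Integrable g (lam.prod lam) := by
  unfold lam
  rw [Measure.prod_restrict]
  exact hg.continuousOn.integrableOn_compact (isCompact_Icc.prod isCompact_Icc)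

lemma E_lam (n : ℕ) (h : ℕ → ℝ) (F : ℝ → ℝ) : E n h F = ∫ t, F t * dens n h t ∂lam := by
  rw [int_lam]; rfl

lemma E_swap {n : ℕ} {h : ℕ → ℝ} {m i : ℕ} {Φ : ℝ → ℝ → ℝ}
    (hΦ : Continuous fun p : ℝ × ℝ => Φ p.1 p.2) :
    E n h (fun w => ∫ t, Φ t w * bet m i t ∂lam) =
      ∫ t, bet m i t * E n h (fun w => Φ t w) ∂lam := by
  rw [E_lam]
  have h1 : ∀ w, (∫ t, Φ t w * bet m i t ∂lam) * dens n h w =
      ∫ t, Φ t w * bet m i t * dens n h w ∂lam := by
    intro w
    rw [integral_mul_const]
  simp only [h1]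
  have hc : Continuous (Function.uncurry fun w t => Φ t w * bet m i t * dens n h w) := by
    have e1 : Continuous fun p : ℝ × ℝ => Φ p.2 p.1 := hΦ.comp (continuous_snd.prodMk continuous_fst)
    have e2 : Continuous fun p : ℝ × ℝ => bet m i p.2 := (bet_cont m i).comp continuous_snd
    have e3 : Continuous fun p : ℝ × ℝ => dens n h p.1 := (dens_cont n h).comp continuous_fst
    exact (e1.mul e2).mul e3
  rw [integral_integral_swap (int_prod hc)]
  refine integral_congr_ae (Filter.Eventually.of_forall fun t => ?_)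
  change ∫ w, Φ t w * bet m i t * dens n h w ∂lam = bet m i t * E n h (fun w => Φ t w)
  rw [E_lam, ← integral_const_mul]
  congr 1
  funext w
  ring

/-- the constant of the ordinal sum -/
noncomputable def cc (n k : ℕ) : ℝ := (k + 1 : ℝ) / ((n + k + 2) * ((n + k + 1).choose (n + 1) : ℕ))

lemma cc_pos (n k : ℕ) : 0 < cc n k := by
  unfold cc
  have : 0 < (n + k + 1).choose (n + 1) := Nat.choose_pos (by omega)
  positivity

lemma cc_bet (n k : ℕ) (t : ℝ) :
    ((k + 1 : ℝ) * (1 - t) ^ k) * t ^ (n + 1) = cc n k * bet (n + k + 1) (n + 1) t := by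
  have h1 : 0 < (n + k + 1).choose (n + 1) := Nat.choose_pos (by omega)
  have h2 : n + k + 1 - (n + 1) = k := by omega
  have h3 : ((n + k + 2 : ℝ)) * ((n + k + 1).choose (n + 1) : ℕ) ≠ 0 := by positivity
  have h4 : (((n + k + 1 : ℕ) : ℝ) + 1) = n + k + 2 := by push_cast; ring
  unfold cc bet
  rw [h2, h4, div_mul_eq_mul_div, eq_div_iff h3]
  ring

lemma bet_lam (n k : ℕ) : ∫ t, bet (n + k + 1) (n + 1) t ∂lam = 1 := by
  rw [int_lam]
  exact bet_int (by omega)

/-! ### the ordinal sum -/

section

variable {V W : Type} [Fintype V] [Fintype W]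

/-- reflection of pairs -/
def rflP (V W : Type) [Fintype V] [Fintype W] :
    (V → ℝ) × (W → ℝ) ≃ᵐ (W → ℝ) × (V → ℝ) :=
  ((rflE V).prodCongr (rflE W)).trans MeasurableEquiv.prodComm

lemma mp_rflP : MeasurePreserving (rflP V W) ((PV V).prod (PV W)) ((PV W).prod (PV V)) := by
  have h1 : MeasurePreserving (Prod.map (rfl' : (V → ℝ) → (V → ℝ)) (rfl' : (W → ℝ) → (W → ℝ)))
      ((PV V).prod (PV W)) ((PV V).prod (PV W)) := mp_rfl.prod mp_rfl
  have h2 : MeasurePreserving (Prod.swap : (V → ℝ) × (W → ℝ) → (W → ℝ) × (V → ℝ))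
      ((PV V).prod (PV W)) ((PV W).prod (PV V)) := Measure.measurePreserving_swap
  exact h2.comp h1

lemma prs_rfl (C : Set (V → ℝ)) (D : Set (W → ℝ)) :
    prs C D = rflP V W ⁻¹' prs (rfl' ⁻¹' D) (rfl' ⁻¹' C) := by
  ext ⟨u, v⟩
  constructor
  · rintro ⟨h1, h2, h3⟩
    refine ⟨?_, ?_, fun a b => ?_⟩
    · change rfl' (rfl' v) ∈ D
      rw [rfl_rfl]; exact h2
    · change rfl' (rfl' u) ∈ C
      rw [rfl_rfl]; exact h1
    · change 1 - v a ≤ 1 - u b
      have := h3 b a
      linarith
  · rintro ⟨h1, h2, h3⟩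
    refine ⟨?_, ?_, fun a b => ?_⟩
    · have h4 : rfl' (rfl' u) ∈ C := h2
      rwa [rfl_rfl] at h4
    · have h4 : rfl' (rfl' v) ∈ D := h1
      rwa [rfl_rfl] at h4
    · have h4 : 1 - v b ≤ 1 - u a := h3 b a
      change u a ≤ v b
      linarith

/-- the upper side of the ordinal sum -/
theorem ser_int' {C : Set (V → ℝ)} {D : Set (W → ℝ)} (hC : CG C) (hD : CG D) {n : ℕ}
    (hV : Fintype.card V = n + 1) (hW : Nonempty W) {f : (W → ℝ) → ℝ} (hf : Continuous f) :
    ∫ p in prs C D, f p.2 ∂((PV V).prod (PV W)) = (PV V).real C *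
      ∫ τ, ((n + 1 : ℝ) * (1 - τ) ^ n) * (τ ^ Fintype.card W *
        ∫ v in D, f (rfl' (τ • rfl' v)) ∂(PV W)) ∂lam := by
  have h1 : ∫ p in prs C D, f p.2 ∂((PV V).prod (PV W)) =
      ∫ q in prs (rfl' ⁻¹' D) (rfl' ⁻¹' C), f (rfl' q.1) ∂((PV W).prod (PV V)) := by
    rw [prs_rfl C D]
    have h2 := mp_rflP.setIntegral_preimage_emb (rflP V W).measurableEmbedding
      (fun q : (W → ℝ) × (V → ℝ) => f (rfl' q.1)) (prs (rfl' ⁻¹' D) (rfl' ⁻¹' C))
    rw [← h2]
    refine integral_congr_ae (Filter.Eventually.of_forall fun p => ?_)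
    change f p.2 = f (rfl' (rfl' p.2))
    rw [rfl_rfl]
  have hfr : Continuous fun v : W → ℝ => f (rfl' v) := by
    unfold rfl'
    fun_prop
  rw [h1, ser_int hD.rfl hC.rfl hV hW hfr, real_rfl]
  congr 1
  refine integral_congr_ae (Filter.Eventually.of_forall fun τ => ?_)
  change _ * (_ * ∫ u in rfl' ⁻¹' D, f (rfl' (τ • u)) ∂(PV W)) = _
  have h2 := set_rfl D fun v => f (rfl' (τ • rfl' v))
  simp only [rfl_rfl] at h2
  rw [h2]

/-- volume of the ordinal sum -/
lemma real_prs {C : Set (V → ℝ)} {D : Set (W → ℝ)} (hC : CG C) (hD : CG D) {n k : ℕ}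
    (hV : Fintype.card V = n + 1) (hW : Fintype.card W = k + 1) :
    ((PV V).prod (PV W)).real (prs C D) = (PV V).real C * (PV W).real D * cc n k := by
  have hVn : Nonempty V := Fintype.card_pos_iff.1 (by omega)
  have h1 := ser_int hC hD hW hVn (f := fun _ => (1 : ℝ)) continuous_const
  rw [setIntegral_const, smul_eq_mul, mul_one] at h1
  rw [h1]
  have h2 : ∀ τ : ℝ, ((k + 1 : ℝ) * (1 - τ) ^ k) * (τ ^ Fintype.card V *
      ∫ _u in C, (1:ℝ) ∂(PV V)) = (PV V).real C * cc n k * bet (n + k + 1) (n + 1) τ := by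
    intro τ
    rw [setIntegral_const, smul_eq_mul, mul_one, ← mul_assoc, hV, cc_bet]
    ring
  simp only [h2]
  rw [integral_const_mul, bet_lam]
  ring

end

lemma vl_ser (A B : SPT) : vl (ser A B) = vl A * vl B * cc (lv A) (lv B) := by
  unfold vl
  rw [cone_ser, (mp_eS A B).measureReal_preimage (meas_prs (CG_cone A).meas
    (CG_cone B).meas).nullMeasurableSet, real_prs (CG_cone A) (CG_cone B) (card_El A) (card_El B)]

lemma vl_par (A B : SPT) : vl (par A B) = vl A * vl B := by
  unfold vl
  rw [cone_par, (mp_eP A B).measureReal_preimage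
    ((CG_cone A).meas.prod (CG_cone B).meas).nullMeasurableSet, measureReal_prod_prod]

/-- **The law of a coordinate.** -/
theorem law : ∀ (T : SPT) (x : El T) {F : ℝ → ℝ}, Continuous F →
    ∫ u in cone T, F (u x) ∂(PV (El T)) = vl T * E (lv T) (co T x) F := by
  intro T
  induction T with
  | leaf =>
    intro x F hF
    have h1 : cone leaf = univ := by
      ext u
      exact ⟨fun _ => trivial, fun _ a b _ => le_of_eq (congrArg u (Subsingleton.elim (α := Unit) a b))⟩
    have h2 : vl leaf = 1 := by
      unfold vl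
      rw [h1]
      simp
    rw [h1, h2, one_mul, Measure.restrict_univ]
    have h3 : MeasurePreserving (Function.eval x) (PV (El leaf)) lam := by
      unfold PV
      exact measurePreserving_eval (fun _ : El leaf => lam) x
    have h4 := integral_map (μ := PV (El leaf)) h3.measurable.aemeasurable (f := F)
      hF.aestronglyMeasurable
    rw [h3.map_eq] at h4
    change ∫ u, F (Function.eval x u) ∂(PV (El leaf)) = E 0 de F
    rw [← h4, E_de, int_lam]
  | ser A B ihA ihB =>
    intro x F hF
    rcases ser_cases x with ⟨a, rfl⟩ | ⟨b, rfl⟩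
    · have h1 := (mp_eS A B).setIntegral_preimage_emb (eS A B).measurableEmbedding
        (fun p : (El A → ℝ) × (El B → ℝ) => F (p.1 a)) (prs (cone A) (cone B))
      have h2 := ser_int (CG_cone A) (CG_cone B) (card_El B) (nonempty_El A)
        (f := fun u => F (u a)) (by fun_prop)
      rw [cone_ser]
      refine h1.trans (h2.trans ?_)
      rw [vl_ser, E_sl a hF]
      have h3 : ∀ τ : ℝ, ((lv B + 1 : ℝ) * (1 - τ) ^ (lv B)) * (τ ^ Fintype.card (El A) *
          ∫ u in cone A, F ((τ • u) a) ∂(PV (El A))) = (vl A * cc (lv A) (lv B)) *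
          (bet (lv A + lv B + 1) (lv A + 1) τ * E (lv A) (co A a) (fun w => F (τ * w))) := by
        intro τ
        have h4 := ihA a (F := fun w => F (τ * w)) (by fun_prop)
        simp only [Pi.smul_apply, smul_eq_mul]
        rw [h4, card_El, ← mul_assoc, cc_bet]
        ring
      simp only [h3]
      rw [integral_const_mul, ← E_swap (Φ := fun t w => F (t * w)) (by fun_prop)]
      have h5 : (fun w => ∫ t, F (t * w) * bet (lv A + lv B + 1) (lv A + 1) t ∂lam) =
          op (ups (lv A) (lv B + 1)) F := by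
        funext w
        rw [ups_gen _ _ hF]
      rw [h5]
      change vl B * _ = _
      ring
    · have h1 := (mp_eS A B).setIntegral_preimage_emb (eS A B).measurableEmbedding
        (fun p : (El A → ℝ) × (El B → ℝ) => F (p.2 b)) (prs (cone A) (cone B))
      have h2 := ser_int' (CG_cone A) (CG_cone B) (card_El A) (nonempty_El B)
        (f := fun u => F (u b)) (by fun_prop)
      rw [cone_ser]
      refine h1.trans (h2.trans ?_)
      rw [vl_ser, E_sr b hF]
      have h3 : ∀ τ : ℝ, ((lv A + 1 : ℝ) * (1 - τ) ^ (lv A)) * (τ ^ Fintype.card (El B) *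
          ∫ v in cone B, F (rfl' (τ • rfl' v) b) ∂(PV (El B))) = (vl B * cc (lv B) (lv A)) *
          (bet (lv B + lv A + 1) (lv B + 1) τ *
            E (lv B) (co B b) (fun w => F (1 - τ * (1 - w)))) := by
        intro τ
        have h4 := ihB b (F := fun w => F (1 - τ * (1 - w))) (by fun_prop)
        have h5 : ∀ v : El B → ℝ, F (rfl' (τ • rfl' v) b) = F (1 - τ * (1 - v b)) := fun v => rfl
        simp only [h5]
        rw [h4, card_El, ← mul_assoc, cc_bet]
        ring
      simp only [h3]
      rw [integral_const_mul, ← E_swap (Φ := fun t w => F (1 - t * (1 - w))) (by fun_prop)]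
      have h5 : (fun w => ∫ t, F (1 - t * (1 - w)) * bet (lv B + lv A + 1) (lv B + 1) t ∂lam) =
          op (downs (lv B) (lv A + 1)) F := by
        funext w
        rw [downs_gen _ _ hF]
      rw [h5]
      have h6 : cc (lv B) (lv A) = cc (lv A) (lv B) := by
        have h7 : lv B + lv A + 1 = lv A + lv B + 1 := by ring
        have h8 : ((lv A + lv B + 1).choose (lv A + 1) : ℕ) * (lv A + 1) =
            (lv A + lv B + 1).choose (lv B + 1) * (lv B + 1) := by
          have e1 : (lv A + lv B + 1).choose (lv B + 1) = (lv A + lv B + 1).choose (lv A) := by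
            rw [← Nat.choose_symm (by omega : lv A ≤ lv A + lv B + 1)]
            congr 1
            omega
          have e2 := Nat.choose_succ_right_eq (lv A + lv B + 1) (lv A)
          have e3 : lv A + lv B + 1 - lv A = lv B + 1 := by omega
          rw [e1, e2, e3]
        have h9 : (((lv A + lv B + 1).choose (lv A + 1) : ℕ) : ℝ) * (lv A + 1) =
            ((lv A + lv B + 1).choose (lv B + 1) : ℕ) * (lv B + 1) := by exact_mod_cast h8
        have h10 : (0:ℝ) < ((lv A + lv B + 1).choose (lv A + 1) : ℕ) := by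
          exact_mod_cast Nat.choose_pos (by omega)
        have h11 : (0:ℝ) < ((lv A + lv B + 1).choose (lv B + 1) : ℕ) := by
          exact_mod_cast Nat.choose_pos (by omega)
        unfold cc
        rw [h7, div_eq_div_iff (by positivity) (by positivity)]
        have e : ((lv B : ℝ) + lv A + 2) = lv A + lv B + 2 := by ring
        rw [e]
        linear_combination ((lv A : ℝ) + lv B + 2) * h9
      rw [← h6]
      change vl A * _ = _
      ring
  | par A B ihA ihB =>
    intro x F hF
    rcases par_cases x with ⟨a, rfl⟩ | ⟨b, rfl⟩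
    · have h1 := (mp_eP A B).setIntegral_preimage_emb (eP A B).measurableEmbedding
        (fun p : (El A → ℝ) × (El B → ℝ) => F (p.1 a) * 1) (cone A ×ˢ cone B)
      have h2 := setIntegral_prod_mul (μ := PV (El A)) (ν := PV (El B)) (fun u => F (u a))
        (fun _ => (1:ℝ)) (cone A) (cone B)
      rw [cone_par]
      simp only [mul_one] at h1 h2
      refine h1.trans (h2.trans ?_)
      rw [ihA a hF, vl_par, E_pl, setIntegral_const, smul_eq_mul, mul_one]
      change _ * vl B = _
      ring
    · have h1 := (mp_eP A B).setIntegral_preimage_emb (eP A B).measurableEmbedding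
        (fun p : (El A → ℝ) × (El B → ℝ) => 1 * F (p.2 b)) (cone A ×ˢ cone B)
      have h2 := setIntegral_prod_mul (μ := PV (El A)) (ν := PV (El B)) (fun _ => (1:ℝ))
        (fun u => F (u b)) (cone A) (cone B)
      rw [cone_par]
      simp only [one_mul] at h1 h2
      refine h1.trans (h2.trans ?_)
      rw [ihB b hF, vl_par, E_pr, setIntegral_const, smul_eq_mul, mul_one]
      change vl A * _ = _
      ring

lemma vl_pos : ∀ T : SPT, 0 < vl T := by
  intro T
  induction T with
  | leaf =>
    have h1 : cone leaf = univ := by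
      ext u
      exact ⟨fun _ => trivial, fun _ a b _ => le_of_eq (congrArg u (Subsingleton.elim (α := Unit) a b))⟩
    unfold vl
    rw [h1]
    simp
  | ser A B ihA ihB => rw [vl_ser]; exact mul_pos (mul_pos ihA ihB) (cc_pos _ _)
  | par A B ihA ihB => rw [vl_par]; exact mul_pos ihA ihB

/-- the law of a coordinate as a measure -/
lemma law_meas (T : SPT) (x : El T) : ((PV (El T)).restrict (cone T)).map (fun u => u x) =
    lam.withDensity fun t => ENNReal.ofReal (vl T * dens (lv T) (co T x) t) := by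
  have hv := vl_pos T
  have hdc : Continuous fun t => vl T * dens (lv T) (co T x) t :=
    continuous_const.mul (dens_cont _ _)
  have hfin : IsFiniteMeasure (lam.withDensity fun t =>
      ENNReal.ofReal (vl T * dens (lv T) (co T x) t)) :=
    isFiniteMeasure_withDensity_ofReal (int_cont' hdc).2
  refine ext_of_forall_integral_eq_of_IsFiniteMeasure fun f => ?_
  rw [integral_map (measurable_pi_apply x).aemeasurable f.continuous.aestronglyMeasurable,
    law T x f.continuous,
    integral_withDensity_eq_integral_toReal_smul (by fun_prop)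
      (Filter.Eventually.of_forall fun t => ENNReal.ofReal_lt_top), E_lam, ← integral_const_mul]
  refine integral_congr_ae ?_
  filter_upwards [ae_lam] with t ht
  have h1 : 0 ≤ vl T * dens (lv T) (co T x) t :=
    mul_nonneg hv.le (dens_nonneg (co_Pr T x) ht.1.le ht.2)
  rw [ENNReal.toReal_ofReal h1, smul_eq_mul]
  ring

/-- probability of a lower tail -/
lemma tail (T : SPT) (x : El T) (t : ℝ) :
    (PV (El T)).real (cone T ∩ {u | u x < t}) = vl T * cdf (lv T) (co T x) t := by
  have h1 : (PV (El T)).real (cone T ∩ {u | u x < t}) =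
      (((PV (El T)).restrict (cone T)).map (fun u => u x)).real (Iio t) := by
    rw [measureReal_def, measureReal_def, Measure.map_apply (measurable_pi_apply x) measurableSet_Iio,
      Measure.restrict_apply (measurable_pi_apply x measurableSet_Iio), inter_comm]
    rfl
  have hdc : Continuous fun t => vl T * dens (lv T) (co T x) t :=
    continuous_const.mul (dens_cont _ _)
  rw [h1, law_meas, measureReal_def, withDensity_apply _ measurableSet_Iio,
    ← ofReal_integral_eq_lintegral_ofReal (int_cont' hdc).restrict ?_, ENNReal.toReal_ofReal ?_]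
  · rw [integral_const_mul]
    congr 1
    unfold cdf lam
    rw [Measure.restrict_restrict measurableSet_Iio,
      intervalIntegral.integral_of_le (clamp_mem t).1]
    refine setIntegral_congr_set ?_
    rcases le_total t 0 with h | h
    · have e1 : clamp t = 0 := by
        unfold clamp
        rw [min_eq_left (by linarith), max_eq_left h]
      have e2 : Iio t ∩ Icc (0:ℝ) 1 = ∅ := by
        ext s
        simp only [mem_inter_iff, mem_Iio, mem_Icc, mem_empty_iff_false, iff_false]
        rintro ⟨h1, h2, -⟩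
        linarith
      rw [e1, e2]
      simp
    · rcases le_total t 1 with h' | h'
      · have e1 : clamp t = t := clamp_of_mem h h'
        have e2 : Iio t ∩ Icc (0:ℝ) 1 = Ico 0 t := by
          ext s
          simp only [mem_inter_iff, mem_Iio, mem_Icc, mem_Ico]
          constructor
          · rintro ⟨h1, h2, -⟩; exact ⟨h2, h1⟩
          · rintro ⟨h1, h2⟩; exact ⟨h2, h1, by linarith⟩
        rw [e1, e2]
        exact Ico_ae_eq_Ioc
      · have e1 : clamp t = 1 := by
          unfold clamp
          rw [min_eq_right h', max_eq_right zero_le_one]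
        rw [e1]
        rcases h'.lt_or_eq with h'' | h''
        · have e2 : Iio t ∩ Icc (0:ℝ) 1 = Icc 0 1 := by
            ext s
            simp only [mem_inter_iff, mem_Iio, mem_Icc]
            constructor
            · rintro ⟨_, h2, h3⟩; exact ⟨h2, h3⟩
            · rintro ⟨h2, h3⟩; exact ⟨by linarith, h2, h3⟩
          rw [e2]
          exact Ioc_ae_eq_Icc.symm
        · subst h''
          have e2 : Iio (1:ℝ) ∩ Icc (0:ℝ) 1 = Ico 0 1 := by
            ext s
            simp only [mem_inter_iff, mem_Iio, mem_Icc, mem_Ico]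
            constructor
            · rintro ⟨h1, h2, -⟩; exact ⟨h2, h1⟩
            · rintro ⟨h1, h2⟩; exact ⟨h2, h1, by linarith⟩
          rw [e2]
          exact Ico_ae_eq_Ioc
  · refine setIntegral_nonneg_of_ae ?_
    filter_upwards [ae_lam] with t ht
    exact mul_nonneg (vl_pos T).le (dens_nonneg (co_Pr T x) ht.1.le ht.2)
  · refine ae_restrict_of_ae ?_
    filter_upwards [ae_lam] with t ht
    exact mul_nonneg (vl_pos T).le (dens_nonneg (co_Pr T x) ht.1.le ht.2)

/-- probability that `x` is below `y` at a uniform point of the order cone -/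
noncomputable def pv (T : SPT) (x y : El T) : ℝ := (PV (El T)).real (cone T ∩ evt x y) / vl T

theorem pv_cross {A B : SPT} (x : El A) (y : El B) :
    pv (par A B) (pl x) (pr y) = E (lv B) (co B y) (cdf (lv A) (co A x)) := by
  have h1 : cone (par A B) ∩ evt (pl x) (pr y) =
      eP A B ⁻¹' {p | p.1 ∈ cone A ∧ p.2 ∈ cone B ∧ p.1 x < p.2 y} := by
    rw [cone_par]
    ext u
    constructor
    · rintro ⟨⟨h1, h2⟩, h3⟩; exact ⟨h1, h2, h3⟩
    · rintro ⟨h1, h2, h3⟩; exact ⟨⟨h1, h2⟩, h3⟩
  have hm : MeasurableSet {p : (El A → ℝ) × (El B → ℝ) | p.1 ∈ cone A ∧ p.2 ∈ cone B ∧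
      p.1 x < p.2 y} := by
    have e : {p : (El A → ℝ) × (El B → ℝ) | p.1 ∈ cone A ∧ p.2 ∈ cone B ∧ p.1 x < p.2 y} =
        Prod.fst ⁻¹' cone A ∩ (Prod.snd ⁻¹' cone B ∩ {p | p.1 x < p.2 y}) := by
      ext p; exact Iff.rfl
    rw [e]
    exact (measurable_fst (CG_cone A).meas).inter ((measurable_snd (CG_cone B).meas).inter
      (measurableSet_lt ((measurable_pi_apply x).comp measurable_fst)
        ((measurable_pi_apply y).comp measurable_snd)))
  unfold pv
  rw [h1, (mp_eP A B).measureReal_preimage hm.nullMeasurableSet, vl_par, measureReal_def,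
    Measure.prod_apply_symm hm]
  have h2 : ∀ v : El B → ℝ, (PV (El A)) ((fun u => (u, v)) ⁻¹' {p : (El A → ℝ) × (El B → ℝ) |
      p.1 ∈ cone A ∧ p.2 ∈ cone B ∧ p.1 x < p.2 y}) =
      (cone B).indicator (fun v => ENNReal.ofReal (vl A * cdf (lv A) (co A x) (v y))) v := by
    intro v
    by_cases hv : v ∈ cone B
    · rw [indicator_of_mem hv, ← tail A x (v y), measureReal_def, ENNReal.ofReal_toReal
        (measure_ne_top _ _)]
      congr 1
      ext u
      constructor
      · rintro ⟨h1, -, h3⟩; exact ⟨h1, h3⟩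
      · rintro ⟨h1, h3⟩; exact ⟨h1, hv, h3⟩
    · rw [indicator_of_notMem hv]
      have e : (fun u => (u, v)) ⁻¹' {p : (El A → ℝ) × (El B → ℝ) |
          p.1 ∈ cone A ∧ p.2 ∈ cone B ∧ p.1 x < p.2 y} = ∅ := by
        ext u
        simp only [mem_preimage, mem_empty_iff_false, iff_false]
        rintro ⟨-, h, -⟩
        exact hv h
      rw [e, measure_empty]
  have hc : Continuous fun v : El B → ℝ => vl A * cdf (lv A) (co A x) (v y) := by
    have := cdf_cont (lv A) (co A x)
    fun_prop
  simp only [h2]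
  rw [lintegral_indicator (CG_cone B).meas, ← ofReal_integral_eq_lintegral_ofReal
    (int_cont hc).restrict ?_, ENNReal.toReal_ofReal ?_, integral_const_mul,
    law B y (cdf_cont _ _)]
  · have hA := vl_pos A
    have hB := vl_pos B
    field_simp
  · exact integral_nonneg fun v => mul_nonneg (vl_pos A).le (cdf_nonneg (co_Pr A x) _)
  · exact Filter.Eventually.of_forall fun v =>
      mul_nonneg (vl_pos A).le (cdf_nonneg (co_Pr A x) _)

theorem pv_pl {A B : SPT} (x x' : El A) : pv (par A B) (pl x) (pl x') = pv A x x' := by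
  have h1 : cone (par A B) ∩ evt (pl x) (pl x') =
      eP A B ⁻¹' ((cone A ∩ evt x x') ×ˢ cone B) := by
    rw [cone_par]
    ext u
    constructor
    · rintro ⟨⟨h1, h2⟩, h3⟩; exact ⟨⟨h1, h3⟩, h2⟩
    · rintro ⟨⟨h1, h3⟩, h2⟩; exact ⟨⟨h1, h2⟩, h3⟩
  unfold pv
  rw [h1, (mp_eP A B).measureReal_preimage
    ((CG_evt (CG_cone A) x x').meas.prod (CG_cone B).meas).nullMeasurableSet, vl_par,
    measureReal_prod_prod]
  have hA := vl_pos A
  have hB := vl_pos B
  change _ * vl B / _ = _
  field_simp

theorem pv_pr {A B : SPT} (y y' : El B) : pv (par A B) (pr y) (pr y') = pv B y y' := by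
  have h1 : cone (par A B) ∩ evt (pr y) (pr y') =
      eP A B ⁻¹' (cone A ×ˢ (cone B ∩ evt y y')) := by
    rw [cone_par]
    ext u
    constructor
    · rintro ⟨⟨h1, h2⟩, h3⟩; exact ⟨h1, h2, h3⟩
    · rintro ⟨h1, h2, h3⟩; exact ⟨⟨h1, h2⟩, h3⟩
  unfold pv
  rw [h1, (mp_eP A B).measureReal_preimage
    ((CG_cone A).meas.prod (CG_evt (CG_cone B) y y').meas).nullMeasurableSet, vl_par,
    measureReal_prod_prod]
  have hA := vl_pos A
  have hB := vl_pos B
  change vl A * _ / _ = _
  field_simp

theorem pv_sl {A B : SPT} (x x' : El A) : pv (ser A B) (sl x) (sl x') = pv A x x' := by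
  have h1 : cone (ser A B) ∩ evt (sl x) (sl x') =
      eS A B ⁻¹' prs (cone A ∩ evt x x') (cone B) := by
    rw [cone_ser]
    ext u
    constructor
    · rintro ⟨⟨h1, h2, h4⟩, h3⟩; exact ⟨⟨h1, h3⟩, h2, h4⟩
    · rintro ⟨⟨h1, h3⟩, h2, h4⟩; exact ⟨⟨h1, h2, h4⟩, h3⟩
  unfold pv
  rw [h1, (mp_eS A B).measureReal_preimage
    (meas_prs (CG_evt (CG_cone A) x x').meas (CG_cone B).meas).nullMeasurableSet, vl_ser,
    real_prs (CG_evt (CG_cone A) x x') (CG_cone B) (card_El A) (card_El B)]
  have hA := vl_pos A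
  have hB := vl_pos B
  have hc := cc_pos (lv A) (lv B)
  change _ * vl B * _ / _ = _
  field_simp

theorem pv_sr {A B : SPT} (y y' : El B) : pv (ser A B) (sr y) (sr y') = pv B y y' := by
  have h1 : cone (ser A B) ∩ evt (sr y) (sr y') =
      eS A B ⁻¹' prs (cone A) (cone B ∩ evt y y') := by
    rw [cone_ser]
    ext u
    constructor
    · rintro ⟨⟨h1, h2, h4⟩, h3⟩; exact ⟨h1, ⟨h2, h3⟩, h4⟩
    · rintro ⟨h1, ⟨h2, h3⟩, h4⟩; exact ⟨⟨h1, h2, h4⟩, h3⟩
  unfold pv
  rw [h1, (mp_eS A B).measureReal_preimage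
    (meas_prs (CG_cone A).meas (CG_evt (CG_cone B) y y').meas).nullMeasurableSet, vl_ser,
    real_prs (CG_cone A) (CG_evt (CG_cone B) y y') (card_El A) (card_El B)]
  have hA := vl_pos A
  have hB := vl_pos B
  have hc := cc_pos (lv A) (lv B)
  change vl A * _ * _ / _ = _
  field_simp

end Pool.Agent.Helper73.KS
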