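import Mathlib
import Pool.Agent.Helper73.KS.Link
import Pool.Agent.Helper1.BalanceDefs

/-!
# Volumes count linear extensions
-/

namespace Pool.Agent.Helper73.KS

open MeasureTheory Set SPT

/-- relabelling preserves the measure -/
lemma mp_relabel {V W : Type} [Fintype V] [Fintype W] (f : V ≃ W) :
    MeasurePreserving (fun (u : V → ℝ) (w : W) => u (f.symm w)) (PV V) (PV W) := by
  have h1 := measurePreserving_piCongrLeft (fun _ : W => lam) f
  have h2 : (MeasurableEquiv.piCongrLeft (fun _ : W => ℝ) f : (V → ℝ) → (W → ℝ)) =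
      fun (u : V → ℝ) (w : W) => u (f.symm w) := by
    funext u w
    have h3 := Equiv.piCongrLeft_apply_apply (fun _ : W => ℝ) f u (f.symm w)
    rw [MeasurableEquiv.coe_piCongrLeft]
    rw [f.apply_symm_apply] at h3
    exact h3
  rw [h2] at h1
  exact h1

/-- the simplex of a permutation -/
def Dc {n : ℕ} (σ : Equiv.Perm (Fin n)) : Set (Fin n → ℝ) := {u | ∀ a b, σ a < σ b → u a < u b}

lemma Dc_meas {n : ℕ} (σ : Equiv.Perm (Fin n)) : MeasurableSet (Dc σ) := by
  have e : Dc σ = ⋂ a : Fin n, ⋂ b : Fin n, {u : Fin n → ℝ | σ a < σ b → u a < u b} := by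
    ext u
    simp only [mem_iInter]
    exact Iff.rfl
  rw [e]
  refine MeasurableSet.iInter fun a => MeasurableSet.iInter fun b => ?_
  by_cases h : σ a < σ b
  · have e2 : {u : Fin n → ℝ | σ a < σ b → u a < u b} = {u : Fin n → ℝ | u a < u b} := by
      ext u
      exact ⟨fun hu => hu h, fun hu _ => hu⟩
    rw [e2]
    exact measurableSet_lt (measurable_pi_apply a) (measurable_pi_apply b)
  · have e2 : {u : Fin n → ℝ | σ a < σ b → u a < u b} = univ := by
      ext u
      exact ⟨fun _ => trivial, fun _ hab => absurd hab h⟩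
    rw [e2]
    exact MeasurableSet.univ

lemma Dc_vol {n : ℕ} (σ : Equiv.Perm (Fin n)) :
    (PV (Fin n)).real (Dc σ) = (PV (Fin n)).real (Dc (1 : Equiv.Perm (Fin n))) := by
  rw [← (mp_relabel σ).measureReal_preimage (Dc_meas 1).nullMeasurableSet]
  congr 1
  ext u
  constructor
  · intro h a b hab
    refine h _ _ ?_
    rw [σ.apply_symm_apply, σ.apply_symm_apply]
    exact hab
  · intro h a b hab
    have := h (σ a) (σ b) hab
    simp only [σ.symm_apply_apply] at this
    exact this

lemma Dc_le {n : ℕ} {σ : Equiv.Perm (Fin n)} {u : Fin n → ℝ} (hu : u ∈ Dc σ) (a b : Fin n) :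
    u a ≤ u b ↔ σ a ≤ σ b := by
  constructor
  · intro h
    by_contra hc
    push Not at hc
    exact absurd (hu b a hc) (not_lt.2 h)
  · intro h
    rcases h.lt_or_eq with h | h
    · exact (hu a b h).le
    · exact le_of_eq (congrArg u (σ.injective h))

lemma Dc_lt {n : ℕ} {σ : Equiv.Perm (Fin n)} {u : Fin n → ℝ} (hu : u ∈ Dc σ) (a b : Fin n) :
    u a < u b ↔ σ a < σ b := by
  rw [← not_le, ← not_le, Dc_le hu]

lemma Dc_disj {n : ℕ} {σ σ' : Equiv.Perm (Fin n)} {u : Fin n → ℝ} (hu : u ∈ Dc σ)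
    (hu' : u ∈ Dc σ') : σ = σ' := by
  have h1 : StrictMono (fun i => σ' (σ.symm i)) := by
    intro i j hij
    change σ' (σ.symm i) < σ' (σ.symm j)
    rw [← Dc_lt hu', Dc_lt hu, σ.apply_symm_apply, σ.apply_symm_apply]
    exact hij
  have h2 : StrictMono (fun i : Fin n => i) := fun _ _ h => h
  have h3 := (StrictMono.range_inj h1 h2).1 (by
    ext i
    simp only [mem_range, exists_eq, iff_true]
    exact ⟨σ (σ'.symm i), by simp⟩)
  ext a
  have h4 := congrFun h3 (σ a)
  simp only [σ.symm_apply_apply] at h4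
  rw [h4]

lemma Dc_cover {n : ℕ} {u : Fin n → ℝ} (hu : Function.Injective u) : ∃ σ, u ∈ Dc σ := by
  refine ⟨(Tuple.sort u).symm, fun a b hab => ?_⟩
  have h1 := Tuple.monotone_sort u hab.le
  simp only [Function.comp_apply, Equiv.apply_symm_apply] at h1
  refine lt_of_le_of_ne h1 fun h => ?_
  have := hu h
  subst this
  exact lt_irrefl _ hab

lemma ae_inj (n : ℕ) : ∀ᵐ u ∂(PV (Fin n)), Function.Injective u := by
  have h1 : ∀ a b : Fin n, a ≠ b → ∀ᵐ u ∂(PV (Fin n)), u a ≠ u b := by
    intro a b hab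
    rw [PV_eq]
    refine ae_restrict_of_ae ?_
    set p : (Fin n → ℝ) →ₗ[ℝ] ℝ := (LinearMap.proj a : (Fin n → ℝ) →ₗ[ℝ] ℝ) -
      (LinearMap.proj b : (Fin n → ℝ) →ₗ[ℝ] ℝ) with hp
    have h2 : (volume : Measure (Fin n → ℝ)) (LinearMap.ker p) = 0 := by
      refine Measure.addHaar_submodule _ _ fun htop => ?_
      have h3 : (Pi.single a 1 : Fin n → ℝ) ∈ LinearMap.ker p := by
        rw [htop]; trivial
      rw [LinearMap.mem_ker, hp] at h3
      simp [hab] at h3
    rw [ae_iff]
    refine measure_mono_null ?_ h2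
    intro u hu
    have hu' : u a = u b := not_not.1 hu
    change u ∈ LinearMap.ker p
    rw [LinearMap.mem_ker]
    change u a - u b = 0
    rw [hu', sub_self]
  have h2 : ∀ᵐ u ∂(PV (Fin n)), ∀ a b : Fin n, a ≠ b → u a ≠ u b := by
    rw [ae_all_iff]; intro a
    rw [ae_all_iff]; intro b
    by_cases hab : a = b
    · exact Filter.Eventually.of_forall fun u h => absurd hab h
    · filter_upwards [h1 a b hab] with u hu _
      exact hu
  filter_upwards [h2] with u hu a b hab
  by_contra hne
  exact hu a b hne hab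

lemma count {n : ℕ} (S : Set (Fin n → ℝ)) (A : Equiv.Perm (Fin n) → Prop)
    (h : ∀ σ, ∀ u ∈ Dc σ, (u ∈ S ↔ A σ)) : (PV (Fin n)).real S =
      (Nat.card {σ : Equiv.Perm (Fin n) // A σ} : ℝ) *
        (PV (Fin n)).real (Dc (1 : Equiv.Perm (Fin n))) := by
  classical
  have h1 : S =ᵐ[PV (Fin n)] ⋃ σ : {σ : Equiv.Perm (Fin n) // A σ}, Dc σ.1 := by
    rw [Filter.eventuallyEq_set]
    filter_upwards [ae_inj n] with u hu
    rw [mem_iUnion]
    obtain ⟨σ, hσ⟩ := Dc_cover hu
    constructor
    · intro hS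
      exact ⟨⟨σ, (h σ u hσ).1 hS⟩, hσ⟩
    · rintro ⟨⟨σ', hA⟩, hσ'⟩
      exact (h σ' u hσ').2 hA
  rw [measureReal_congr h1, measureReal_iUnion_fintype]
  · simp only [Dc_vol]
    rw [Finset.sum_const, Finset.card_univ, nsmul_eq_mul, Nat.card_eq_fintype_card]
  · intro σ σ' hne
    rw [Function.onFun, Set.disjoint_left]
    intro u hu hu'
    exact hne (Subtype.ext (Dc_disj hu hu'))
  · intro σ
    exact Dc_meas _

lemma Dc_pos (n : ℕ) : 0 < (PV (Fin n)).real (Dc (1 : Equiv.Perm (Fin n))) := by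
  have h1 := count (n := n) univ (fun _ => True) fun σ u _ => ⟨fun _ => trivial, fun _ => trivial⟩
  rw [probReal_univ] at h1
  by_contra hc
  have h2 : (PV (Fin n)).real (Dc (1 : Equiv.Perm (Fin n))) = 0 :=
    le_antisymm (not_lt.1 hc) measureReal_nonneg
  rw [h2, mul_zero] at h1
  exact one_ne_zero h1

/-- the order cone of a relation -/
def rcone {n : ℕ} (r : Fin n → Fin n → Prop) : Set (Fin n → ℝ) := {u | ∀ a b, r a b → u a ≤ u b}

open Pool.Agent.Helper1.Balance in
/-- **Probabilities through volumes.** -/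
theorem prob_vol {n : ℕ} (r : Fin n → Fin n → Prop) (x y : Fin n) :
    Pool.Agent.Helper1.Balance.prob r x y =
      (PV (Fin n)).real (rcone r ∩ evt x y) / (PV (Fin n)).real (rcone r) := by
  have h1 := count (rcone r ∩ evt x y)
    (fun σ => (∀ a b, r a b → σ a ≤ σ b) ∧ σ x < σ y) fun σ u hu => by
      refine and_congr ?_ (Dc_lt hu x y)
      refine forall_congr' fun a => forall_congr' fun b => ?_
      rw [Dc_le hu]
  have h2 := count (rcone r) (fun σ => ∀ a b, r a b → σ a ≤ σ b) fun σ u hu => by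
      refine forall_congr' fun a => forall_congr' fun b => ?_
      rw [Dc_le hu]
  have h3 := Dc_pos n
  rw [h1, h2]
  unfold Pool.Agent.Helper1.Balance.prob
  rw [mul_div_mul_right _ _ h3.ne']

/-- **Probabilities of a series-parallel order through its tree.** -/
theorem prob_tree {n : ℕ} (r : Fin n → Fin n → Prop) (T : SPT) (e : Fin n ≃ El T)
    (he : ∀ a b, r a b ↔ le T (e a) (e b)) (x y : Fin n) :
    Pool.Agent.Helper1.Balance.prob r x y = pv T (e x) (e y) := by
  have h1 := mp_relabel e.symm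
  have hm : MeasurableSet (rcone r) := by
    have e1 : rcone r = ⋂ a : Fin n, ⋂ b : Fin n, {u : Fin n → ℝ | r a b → u a ≤ u b} := by
      ext u
      simp only [mem_iInter]
      exact Iff.rfl
    rw [e1]
    refine MeasurableSet.iInter fun a => MeasurableSet.iInter fun b => ?_
    by_cases h : r a b
    · have e2 : {u : Fin n → ℝ | r a b → u a ≤ u b} = {u : Fin n → ℝ | u a ≤ u b} := by
        ext u
        exact ⟨fun hu => hu h, fun hu _ => hu⟩
      rw [e2]
      exact measurableSet_le (measurable_pi_apply a) (measurable_pi_apply b)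
    · have e2 : {u : Fin n → ℝ | r a b → u a ≤ u b} = univ := by
        ext u
        exact ⟨fun _ => trivial, fun _ hab => absurd hab h⟩
      rw [e2]
      exact MeasurableSet.univ
  have hev : MeasurableSet (evt x y : Set (Fin n → ℝ)) :=
    measurableSet_lt (measurable_pi_apply x) (measurable_pi_apply y)
  have h2 : (fun (u : El T → ℝ) (w : Fin n) => u (e.symm.symm w)) ⁻¹' (rcone r) = cone T := by
    ext u
    constructor
    · intro h a b hab
      have h3 := h (e.symm a) (e.symm b) ((he _ _).2 (by simpa using hab))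
      simpa using h3
    · intro h a b hab
      exact h _ _ ((he a b).1 hab)
  have h3 : (fun (u : El T → ℝ) (w : Fin n) => u (e.symm.symm w)) ⁻¹' (rcone r ∩ evt x y) =
      cone T ∩ evt (e x) (e y) := by
    rw [preimage_inter, h2]
    rfl
  rw [prob_vol]
  unfold pv vl
  rw [← h1.measureReal_preimage hm.nullMeasurableSet,
    ← h1.measureReal_preimage (hm.inter hev).nullMeasurableSet, h2, h3]

end Pool.Agent.Helper73.KS
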