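import Mathlib
import Pool.Agent.Helper73.KS.SPT

/-!
# Finite N-free partial orders are series-parallel
-/

namespace Pool.Agent.Helper73.KS

open SPT

/-- no induced path on four vertices -/
def P4free {V : Type} (adj : V → V → Prop) : Prop :=
  ∀ a b c d : V, adj a b → adj b c → adj c d → a ≠ c → a ≠ d → b ≠ d →
    adj a c ∨ adj a d ∨ adj b d

/-- a symmetric irreflexive relation is disconnected or its complement is, for `P4`-free ones -/
def Dis {V : Type} (adj : V → V → Prop) : Prop :=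
  ∃ X : Finset V, X.Nonempty ∧ (∃ y, y ∉ X) ∧ ∀ x ∈ X, ∀ y, y ∉ X → ¬ adj x y

/-- the complement relation -/
def co' {V : Type} (adj : V → V → Prop) (x y : V) : Prop := x ≠ y ∧ ¬ adj x y

lemma P4free.co {V : Type} {adj : V → V → Prop} (hs : ∀ x y, adj x y → adj y x)
    (h : P4free adj) : P4free (co' adj) := by
  intro a b c d hab hbc hcd hac had hbd
  by_contra hc
  push Not at hc
  obtain ⟨h1, h2, h3⟩ := hc
  have e1 : adj a c := by by_contra hh; exact h1 ⟨hac, hh⟩
  have e2 : adj a d := by by_contra hh; exact h2 ⟨had, hh⟩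
  have e3 : adj b d := by by_contra hh; exact h3 ⟨hbd, hh⟩
  rcases h b d a c e3 (hs _ _ e2) e1 hab.1.symm hbc.1 hcd.1.symm with h4 | h4 | h4
  · exact hab.2 (hs _ _ h4)
  · exact hbc.2 h4
  · exact hcd.2 (hs _ _ h4)

/-- extension step -/
lemma dis_step {V : Type} [DecidableEq V] {adj : V → V → Prop} (hs : ∀ x y, adj x y → adj y x)
    (h : P4free adj) (S : Finset V) (v : V) (hv : v ∉ S)
    (hd : ∃ X ⊆ S, X.Nonempty ∧ (S \ X).Nonempty ∧ ∀ x ∈ X, ∀ y ∈ S \ X, ¬ adj x y) :
    (∃ X ⊆ insert v S, X.Nonempty ∧ (insert v S \ X).Nonempty ∧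
      ∀ x ∈ X, ∀ y ∈ insert v S \ X, ¬ adj x y) ∨
    (∃ X ⊆ insert v S, X.Nonempty ∧ (insert v S \ X).Nonempty ∧
      ∀ x ∈ X, ∀ y ∈ insert v S \ X, adj x y) := by
  classical
  by_contra hcon
  push Not at hcon
  obtain ⟨hA, hB⟩ := hcon
  obtain ⟨X, hXS, hXn, hYn, hXY⟩ := hd
  -- a non-neighbour of v
  have hnon : ∃ u ∈ S, ¬ adj v u := by
    by_contra hc
    push Not at hc
    have hvS : (insert v S \ {v}).Nonempty := by
      obtain ⟨x, hx⟩ := hXn
      exact ⟨x, by
        rw [Finset.mem_sdiff, Finset.mem_insert, Finset.mem_singleton]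
        exact ⟨Or.inr (hXS hx), fun he => hv (he ▸ hXS hx)⟩⟩
    obtain ⟨x, hx, y, hy, hxy⟩ := hB {v} (by simp) (by simp) hvS
    rw [Finset.mem_singleton] at hx
    subst hx
    rw [Finset.mem_sdiff, Finset.mem_insert, Finset.mem_singleton] at hy
    rcases hy.1 with h1 | h1
    · exact hy.2 h1
    · exact hxy (hc y h1)
  -- the general argument for a pair (X, Y)
  have key : ∀ X Y : Finset V, X ⊆ S → Y ⊆ S → Y.Nonempty → (∀ z ∈ S, z ∈ X ∨ z ∈ Y) →
      (∀ x ∈ X, ∀ y ∈ Y, ¬ adj x y) → (∀ x ∈ X, x ∉ Y) → (∃ u ∈ X, ¬ adj v u) → False := by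
    intro X Y hX hY hYn hcov hno hdisj ⟨u, huX, huv⟩
    -- v has a neighbour in Y
    have hz : ∃ z ∈ Y, adj v z := by
      by_contra hc
      push Not at hc
      obtain ⟨x, hx, y, hy, hxy⟩ := hA Y (fun y hy => Finset.mem_insert_of_mem (hY hy)) hYn
        ⟨v, by rw [Finset.mem_sdiff]; exact ⟨Finset.mem_insert_self _ _, fun h => hv (hY h)⟩⟩
      rw [Finset.mem_sdiff, Finset.mem_insert] at hy
      rcases hy.1 with h1 | h1
      · subst h1
        exact hc x hx (hs _ _ hxy)
      · rcases hcov y h1 with h2 | h2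
        · exact hno y h2 x hx (hs _ _ hxy)
        · exact hy.2 h2
    obtain ⟨z, hzY, hvz⟩ := hz
    -- an edge inside X from a non-neighbour to a neighbour of v
    set M := X.filter fun x => ¬ adj v x with hM
    obtain ⟨y, hy, x, hx, hxy⟩ := hA M
      (fun y hy => Finset.mem_insert_of_mem (hX (Finset.mem_filter.1 hy).1))
      ⟨u, Finset.mem_filter.2 ⟨huX, huv⟩⟩
      ⟨v, by
        rw [Finset.mem_sdiff]
        exact ⟨Finset.mem_insert_self _ _, fun h => hv (hX (Finset.mem_filter.1 h).1)⟩⟩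
    rw [hM, Finset.mem_filter] at hy
    rw [Finset.mem_sdiff, Finset.mem_insert, hM, Finset.mem_filter] at hx
    rcases hx.1 with h1 | h1
    · subst h1
      exact hy.2 (hs _ _ hxy)
    · rcases hcov x h1 with h2 | h2
      · have hvx : adj v x := by
          by_contra hc
          exact hx.2 ⟨h2, hc⟩
        -- z - v - x - y
        have hzv : z ≠ v := fun he => hv (he ▸ hY hzY)
        rcases h z v x y (hs _ _ hvz) hvx (hs _ _ hxy) (fun he => hdisj x h2 (he ▸ hzY))
          (fun he => hdisj y hy.1 (he ▸ hzY)) (fun he => hv (he ▸ hX hy.1)) with h3 | h3 | h3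
        · exact hno x h2 z hzY (hs _ _ h3)
        · exact hno y hy.1 z hzY (hs _ _ h3)
        · exact hy.2 h3
      · exact hno y hy.1 x h2 hxy
  obtain ⟨u, huS, huv⟩ := hnon
  by_cases huX : u ∈ X
  · exact key X (S \ X) hXS Finset.sdiff_subset hYn
      (fun z hz => by
        by_cases hzX : z ∈ X
        · exact Or.inl hzX
        · exact Or.inr (Finset.mem_sdiff.2 ⟨hz, hzX⟩)) hXY
      (fun x hx h => (Finset.mem_sdiff.1 h).2 hx) ⟨u, huX, huv⟩
  · exact key (S \ X) X Finset.sdiff_subset hXS hXn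
      (fun z hz => by
        by_cases hzX : z ∈ X
        · exact Or.inr hzX
        · exact Or.inl (Finset.mem_sdiff.2 ⟨hz, hzX⟩))
      (fun x hx y hy hxy => hXY y hy x hx (hs _ _ hxy))
      (fun x hx => (Finset.mem_sdiff.1 hx).2) ⟨u, Finset.mem_sdiff.2 ⟨huS, huX⟩, huv⟩

/-- **`P4`-free graphs split.** -/
lemma cograph {V : Type} [DecidableEq V] {adj : V → V → Prop} (hs : ∀ x y, adj x y → adj y x)
    (h : P4free adj) : ∀ S : Finset V, 2 ≤ S.card →
    (∃ X ⊆ S, X.Nonempty ∧ (S \ X).Nonempty ∧ ∀ x ∈ X, ∀ y ∈ S \ X, ¬ adj x y) ∨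
    (∃ X ⊆ S, X.Nonempty ∧ (S \ X).Nonempty ∧ ∀ x ∈ X, ∀ y ∈ S \ X, adj x y) := by
  intro S
  induction S using Finset.induction_on with
  | empty => intro h2; simp at h2
  | insert v S hv ih =>
    intro h2
    rw [Finset.card_insert_of_notMem hv] at h2
    rcases Nat.lt_or_ge S.card 2 with h3 | h3
    · have h4 : S.card = 1 := by omega
      obtain ⟨w, rfl⟩ := Finset.card_eq_one.1 h4
      have hvw : v ≠ w := fun he => hv (by rw [he]; exact Finset.mem_singleton_self _)
      have hne : (insert v {w} \ {v} : Finset V).Nonempty := ⟨w, by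
        rw [Finset.mem_sdiff, Finset.mem_singleton]
        exact ⟨by simp, fun he => hvw he.symm⟩⟩
      have hy : ∀ y ∈ (insert v {w} \ {v} : Finset V), y = w := by
        intro y hy
        rw [Finset.mem_sdiff, Finset.mem_insert, Finset.mem_singleton, Finset.mem_singleton] at hy
        rcases hy.1 with h5 | h5
        · exact absurd h5 hy.2
        · exact h5
      by_cases hadj : adj v w
      · right
        refine ⟨{v}, by simp, by simp, hne, fun x hx y hy' => ?_⟩
        rw [Finset.mem_singleton] at hx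
        rw [hx, hy y hy']
        exact hadj
      · left
        refine ⟨{v}, by simp, by simp, hne, fun x hx y hy' => ?_⟩
        rw [Finset.mem_singleton] at hx
        rw [hx, hy y hy']
        exact hadj
    · rcases ih h3 with h4 | ⟨X, hXS, hXn, hYn, hXY⟩
      · exact dis_step hs h S v hv h4
      · -- apply the step to the complement
        have h5 := dis_step (adj := co' adj) (fun x y hxy => ⟨hxy.1.symm, fun hc => hxy.2 (hs _ _ hc)⟩)
          (h.co hs) S v hv
          ⟨X, hXS, hXn, hYn, fun x hx y hy hc => hc.2 (hXY x hx y hy)⟩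
        rcases h5 with ⟨X, h6, h7, h8, h9⟩ | ⟨X, h6, h7, h8, h9⟩
        · right
          refine ⟨X, h6, h7, h8, fun x hx y hy => ?_⟩
          by_contra hc
          exact h9 x hx y hy ⟨fun he => (Finset.mem_sdiff.1 hy).2 (he ▸ hx), hc⟩
        · left
          exact ⟨X, h6, h7, h8, fun x hx y hy => (h9 x hx y hy).2⟩

/-- partial orders -/
structure PO {V : Type} (r : V → V → Prop) : Prop where
  refl : ∀ a, r a a
  trans : ∀ a b c, r a b → r b c → r a c
  anti : ∀ a b, r a b → r b a → a = b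

/-- `N`-free relations, positive form -/
def NF {V : Type} (r : V → V → Prop) : Prop :=
  ∀ a b c d, r a c → r b c → r b d → (r a b ∨ r b a) ∨ (r c d ∨ r d c) ∨ (r a d ∨ r d a)

/-- the comparability graph of an `N`-free order has no induced path on four vertices -/
lemma NF.p4 {V : Type} {r : V → V → Prop} (hP : PO r) (h : NF r) :
    P4free (fun x y => x ≠ y ∧ (r x y ∨ r y x)) := by
  intro a b c d hab hbc hcd hac had hbd
  by_contra hcon
  push Not at hcon
  obtain ⟨h1, h2, h3⟩ := hcon
  have h1' := h1 hac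
  have h2' := h2 had
  have h3' := h3 hbd
  rcases hab.2 with h4 | h4
  · rcases hbc.2 with h5 | h5
    · exact h1'.1 (hP.trans _ _ _ h4 h5)
    · rcases hcd.2 with h6 | h6
      · rcases h a c b d h4 h5 h6 with h7 | h7 | h7
        · rcases h7 with h7 | h7
          · exact h1'.1 h7
          · exact h1'.2 h7
        · rcases h7 with h7 | h7
          · exact h3'.1 h7
          · exact h3'.2 h7
        · rcases h7 with h7 | h7
          · exact h2'.1 h7
          · exact h2'.2 h7
      · exact h3'.2 (hP.trans _ _ _ h6 h5)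
  · rcases hbc.2 with h5 | h5
    · rcases hcd.2 with h6 | h6
      · exact h3'.1 (hP.trans _ _ _ h5 h6)
      · rcases h d b c a h6 h5 h4 with h7 | h7 | h7
        · rcases h7 with h7 | h7
          · exact h3'.2 h7
          · exact h3'.1 h7
        · rcases h7 with h7 | h7
          · exact h1'.2 h7
          · exact h1'.1 h7
        · rcases h7 with h7 | h7
          · exact h2'.2 h7
          · exact h2'.1 h7
    · exact h1'.2 (hP.trans _ _ _ h5 h4)

/-- a set all of whose elements are comparable with all other elements gives a series cut -/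
lemma series_cut {V : Type} [Fintype V] [DecidableEq V] {r : V → V → Prop} (hP : PO r)
    (h : ∃ X : Finset V, X.Nonempty ∧ Xᶜ.Nonempty ∧ ∀ x ∈ X, ∀ y ∈ Xᶜ, r x y ∨ r y x) :
    ∃ L : Finset V, L.Nonempty ∧ Lᶜ.Nonempty ∧ ∀ x ∈ L, ∀ y ∈ Lᶜ, r x y := by
  classical
  set Q := (Finset.univ : Finset (Finset V)).filter fun X =>
    X.Nonempty ∧ Xᶜ.Nonempty ∧ ∀ x ∈ X, ∀ y ∈ Xᶜ, r x y ∨ r y x with hQ
  have hQn : Q.Nonempty := by
    obtain ⟨X, hX⟩ := h
    exact ⟨X, Finset.mem_filter.2 ⟨Finset.mem_univ _, hX⟩⟩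
  obtain ⟨X, hXQ, hmin⟩ := Finset.exists_min_image Q Finset.card hQn
  obtain ⟨-, hXn, hYn, hXY⟩ := Finset.mem_filter.1 hXQ
  -- every y outside is above all of X or below all of X
  have hmono : ∀ y ∈ Xᶜ, (∀ x ∈ X, r x y) ∨ (∀ x ∈ X, r y x) := by
    intro y hy
    by_contra hcon
    push Not at hcon
    obtain ⟨⟨x1, hx1, h1⟩, x2, hx2, h2⟩ := hcon
    set A := X.filter fun x => r x y with hA
    have hx2A : x2 ∈ A := by
      rw [hA, Finset.mem_filter]
      exact ⟨hx2, (hXY x2 hx2 y hy).resolve_right h2⟩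
    have hx1A : x1 ∉ A := by
      rw [hA, Finset.mem_filter]
      exact fun h => h1 h.2
    have hAX : A ⊂ X := ⟨Finset.filter_subset _ _, fun h => hx1A (h hx1)⟩
    have hAQ : A ∈ Q := by
      rw [hQ, Finset.mem_filter]
      refine ⟨Finset.mem_univ _, ⟨x2, hx2A⟩, ⟨x1, Finset.mem_compl.2 hx1A⟩, fun a ha z hz => ?_⟩
      have haX := (Finset.mem_filter.1 ha).1
      have hay := (Finset.mem_filter.1 ha).2
      by_cases hzX : z ∈ X
      · have hzy : ¬ r z y := fun h => (Finset.mem_compl.1 hz) (Finset.mem_filter.2 ⟨hzX, h⟩)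
        have hyz := (hXY z hzX y hy).resolve_left hzy
        exact Or.inl (hP.trans _ _ _ hay hyz)
      · exact hXY a haX z (Finset.mem_compl.2 hzX)
    exact absurd (hmin A hAQ) (not_le.2 (Finset.card_lt_card hAX))
  obtain ⟨x0, hx0⟩ := hXn
  by_cases hup : ∃ y ∈ Xᶜ, ∀ x ∈ X, r x y
  · obtain ⟨y0, hy0, hy0x⟩ := hup
    -- upper part
    refine ⟨(Xᶜ.filter fun y => ∀ x ∈ X, r x y)ᶜ, ⟨x0, ?_⟩, ⟨y0, ?_⟩, fun x hx y hy => ?_⟩
    · rw [Finset.mem_compl, Finset.mem_filter, Finset.mem_compl]
      exact fun h => h.1 hx0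
    · rw [compl_compl, Finset.mem_filter]
      exact ⟨hy0, hy0x⟩
    · rw [compl_compl, Finset.mem_filter] at hy
      rw [Finset.mem_compl, Finset.mem_filter] at hx
      by_cases hxX : x ∈ X
      · exact hy.2 x hxX
      · have hxc := Finset.mem_compl.2 hxX
        have h1 := (hmono x hxc).resolve_left fun h => hx ⟨hxc, h⟩
        exact hP.trans _ _ _ (h1 x0 hx0) (hy.2 x0 hx0)
  · push Not at hup
    refine ⟨Xᶜ, hYn, ⟨x0, by rw [compl_compl]; exact hx0⟩, fun x hx y hy => ?_⟩
    rw [compl_compl] at hy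
    rcases hmono x hx with h1 | h1
    · obtain ⟨x', hx', h2⟩ := hup x hx
      exact absurd (h1 x' hx') h2
    · exact h1 y hy

/-- restriction to a predicate -/
def res {V : Type} (r : V → V → Prop) (p : V → Prop) : {x // p x} → {x // p x} → Prop :=
  fun a b => r a.1 b.1

lemma PO.res {V : Type} {r : V → V → Prop} (hP : PO r) (p : V → Prop) : PO (res r p) :=
  ⟨fun _ => hP.refl _, fun _ _ _ h1 h2 => hP.trans _ _ _ h1 h2,
    fun _ _ h1 h2 => Subtype.ext (hP.anti _ _ h1 h2)⟩

lemma NF.res {V : Type} {r : V → V → Prop} (h : NF r) (p : V → Prop) : NF (res r p) :=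
  fun a b c d h1 h2 h3 => h a.1 b.1 c.1 d.1 h1 h2 h3

/-- **Finite `N`-free orders are series-parallel.** -/
theorem exists_tree : ∀ (n : ℕ) (V : Type) [Fintype V] (r : V → V → Prop), Fintype.card V = n →
    0 < n → PO r → NF r → ∃ (T : SPT) (e : V ≃ El T), ∀ a b, r a b ↔ le T (e a) (e b) := by
  intro n
  induction n using Nat.strong_induction_on with
  | _ n ih =>
    intro V _ r hcard hn hP hN
    classical
    rcases Nat.lt_or_ge n 2 with h2 | h2
    · have h3 : Fintype.card V = 1 := by omega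
      obtain ⟨x, hx⟩ := Fintype.card_eq_one_iff.1 h3
      refine ⟨leaf, ⟨fun _ => (() : Unit), fun _ => x, fun a => (hx a).symm, fun _ => rfl⟩,
        fun a b => ⟨fun _ => trivial, fun _ => ?_⟩⟩
      rw [hx a, hx b]
      exact hP.refl x
    · have hsym : ∀ x y : V, (x ≠ y ∧ (r x y ∨ r y x)) → (y ≠ x ∧ (r y x ∨ r x y)) :=
        fun x y h => ⟨h.1.symm, h.2.symm⟩
      -- general assembly
      have asm : ∀ L : Finset V, L.Nonempty → Lᶜ.Nonempty →
          ∃ (A B : SPT) (eA : {x // x ∈ L} ≃ El A) (eB : {x // ¬ x ∈ L} ≃ El B),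
            (∀ a b, r a.1 b.1 ↔ le A (eA a) (eA b)) ∧ (∀ a b, r a.1 b.1 ↔ le B (eB a) (eB b)) := by
        intro L hL hLc
        have hc1 : Fintype.card {x // x ∈ L} = L.card := Fintype.card_coe L
        have hc2 : Fintype.card {x // ¬ x ∈ L} = Fintype.card V - L.card := by
          rw [Fintype.card_subtype_compl, hc1]
        have hc3 : 0 < L.card := Finset.card_pos.2 hL
        have hc4 : 0 < Fintype.card V - L.card := by
          rw [← Finset.card_compl]
          exact Finset.card_pos.2 hLc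
        obtain ⟨A, eA, hA⟩ := ih L.card (by omega) {x // x ∈ L} (res r (· ∈ L)) hc1 hc3
          (hP.res _) (hN.res _)
        obtain ⟨B, eB, hB⟩ := ih (Fintype.card V - L.card) (by omega) {x // ¬ x ∈ L}
          (res r (fun x => ¬ x ∈ L)) hc2 hc4 (hP.res _) (hN.res _)
        exact ⟨A, B, eA, eB, fun a b => hA a b, fun a b => hB a b⟩
      rcases cograph hsym (hN.p4 hP) Finset.univ
        (by rw [Finset.card_univ, hcard]; exact h2) with ⟨X, -, hXn, hYn, hXY⟩ | ⟨X, -, hXn, hYn, hXY⟩
      · -- parallel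
        rw [← Finset.compl_eq_univ_sdiff] at hYn hXY
        obtain ⟨A, B, eA, eB, hA, hB⟩ := asm X hXn hYn
        have hno : ∀ x ∈ X, ∀ y, ¬ y ∈ X → ¬ r x y ∧ ¬ r y x := by
          intro x hx y hy
          have h3 := hXY x hx y (Finset.mem_compl.2 hy)
          have h4 : x ≠ y := fun he => hy (he ▸ hx)
          push Not at h3
          exact h3 h4
        set g : V ≃ El A ⊕ El B := (Equiv.sumCompl (· ∈ X)).symm.trans (Equiv.sumCongr eA eB)
          with hg
        have gpos : ∀ (a : V) (ha : a ∈ X), g a = Sum.inl (eA ⟨a, ha⟩) := by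
          intro a ha
          rw [hg, Equiv.trans_apply, Equiv.sumCompl_symm_apply_of_pos ha]
          rfl
        have gneg : ∀ (a : V) (ha : ¬ a ∈ X), g a = Sum.inr (eB ⟨a, ha⟩) := by
          intro a ha
          rw [hg, Equiv.trans_apply, Equiv.sumCompl_symm_apply_of_neg ha]
          rfl
        refine ⟨par A B, g, ?_⟩
        intro a b
        have key : ∀ (p q : El A ⊕ El B), g a = p → g b = q → (r a b ↔ le (par A B) p q) →
            (r a b ↔ le (par A B) (g a) (g b)) := by
          rintro p q rfl rfl h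
          exact h
        by_cases ha : a ∈ X
        · by_cases hb : b ∈ X
          · exact key _ _ (gpos a ha) (gpos b hb) (hA ⟨a, ha⟩ ⟨b, hb⟩)
          · exact key _ _ (gpos a ha) (gneg b hb)
              ⟨fun h => absurd h (hno a ha b hb).1, fun h => absurd h id⟩
        · by_cases hb : b ∈ X
          · exact key _ _ (gneg a ha) (gpos b hb)
              ⟨fun h => absurd h (hno b hb a ha).2, fun h => absurd h id⟩
          · exact key _ _ (gneg a ha) (gneg b hb) (hB ⟨a, ha⟩ ⟨b, hb⟩)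
      · -- series
        rw [← Finset.compl_eq_univ_sdiff] at hYn hXY
        obtain ⟨L, hLn, hLc, hL⟩ := series_cut hP ⟨X, hXn, hYn, fun x hx y hy => (hXY x hx y hy).2⟩
        obtain ⟨A, B, eA, eB, hA, hB⟩ := asm L hLn hLc
        set g : V ≃ El A ⊕ El B := (Equiv.sumCompl (· ∈ L)).symm.trans (Equiv.sumCongr eA eB)
          with hg
        have gpos : ∀ (a : V) (ha : a ∈ L), g a = Sum.inl (eA ⟨a, ha⟩) := by
          intro a ha
          rw [hg, Equiv.trans_apply, Equiv.sumCompl_symm_apply_of_pos ha]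
          rfl
        have gneg : ∀ (a : V) (ha : ¬ a ∈ L), g a = Sum.inr (eB ⟨a, ha⟩) := by
          intro a ha
          rw [hg, Equiv.trans_apply, Equiv.sumCompl_symm_apply_of_neg ha]
          rfl
        refine ⟨ser A B, g, ?_⟩
        intro a b
        have key : ∀ (p q : El A ⊕ El B), g a = p → g b = q → (r a b ↔ le (ser A B) p q) →
            (r a b ↔ le (ser A B) (g a) (g b)) := by
          rintro p q rfl rfl h
          exact h
        by_cases ha : a ∈ L
        · by_cases hb : b ∈ L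
          · exact key _ _ (gpos a ha) (gpos b hb) (hA ⟨a, ha⟩ ⟨b, hb⟩)
          · exact key _ _ (gpos a ha) (gneg b hb)
              ⟨fun _ => trivial, fun _ => hL a ha b (Finset.mem_compl.2 hb)⟩
        · by_cases hb : b ∈ L
          · refine key _ _ (gneg a ha) (gpos b hb) ⟨fun h => ?_, fun h => absurd h id⟩
            have h3 := hP.anti _ _ h (hL b hb a (Finset.mem_compl.2 ha))
            exact absurd (h3 ▸ hb) ha
          · exact key _ _ (gneg a ha) (gneg b hb) (hB ⟨a, ha⟩ ⟨b, hb⟩)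

end Pool.Agent.Helper73.KS
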