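import Mathlib
import Pool.Agent.Helper73.KS.Cnt
import Pool.Agent.Helper73.KS.Dec

/-!
# Consequences of the block bound
-/

namespace Pool.Agent.Helper73.KS

open MeasureTheory Set SPT

/-- almost surely the coordinates are distinct -/
lemma ae_inj' (V : Type) [Fintype V] : ∀ᵐ u ∂(PV V), Function.Injective u := by
  have h1 := mp_relabel (Fintype.equivFin V)
  have h2 := h1.quasiMeasurePreserving.ae (ae_inj (Fintype.card V))
  filter_upwards [h2] with u hu a b hab
  have h3 := hu (a₁ := Fintype.equivFin V a) (a₂ := Fintype.equivFin V b) (by simpa using hab)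
  exact (Fintype.equivFin V).injective h3

lemma pv_symm (T : SPT) {x y : El T} (hxy : x ≠ y) : pv T x y + pv T y x = 1 := by
  have hv := vl_pos T
  have h1 : (PV (El T)).real (cone T ∩ evt x y) + (PV (El T)).real (cone T ∩ evt y x) =
      (PV (El T)).real (cone T) := by
    rw [← measureReal_union]
    · refine measureReal_congr ?_
      rw [Filter.eventuallyEq_set]
      filter_upwards [ae_inj' (El T)] with u hu
      constructor
      · rintro (h | h)
        · exact h.1
        · exact h.1
      · intro h
        have h2 : u x ≠ u y := fun he => hxy (hu he)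
        rcases lt_or_gt_of_ne h2 with h3 | h3
        · exact Or.inl ⟨h, h3⟩
        · exact Or.inr ⟨h, h3⟩
    · rw [Set.disjoint_left]
      rintro u ⟨-, h1⟩ ⟨-, h2⟩
      have h1' : u x < u y := h1
      have h2' : u y < u x := h2
      exact absurd (lt_trans h1' h2') (lt_irrefl _)
    · exact (CG_evt (CG_cone T) y x).meas
  unfold pv
  rw [← add_div, h1]
  exact div_self hv.ne'

/-- unbalanced trees -/
lemma unb_of {ε : ℝ} : ∀ T : SPT, (∀ x y : El T, ¬ le T x y → ¬ le T y x →
    min (pv T x y) (pv T y x) ≤ 1 / 2 - ε) → Unb ε T := by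
  intro T
  induction T with
  | leaf => intro _; trivial
  | ser A B ihA ihB =>
    intro h
    refine ⟨ihA fun x y h1 h2 => ?_, ihB fun x y h1 h2 => ?_⟩
    · have := h (sl x) (sl y) h1 h2
      rwa [pv_sl, pv_sl] at this
    · have := h (sr x) (sr y) h1 h2
      rwa [pv_sr, pv_sr] at this
  | par A B ihA ihB =>
    intro h
    refine ⟨ihA fun x y h1 h2 => ?_, ihB fun x y h1 h2 => ?_, fun x y => ?_⟩
    · have := h (pl x) (pl y) h1 h2
      rwa [pv_pl, pv_pl] at this
    · have := h (pr x) (pr y) h1 h2
      rwa [pv_pr, pv_pr] at this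
    · have h1 := h (pl x) (pr y) id id
      have hne : (pl x : El (par A B)) ≠ pr y := by
        intro he
        exact Sum.inl_ne_inr he
      have h2 := pv_symm (par A B) hne
      rw [pv_cross] at h1 h2
      rw [le_abs]
      rcases min_le_iff.1 h1 with h3 | h3
      · right; linarith
      · left; linarith

/-- the ordinal sum decomposition -/
lemma blk_fun {N : ℕ} : ∀ T : SPT, Blk N T → ∃ (f : El T → ℕ) (m : ℕ), (∀ x, f x < m) ∧
    (∀ a b, f a < f b → le T a b) ∧ ∀ i, (Finset.univ.filter fun a => f a = i).card ≤ max N 1 := by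
  intro T
  induction T with
  | leaf =>
    intro _
    refine ⟨fun _ => 0, 1, fun _ => Nat.zero_lt_one, fun a b h => absurd h (lt_irrefl _),
      fun i => ?_⟩
    refine (Finset.card_le_univ _).trans ?_
    rw [card_El]
    exact le_max_right _ _
  | par A B _ _ =>
    intro h
    refine ⟨fun _ => 0, 1, fun _ => Nat.zero_lt_one, fun a b h => absurd h (lt_irrefl _),
      fun i => ?_⟩
    refine (Finset.card_le_univ _).trans ?_
    rw [card_El]
    refine le_trans ?_ (le_max_left _ _)
    have h1 : lv A + lv B + 2 ≤ N := h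
    simp only [lv]
    omega
  | ser A B ihA ihB =>
    intro h
    obtain ⟨f, m, hf1, hf2, hf3⟩ := ihA h.1
    obtain ⟨g, k, hg1, hg2, hg3⟩ := ihB h.2
    let F : El (ser A B) → ℕ := (Sum.elim f fun y => m + g y : El A ⊕ El B → ℕ)
    refine ⟨F, m + k, fun x => ?_, fun a b hab => ?_, fun i => ?_⟩
    · rcases ser_cases x with ⟨x, rfl⟩ | ⟨x, rfl⟩
      · have := hf1 x
        change f x < m + k
        omega
      · have := hg1 x
        change m + g x < m + k
        omega
    · rcases ser_cases a with ⟨a, rfl⟩ | ⟨a, rfl⟩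
      · rcases ser_cases b with ⟨b, rfl⟩ | ⟨b, rfl⟩
        · exact hf2 a b hab
        · trivial
      · rcases ser_cases b with ⟨b, rfl⟩ | ⟨b, rfl⟩
        · have h1 := hf1 b
          have h2 : m + g a < f b := hab
          omega
        · have h2 : m + g a < m + g b := hab
          exact hg2 a b (by omega)
    · rcases Nat.lt_or_ge i m with hi | hi
      · refine le_trans ?_ (hf3 i)
        have e : (Finset.univ.filter fun a : El (ser A B) => F a = i) ⊆
            (Finset.univ.filter fun a : El A => f a = i).map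
              ⟨sl, fun a b hab => Sum.inl_injective hab⟩ := by
          intro x hx
          rw [Finset.mem_filter] at hx
          rw [Finset.mem_map]
          rcases ser_cases x with ⟨x, rfl⟩ | ⟨x, rfl⟩
          · exact ⟨x, Finset.mem_filter.2 ⟨Finset.mem_univ _, hx.2⟩, rfl⟩
          · have h2 : m + g x = i := hx.2
            omega
        exact (Finset.card_le_card e).trans (le_of_eq (Finset.card_map _))
      · refine le_trans ?_ (hg3 (i - m))
        have e : (Finset.univ.filter fun a : El (ser A B) => F a = i) ⊆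
            (Finset.univ.filter fun a : El B => g a = i - m).map
              ⟨sr, fun a b hab => Sum.inr_injective hab⟩ := by
          intro x hx
          rw [Finset.mem_filter] at hx
          rw [Finset.mem_map]
          rcases ser_cases x with ⟨x, rfl⟩ | ⟨x, rfl⟩
          · have h2 : f x = i := hx.2
            have := hf1 x
            omega
          · have h2 : m + g x = i := hx.2
            exact ⟨x, Finset.mem_filter.2 ⟨Finset.mem_univ _, by omega⟩, rfl⟩
        exact (Finset.card_le_card e).trans (le_of_eq (Finset.card_map _))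

lemma finite_lv (n : ℕ) : {T : SPT | lv T < n}.Finite := by
  induction n with
  | zero =>
    refine Set.Finite.subset Set.finite_empty ?_
    intro T hT
    exact absurd hT (Nat.not_lt_zero _)
  | succ n ih =>
    refine Set.Finite.subset (((Set.finite_singleton SPT.leaf).union
      (Set.Finite.image2 SPT.ser ih ih)).union (Set.Finite.image2 SPT.par ih ih)) ?_
    intro T hT
    have hT' : lv T < n + 1 := hT
    cases T with
    | leaf => exact Or.inl (Or.inl rfl)
    | ser A B =>
      simp only [lv] at hT'
      refine Or.inl (Or.inr ⟨A, ?_, B, ?_, rfl⟩)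
      · change lv A < n; omega
      · change lv B < n; omega
    | par A B =>
      simp only [lv] at hT'
      refine Or.inr ⟨A, ?_, B, ?_, rfl⟩
      · change lv A < n; omega
      · change lv B < n; omega

/-- every incomparable pair lives in a small parallel node -/
lemma small_pair {N : ℕ} : ∀ T : SPT, Blk N T → ∀ x y : El T, ¬ le T x y → ¬ le T y x →
    ∃ (S : SPT) (x' y' : El S), lv S < N ∧ pv T x y = pv S x' y' := by
  intro T
  induction T with
  | leaf => intro _ x y h; exact absurd trivial h
  | par A B _ _ =>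
    intro h x y _ _
    have h1 : lv A + lv B + 2 ≤ N := h
    exact ⟨par A B, x, y, by simp only [lv]; omega, rfl⟩
  | ser A B ihA ihB =>
    intro h x y h1 h2
    rcases ser_cases x with ⟨x, rfl⟩ | ⟨x, rfl⟩
    · rcases ser_cases y with ⟨y, rfl⟩ | ⟨y, rfl⟩
      · rw [pv_sl]
        exact ihA h.1 x y h1 h2
      · exact absurd trivial h1
    · rcases ser_cases y with ⟨y, rfl⟩ | ⟨y, rfl⟩
      · exact absurd trivial h2
      · rw [pv_sr]
        exact ihB h.2 x y h1 h2

lemma finite_vals (N : ℕ) : {v : ℝ | ∃ (S : SPT) (x y : El S), lv S < N ∧ v = pv S x y}.Finite := by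
  have h1 : {v : ℝ | ∃ (S : SPT) (x y : El S), lv S < N ∧ v = pv S x y} =
      ⋃ S ∈ {T : SPT | lv T < N}, Set.range fun p : El S × El S => pv S p.1 p.2 := by
    ext v
    simp only [mem_iUnion]
    constructor
    · rintro ⟨S, x, y, h1, rfl⟩
      exact ⟨S, h1, (x, y), rfl⟩
    · rintro ⟨S, h1, ⟨x, y⟩, rfl⟩
      exact ⟨S, x, y, h1, rfl⟩
  rw [h1]
  exact (finite_lv N).biUnion fun S _ => Set.finite_range _

open Pool.Agent.Helper1.Balance

/-- the set whose supremum is the balance constant -/
def bset {n : ℕ} (r : Fin n → Fin n → Prop) : Set ℝ :=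
  {t : ℝ | ∃ x y : Fin n, ¬ r x y ∧ ¬ r y x ∧
    t = min (Pool.Agent.Helper1.Balance.prob r x y) (Pool.Agent.Helper1.Balance.prob r y x)}

lemma bset_finite {n : ℕ} (r : Fin n → Fin n → Prop) : (bset r).Finite := by
  refine Set.Finite.subset (Set.finite_range fun p : Fin n × Fin n =>
    min (Pool.Agent.Helper1.Balance.prob r p.1 p.2) (Pool.Agent.Helper1.Balance.prob r p.2 p.1)) ?_
  rintro t ⟨x, y, -, -, rfl⟩
  exact ⟨(x, y), rfl⟩

/-- **Main theorem for orders on `Fin n`.** -/
theorem main_bound {ε : ℝ} (hε : 0 < ε) : ∃ N : ℕ, ∀ (n : ℕ) (r : Fin n → Fin n → Prop),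
    IsPoset r → NF r → balance r ≤ 1 / 2 - ε →
    (∃ f : Fin n → ℕ, (∀ a b, f a < f b → r a b) ∧
      ∀ i, (Finset.univ.filter fun a => f a = i).card ≤ max N 1) ∧
    (balance r = 0 ∨ ∃ (S : SPT) (x y : El S) (S' : SPT) (x' y' : El S'), lv S < N ∧ lv S' < N ∧
      balance r = min (pv S x y) (pv S' x' y')) := by
  obtain ⟨N, hN⟩ := blk_bound hε
  refine ⟨N, fun n r hP hNF hb => ?_⟩
  rcases Nat.eq_zero_or_pos n with h0 | h0
  · subst h0
    refine ⟨⟨fun _ => 0, fun a => a.elim0, fun i => ?_⟩, Or.inl ?_⟩
    · refine (Finset.card_le_univ _).trans ?_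
      rw [Fintype.card_fin]
      exact Nat.zero_le _
    · unfold balance
      have : {t : ℝ | ∃ x y : Fin 0, ¬ r x y ∧ ¬ r y x ∧ t = min
          (Pool.Agent.Helper1.Balance.prob r x y) (Pool.Agent.Helper1.Balance.prob r y x)} = ∅ := by
        ext t
        simp only [mem_empty_iff_false, iff_false]
        rintro ⟨x, _⟩
        exact x.elim0
      rw [this, Real.sSup_empty]
  · obtain ⟨T, e, he⟩ := exists_tree n (Fin n) r (Fintype.card_fin n) h0 ⟨hP.1, hP.2.1, hP.2.2⟩ hNF
    have hU : Unb ε T := by
      refine unb_of T fun x y h1 h2 => ?_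
      have h3 : min (pv T x y) (pv T y x) ∈ bset r := by
        refine ⟨e.symm x, e.symm y, ?_, ?_, ?_⟩
        · rw [he]; simpa using h1
        · rw [he]; simpa using h2
        · rw [prob_tree r T e he, prob_tree r T e he]
          simp
      exact (le_csSup (bset_finite r).bddAbove h3).trans hb
    have hB := hN T hU
    refine ⟨?_, ?_⟩
    · obtain ⟨f, m, -, hf2, hf3⟩ := blk_fun T hB
      refine ⟨fun a => f (e a), fun a b hab => (he a b).2 (hf2 _ _ hab), fun i => ?_⟩
      refine le_trans (le_of_eq ?_) (hf3 i)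
      rw [← Finset.card_map e.toEmbedding]
      congr 1
      ext x
      rw [Finset.mem_map, Finset.mem_filter]
      constructor
      · rintro ⟨a, ha, rfl⟩
        exact ⟨Finset.mem_univ _, (Finset.mem_filter.1 ha).2⟩
      · rintro ⟨-, hx⟩
        exact ⟨e.symm x, Finset.mem_filter.2 ⟨Finset.mem_univ _, by simpa using hx⟩, by simp⟩
    · rcases (bset r).eq_empty_or_nonempty with h1 | h1
      · left
        change sSup (bset r) = 0
        rw [h1, Real.sSup_empty]
      · right
        obtain ⟨x, y, h2, h3, h4⟩ := h1.csSup_mem (bset_finite r)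
        rw [he] at h2 h3
        obtain ⟨S, x', y', h5, h6⟩ := small_pair T hB (e x) (e y) h2 h3
        obtain ⟨S', x'', y'', h7, h8⟩ := small_pair T hB (e y) (e x) h3 h2
        refine ⟨S, x', y', S', x'', y'', h5, h7, ?_⟩
        change sSup (bset r) = _
        rw [h4, prob_tree r T e he, prob_tree r T e he, h6, h8]

end Pool.Agent.Helper73.KS
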